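import Mathlib
import Pool.Agent.Lib_helper38.AGG.Defs
import Pool.Agent.Lib_helper58.XA.K2a

set_option autoImplicit false

/-! AGG, block A1: mixture functions -/

namespace Pool.Agent.AGG

open Finset Pool.Agent.XA Pool.Agent.Lib_helper10.LogRank Pool.Agent.AGG

variable {ι : Type} [Fintype ι] [DecidableEq ι] {V : Type} [AddCommGroup V] [Fintype V]
  [DecidableEq V] {W : Type} [AddCommGroup W] [Fintype W] [DecidableEq W]

theorem a1_sum (i : ι) (z : Finset ι) (f : Finset ι → ℂ) :
    ∑ u ∈ z.powerset, (if i ∈ u then 0 else f u) = ∑ u ∈ (z.erase i).powerset, f u := by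
  have h : (z.erase i).powerset = z.powerset.filter fun u => ¬ i ∈ u := by
    ext u
    rw [mem_filter, mem_powerset, mem_powerset, subset_erase]
  rw [h, sum_filter]
  refine sum_congr rfl fun u _ => ?_
  by_cases hi : i ∈ u
  · rw [if_pos hi, if_neg (not_not.2 hi)]
  · rw [if_neg hi, if_pos hi]

theorem sl_set0 (i : ι) (a : Finset ι → V → ℂ) (z : Finset ι) :
    sl (set0 i a) z = sl a (z.erase i) := by
  funext χ
  exact a1_sum i z fun u => a u χ

theorem sl_set1 (i : ι) (a : Finset ι → V → ℂ) (z : Finset ι) :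
    sl (set1 i a) z = sl a (insert i z) := by
  funext χ
  have h1 : insert i z = insert i (z.erase i) := by
    ext j
    rw [mem_insert, mem_insert, mem_erase]
    by_cases h : j = i
    · simp [h]
    · simp [h]
  have h2 : sl (set1 i a) z χ = ∑ u ∈ (z.erase i).powerset, (a u χ + a (insert i u) χ) :=
    a1_sum i z fun u => a u χ + a (insert i u) χ
  rw [h2]
  unfold sl
  rw [h1, Finset.sum_powerset_insert (notMem_erase i z), sum_add_distrib]

theorem sl_mpush (π : V →+ W) (a : Finset ι → V → ℂ) (ξ : AddChar V ℂ) (z : Finset ι) :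
    sl (mpush π a ξ) z = push π (sl a z) ξ := by
  funext q
  unfold sl mpush push
  rw [Finset.sum_comm]
  refine sum_congr rfl fun c _ => ?_
  by_cases h : π c = q
  · rw [if_pos h, Finset.sum_mul]
    exact sum_congr rfl fun u _ => if_pos h
  · rw [if_neg h]
    exact sum_eq_zero fun u _ => if_neg h

theorem mix_set0 {i : ι} {a : Finset ι → V → ℂ} (h : Mix a) : Mix (set0 i a) := by
  intro z
  rw [sl_set0]
  exact h _

theorem mix_set1 {i : ι} {a : Finset ι → V → ℂ} (h : Mix a) : Mix (set1 i a) := by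
  intro z
  rw [sl_set1]
  exact h _

theorem mix_mpush {a : Finset ι → V → ℂ} (h : Mix a) (π : V →+ W) (ξ : AddChar V ℂ) :
    Mix (mpush π a ξ) := by
  intro z
  rw [sl_mpush]
  exact push_bf (h z) π ξ

theorem ev_sl (a : Finset ι → V → ℂ) (z : Finset ι) (ξ : AddChar V ℂ) :
    ev (sl a z) ξ = ∑ u ∈ z.powerset, ev (a u) ξ := by
  unfold ev sl
  rw [Finset.sum_comm]
  exact sum_congr rfl fun c _ => Finset.sum_mul _ _ _

theorem a1_sq {F : V → ℂ} (hF : BF F) (ξ : AddChar V ℂ) : ev F ξ * ev F ξ = 1 := by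
  have h1 : ev F ξ * ev F ξ = ∑ g, (∑ c, F c * F (g - c)) * ξ g := by
    unfold ev
    rw [Finset.sum_mul_sum]
    have h2 : ∀ c, ∑ d, F c * ξ c * (F d * ξ d) = ∑ g, F c * F (g - c) * ξ g := by
      intro c
      refine (Fintype.sum_equiv (Equiv.subRight c) _ _ ?_).symm
      intro g
      simp only [Equiv.subRight_apply]
      have e1 : ξ g = ξ c * ξ (g - c) := by
        rw [← AddChar.map_add_eq_mul, add_sub_cancel]
      rw [e1]
      ring
    rw [sum_congr rfl fun c _ => h2 c, Finset.sum_comm]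
    exact sum_congr rfl fun g _ => (Finset.sum_mul _ _ _).symm
  rw [h1]
  have h3 : ∀ g, (∑ c, F c * F (g - c)) * ξ g = if g = 0 then 1 else 0 := by
    intro g
    rw [hF.conv g]
    by_cases h : g = 0
    · rw [if_pos h, h, AddChar.map_zero_eq_one, mul_one]
    · rw [if_neg h, zero_mul]
  rw [sum_congr rfl fun g _ => h3 g, sum_ite_eq' univ (0 : V), if_pos (mem_univ _)]

theorem ev_mix {a : Finset ι → V → ℂ} (h : Mix a) (z : Finset ι) (ξ : AddChar V ℂ) :
    ev (sl a z) ξ = 1 ∨ ev (sl a z) ξ = -1 :=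
  mul_self_eq_one_iff.1 (a1_sq (h z) ξ)

end Pool.Agent.AGG
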