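import Mathlib
import Pool.Agent.Lib_helper38.AGG.Defs
import Pool.Agent.Lib_helper58.XA.K2a

set_option autoImplicit false

namespace Pool.Agent.AGG

open Finset Pool.Agent.XA Pool.Agent.Lib_helper10.LogRank Pool.Agent.AGG

variable {ι : Type} [Fintype ι] [DecidableEq ι] {V : Type} [AddCommGroup V] [Fintype V]
  [DecidableEq V] {W : Type} [AddCommGroup W] [Fintype W] [DecidableEq W]

theorem nnz_set0 (i : ι) (a : Finset ι → V → ℂ) : nnz (set0 i a) ≤ nnz a := by
  classical
  unfold nnz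
  refine Finset.card_le_card fun p hp => ?_
  rw [Finset.mem_filter] at hp ⊢
  refine ⟨Finset.mem_univ _, fun h0 => hp.2 ?_⟩
  unfold set0
  by_cases h : i ∈ p.1
  · rw [if_pos h]
  · rw [if_neg h, h0]

theorem a2a_set1 {i : ι} {a : Finset ι → V → ℂ} {p : Finset ι × V}
    (h : set1 i a p.1 p.2 ≠ 0) : i ∉ p.1 ∧ (a p.1 p.2 = 0 → a (insert i p.1) p.2 ≠ 0) := by
  unfold set1 at h
  by_cases hi : i ∈ p.1
  · rw [if_pos hi] at h
    exact absurd rfl h
  · rw [if_neg hi] at h
    refine ⟨hi, fun h0 h1 => h ?_⟩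
    rw [h0, h1, add_zero]

theorem nnz_set1 (i : ι) (a : Finset ι → V → ℂ) : nnz (set1 i a) ≤ nnz a := by
  classical
  unfold nnz
  refine Finset.card_le_card_of_injOn
    (fun p : Finset ι × V => if a p.1 p.2 = 0 then (insert i p.1, p.2) else p) ?_ ?_
  · intro p hp
    rw [Finset.mem_coe, Finset.mem_filter] at hp
    have h1 := a2a_set1 hp.2
    rw [Finset.mem_coe, Finset.mem_filter]
    refine ⟨Finset.mem_univ _, ?_⟩
    by_cases h0 : a p.1 p.2 = 0
    · simp only [h0, if_true]
      exact h1.2 h0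
    · simp only [h0, if_false]
      exact h0
  · intro p hp q hq hpq
    rw [Finset.mem_coe, Finset.mem_filter] at hp hq
    have h1 := (a2a_set1 hp.2).1
    have h2 := (a2a_set1 hq.2).1
    by_cases h3 : a p.1 p.2 = 0 <;> by_cases h4 : a q.1 q.2 = 0
    · simp only [h3, h4, if_true, Prod.mk.injEq] at hpq
      refine Prod.ext ?_ hpq.2
      rw [← Finset.erase_insert h1, ← Finset.erase_insert h2, hpq.1]
    · simp only [h3, h4, if_true, if_false] at hpq
      exfalso
      apply h2
      rw [← hpq]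
      exact Finset.mem_insert_self _ _
    · simp only [h3, h4, if_true, if_false] at hpq
      exfalso
      apply h1
      rw [hpq]
      exact Finset.mem_insert_self _ _
    · simp only [h3, h4, if_false] at hpq
      exact hpq

theorem a2a_nnz {G : Type} [AddCommGroup G] [Fintype G] [DecidableEq G] (a : Finset ι → G → ℂ) :
    nnz a = ∑ v : Finset ι, (spt (a v)).card := by
  classical
  unfold nnz spt
  rw [Finset.card_filter, Fintype.sum_prod_type]
  refine Finset.sum_congr rfl fun v _ => ?_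
  rw [Finset.card_filter]

theorem nnz_mpush (π : V →+ W) (a : Finset ι → V → ℂ) (ξ : AddChar V ℂ) :
    nnz (mpush π a ξ) ≤ nnz a := by
  rw [a2a_nnz, a2a_nnz]
  refine Finset.sum_le_sum fun v _ => ?_
  exact push_card (a v) π ξ

theorem mem_chs {a : Finset ι → V → ℂ} {χ : V} : χ ∈ chs a ↔ ∃ u, a u χ ≠ 0 := by
  classical
  unfold chs
  rw [Finset.mem_filter]
  exact ⟨fun h => h.2, fun h => ⟨Finset.mem_univ _, h⟩⟩

theorem card_chs (a : Finset ι → V → ℂ) : (chs a).card ≤ nnz a := by
  classical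
  have h1 : chs a ⊆ (univ.filter fun p : Finset ι × V => a p.1 p.2 ≠ 0).image Prod.snd := by
    intro χ hχ
    obtain ⟨u, hu⟩ := mem_chs.1 hχ
    refine Finset.mem_image.2 ⟨(u, χ), ?_, rfl⟩
    rw [Finset.mem_filter]
    exact ⟨Finset.mem_univ _, hu⟩
  refine ((Finset.card_le_card h1).trans Finset.card_image_le).trans (le_of_eq ?_)
  unfold nnz
  congr

theorem card_ne (a : Finset ι → V → ℂ) (S : Finset (Finset ι)) (hS : ∀ u ∈ S, a u ≠ 0) :
    S.card ≤ nnz a := by
  classical
  have h1 : S ⊆ (univ.filter fun p : Finset ι × V => a p.1 p.2 ≠ 0).image Prod.fst := by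
    intro u hu
    obtain ⟨χ, hχ⟩ := Function.ne_iff.1 (hS u hu)
    refine Finset.mem_image.2 ⟨(u, χ), ?_, rfl⟩
    rw [Finset.mem_filter]
    exact ⟨Finset.mem_univ _, hχ⟩
  refine ((Finset.card_le_card h1).trans Finset.card_image_le).trans (le_of_eq ?_)
  unfold nnz
  congr

theorem spt_sl_sub (a : Finset ι → V → ℂ) (z : Finset ι) : spt (sl a z) ⊆ chs a := by
  classical
  intro χ hχ
  unfold spt at hχ
  rw [Finset.mem_filter] at hχ
  rw [mem_chs]
  unfold sl at hχ
  obtain ⟨u, _, hu⟩ := Finset.exists_ne_zero_of_sum_ne_zero hχ.2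
  exact ⟨u, hu⟩

end Pool.Agent.AGG
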