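import Mathlib
import Pool.Agent.Lib_helper38.AGG.Defs
import Pool.Agent.Lib_helper58.XA.K2a
import Pool.Agent.Lib_helper58.XA.E1g
import Pool.Agent.Lib_helper58.AGG.A1
import Pool.Agent.Lib_helper58.AGG.A2a

set_option autoImplicit false

/-! AGG, part A, block A2b -/

namespace Pool.Agent.AGG

open Finset Pool.Agent.XA Pool.Agent.Lib_helper10.LogRank Pool.Agent.AGG

variable {ι : Type} [Fintype ι] [DecidableEq ι] {V : Type} [AddCommGroup V] [Fintype V]
  [DecidableEq V] {W : Type} [AddCommGroup W] [Fintype W] [DecidableEq W]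

theorem st_set0 {r : ℕ} {i : ι} {a : Finset ι → V → ℂ} (h : St r a) : St r (set0 i a) := by
  refine ⟨mix_set0 h.mix, (nnz_set0 i a).trans h.nz, ?_⟩
  intro u χ hu
  unfold set0 at hu
  split_ifs at hu with h1
  · exact absurd rfl hu
  · exact h.ord u χ hu

theorem st_set1 {r : ℕ} {i : ι} {a : Finset ι → V → ℂ} (h : St r a) : St r (set1 i a) := by
  refine ⟨mix_set1 h.mix, (nnz_set1 i a).trans h.nz, ?_⟩
  intro u χ hu
  unfold set1 at hu
  split_ifs at hu with h1
  · exact absurd rfl hu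
  · by_cases h2 : a u χ = 0
    · rw [h2, zero_add] at hu
      exact h.ord _ χ hu
    · exact h.ord u χ h2

theorem st_mpush {r : ℕ} {a : Finset ι → V → ℂ} (h : St r a) (π : V →+ W) (ξ : AddChar V ℂ) :
    St r (mpush π a ξ) := by
  refine ⟨mix_mpush h.mix π ξ, (nnz_mpush π a ξ).trans h.nz, ?_⟩
  intro u χ hu
  exact push_ord (fun c hc => h.ord u c hc) χ hu

theorem card_Nb {r : ℕ} (hr : 2 ≤ r) {a : Finset ι → V → ℂ} (h : St r a) :
    (Nb a).card ≤ r ^ 3 := by
  have h1 : (Nb a).card + 1 ≤ r ^ 3 + 1 := e1_ncard hr ((card_chs a).trans h.nz)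
  omega

theorem ord_Nb {r : ℕ} (hr : 2 ≤ r) {a : Finset ι → V → ℂ} (h : St r a) :
    ∀ t ∈ Nb a, addOrderOf t ≤ r ^ 6 := by
  intro t ht
  refine e1_ord (S := chs a) hr ?_ ht
  intro c hc
  obtain ⟨u, hu⟩ := mem_chs.1 hc
  exact h.ord u c hu

theorem dif_sub_Nb {a : Finset ι → V → ℂ} {z : Finset ι} {T : Finset V} (h : Dif (sl a z) T) :
    T ⊆ Nb a := by
  refine e1_sub (F := sl a z) (S := chs a) ?_ h
  intro c hc
  apply spt_sl_sub a z
  unfold spt
  rw [Finset.mem_filter]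
  exact ⟨Finset.mem_univ _, hc⟩

end Pool.Agent.AGG
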