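import Mathlib
import Pool.Agent.Lib_helper38.AGG.Defs
import Pool.Agent.Lib_helper58.XA.K2a

set_option autoImplicit false

/-! AGG, block A3a: weights -/

namespace Pool.Agent.AGG

open Finset Pool.Agent.XA Pool.Agent.AGG Pool.Agent.Lib_helper10.LogRank

variable {ι : Type} [Fintype ι] [DecidableEq ι] {V : Type} [AddCommGroup V] [Fintype V]
  [DecidableEq V] {W : Type} [AddCommGroup W] [Fintype W] [DecidableEq W]

theorem wt_mono {N : Finset ι} {a : Finset ι → V → ℂ} {P Q : Finset ι → Prop}
    (h : ∀ v, P v → Q v) : wt N a P ≤ wt N a Q := by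
  classical
  unfold wt
  apply Finset.sum_le_sum_of_subset
  intro p hp
  rw [Finset.mem_filter] at hp ⊢
  exact ⟨hp.1, hp.2.1, hp.2.2.1, h _ hp.2.2.2⟩

/-- the weight is the sum over the monomials without `i` and with `i` -/
theorem a3a_split (N : Finset ι) (i : ι) (a : Finset ι → V → ℂ) :
    wt N a (fun v => i ∉ v) + wt N a (fun v => i ∈ v) = wt N a (fun _ => True) := by
  classical
  unfold wt
  rw [← Finset.sum_union]
  · apply Finset.sum_congr
    · ext p
      simp only [Finset.mem_union, Finset.mem_filter]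
      tauto
    · intro p _
      rfl
  · rw [Finset.disjoint_left]
    intro p hp hp'
    simp only [Finset.mem_filter] at hp hp'
    exact hp.2.2.2 hp'.2.2.2

theorem wt_set0 (N : Finset ι) (i : ι) (a : Finset ι → V → ℂ) :
    wt N (set0 i a) (fun _ => True) + wt N a (fun v => i ∈ v) ≤ wt N a (fun _ => True) := by
  classical
  rw [← a3a_split N i a]
  apply Nat.add_le_add_right
  unfold wt
  apply Finset.sum_le_sum_of_subset
  intro p hp
  simp only [Finset.mem_filter] at hp ⊢
  obtain ⟨h1, h2, h3, _⟩ := hp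
  unfold set0 at h2
  by_cases hi : i ∈ p.1
  · rw [if_pos hi] at h2
    exact absurd rfl h2
  · rw [if_neg hi] at h2
    exact ⟨h1, h2, h3, hi⟩

/-- the monomials after the restriction come from monomials without `i` or with `i` -/
theorem a3a_set1 (N : Finset ι) (i : ι) (a : Finset ι → V → ℂ) (f : Finset ι → ℕ)
    (hf : ∀ u : Finset ι, i ∈ u → 2 ^ (u.erase i ∩ N).card ≤ f u) :
    wt N (set1 i a) (fun _ => True) ≤ wt N a (fun v => i ∉ v) +
      ∑ p : Finset ι × V, (if a p.1 p.2 ≠ 0 ∧ p.1.Nonempty ∧ i ∈ p.1 then f p.1 else 0) := by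
  classical
  have h0 : wt N (set1 i a) (fun _ => True) ≤ wt N a (fun v => i ∉ v) +
      ∑ p ∈ (univ.filter fun p : Finset ι × V => a p.1 p.2 ≠ 0 ∧ p.1.Nonempty ∧ i ∈ p.1).image
        (fun p => (p.1.erase i, p.2)), 2 ^ (p.1 ∩ N).card := by
    unfold wt
    refine le_trans (Finset.sum_le_sum_of_subset (t := (univ.filter fun p : Finset ι × V =>
      a p.1 p.2 ≠ 0 ∧ p.1.Nonempty ∧ i ∉ p.1) ∪
      (univ.filter fun p : Finset ι × V => a p.1 p.2 ≠ 0 ∧ p.1.Nonempty ∧ i ∈ p.1).image
        (fun p => (p.1.erase i, p.2))) ?_) ?_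
    · intro p hp
      simp only [Finset.mem_filter] at hp
      obtain ⟨h1, h2, h3, _⟩ := hp
      unfold set1 at h2
      by_cases hi : i ∈ p.1
      · rw [if_pos hi] at h2
        exact absurd rfl h2
      · rw [if_neg hi] at h2
        rw [Finset.mem_union]
        by_cases h4 : a p.1 p.2 = 0
        · right
          rw [h4, zero_add] at h2
          rw [Finset.mem_image]
          refine ⟨(insert i p.1, p.2), ?_, ?_⟩
          · rw [Finset.mem_filter]
            exact ⟨Finset.mem_univ _, h2, Finset.insert_nonempty _ _,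
              Finset.mem_insert_self _ _⟩
          · show ((insert i p.1).erase i, p.2) = p
            rw [Finset.erase_insert hi]
        · left
          rw [Finset.mem_filter]
          exact ⟨h1, h4, h3, hi⟩
    · have h8 := Finset.sum_union_inter (s₁ := univ.filter fun p : Finset ι × V =>
        a p.1 p.2 ≠ 0 ∧ p.1.Nonempty ∧ i ∉ p.1) (s₂ := (univ.filter fun p : Finset ι × V =>
        a p.1 p.2 ≠ 0 ∧ p.1.Nonempty ∧ i ∈ p.1).image (fun p => (p.1.erase i, p.2)))
        (f := fun p => 2 ^ (p.1 ∩ N).card)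
      have h9 : (∑ p ∈ univ.filter (fun p : Finset ι × V => a p.1 p.2 ≠ 0 ∧ p.1.Nonempty ∧
          i ∉ p.1), 2 ^ (p.1 ∩ N).card) = wt N a (fun v => i ∉ v) := by
        unfold wt
        apply Finset.sum_congr
        · ext p
          simp only [Finset.mem_filter]
        · intro p _
          rfl
      unfold wt at h9
      rw [← h9]
      omega
  refine h0.trans (Nat.add_le_add_left ?_ _)
  rw [Finset.sum_image]
  · rw [Finset.sum_filter]
    apply Finset.sum_le_sum
    intro p _
    by_cases hp : a p.1 p.2 ≠ 0 ∧ p.1.Nonempty ∧ i ∈ p.1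
    · rw [if_pos hp, if_pos hp]
      exact hf p.1 hp.2.2
    · rw [if_neg hp, if_neg hp]
  · intro p hp q hq hpq
    rw [Finset.mem_coe, Finset.mem_filter] at hp hq
    have e1 : p.1.erase i = q.1.erase i := (Prod.mk.inj hpq).1
    have e2 : p.2 = q.2 := (Prod.mk.inj hpq).2
    have e3 : p.1 = q.1 := by
      rw [← Finset.insert_erase hp.2.2.2, e1, Finset.insert_erase hq.2.2.2]
    exact Prod.ext e3 e2

theorem wt_set1 (N : Finset ι) (i : ι) (a : Finset ι → V → ℂ) :
    wt N (set1 i a) (fun _ => True) ≤ wt N a (fun _ => True) := by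
  classical
  refine (a3a_set1 N i a (fun u => 2 ^ (u ∩ N).card) ?_).trans ?_
  · intro u _
    apply Nat.pow_le_pow_right (by norm_num)
    apply Finset.card_le_card
    exact Finset.inter_subset_inter_right (Finset.erase_subset _ _)
  · rw [← a3a_split N i a]
    apply Nat.add_le_add_left
    unfold wt
    rw [Finset.sum_filter]
    apply Finset.sum_le_sum
    intro p _
    by_cases hp : a p.1 p.2 ≠ 0 ∧ p.1.Nonempty ∧ i ∈ p.1
    · rw [if_pos hp, if_pos hp]
    · rw [if_neg hp, if_neg hp]

theorem wt_set1_mem {N : Finset ι} {i : ι} (hi : i ∈ N) (a : Finset ι → V → ℂ) :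
    2 * wt N (set1 i a) (fun _ => True) + wt N a (fun v => i ∈ v) ≤
      2 * wt N a (fun _ => True) := by
  classical
  have h1 := a3a_set1 N i a (fun u => 2 ^ (u.erase i ∩ N).card) (fun u _ => le_refl _)
  have h2 : 2 * ∑ p : Finset ι × V, (if a p.1 p.2 ≠ 0 ∧ p.1.Nonempty ∧ i ∈ p.1 then
      2 ^ (p.1.erase i ∩ N).card else 0) = wt N a (fun v => i ∈ v) := by
    unfold wt
    rw [Finset.sum_filter, Finset.mul_sum]
    apply Finset.sum_congr rfl
    intro p _
    by_cases hp : a p.1 p.2 ≠ 0 ∧ p.1.Nonempty ∧ i ∈ p.1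
    · rw [if_pos hp, if_pos hp]
      have h3 : p.1 ∩ N = insert i (p.1.erase i ∩ N) := by
        ext j
        rw [Finset.mem_insert, Finset.mem_inter, Finset.mem_inter, Finset.mem_erase]
        constructor
        · intro h
          by_cases hj : j = i
          · left
            exact hj
          · right
            exact ⟨⟨hj, h.1⟩, h.2⟩
        · rintro (h | h)
          · rw [h]
            exact ⟨hp.2.2, hi⟩
          · exact ⟨h.1.2, h.2⟩
      have h4 : i ∉ p.1.erase i ∩ N := by
        rw [Finset.mem_inter, Finset.mem_erase]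
        rintro ⟨⟨h, _⟩, _⟩
        exact h rfl
      rw [h3, Finset.card_insert_of_notMem h4, pow_succ, mul_comm]
    · rw [if_neg hp, if_neg hp, mul_zero]
  have h5 := a3a_split N i a
  omega

end Pool.Agent.AGG
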