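import Mathlib
import Pool.Agent.Lib_helper38.AGG.Defs
import Pool.Agent.Lib_helper58.XA.K2a

set_option autoImplicit false

/-! AGG, block A3b: weights and active coordinates -/

namespace Pool.Agent.AGG

open Finset Pool.Agent.XA Pool.Agent.Lib_helper10.LogRank Pool.Agent.AGG

variable {ι : Type} [Fintype ι] [DecidableEq ι] {V : Type} [AddCommGroup V] [Fintype V]
  [DecidableEq V] {W : Type} [AddCommGroup W] [Fintype W] [DecidableEq W]

open Classical in
theorem a3b_wt_eq (N : Finset ι) (a : Finset ι → V → ℂ) (P : Finset ι → Prop) :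
    wt N a P = ∑ v : Finset ι,
      if v.Nonempty ∧ P v then (spt (a v)).card * 2 ^ (v ∩ N).card else 0 := by
  unfold wt
  rw [Finset.sum_filter, ← Finset.univ_product_univ, Finset.sum_product]
  refine Finset.sum_congr rfl fun v _ => ?_
  by_cases h : v.Nonempty ∧ P v
  · rw [if_pos h]
    unfold spt
    rw [Finset.card_eq_sum_ones, Finset.sum_mul, Finset.sum_filter]
    refine Finset.sum_congr rfl fun χ _ => ?_
    by_cases h0 : a v χ ≠ 0
    · rw [if_pos h0, if_pos ⟨h0, h.1, h.2⟩, one_mul]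
    · rw [if_neg h0, if_neg (fun h' => h0 h'.1)]
  · rw [if_neg h]
    refine Finset.sum_eq_zero fun χ _ => ?_
    rw [if_neg]
    exact fun h' => h h'.2

theorem a3b_wt_zero (N : Finset ι) (a : Finset ι → V → ℂ) (P : Finset ι → Prop)
    (h : wt N a P = 0) (v : Finset ι) (hv : v.Nonempty) (hP : P v) : a v = 0 := by
  classical
  unfold wt at h
  rw [Finset.sum_eq_zero_iff] at h
  funext χ
  by_contra hc
  have h1 := h (v, χ) (by
    rw [Finset.mem_filter]
    exact ⟨Finset.mem_univ _, hc, hv, hP⟩)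
  exact absurd h1 (pow_ne_zero _ two_ne_zero)

theorem a3b_wt_pos (N : Finset ι) (a : Finset ι → V → ℂ) (P : Finset ι → Prop)
    (h : 0 < wt N a P) : ∃ v χ, a v χ ≠ 0 ∧ P v := by
  classical
  unfold wt at h
  obtain ⟨p, hp, -⟩ := Finset.exists_ne_zero_of_sum_ne_zero h.ne'
  rw [Finset.mem_filter] at hp
  exact ⟨p.1, p.2, hp.2.1, hp.2.2.2⟩

theorem a3b_wt_union (N : Finset ι) (a : Finset ι → V → ℂ) (P : Finset ι → Prop)
    (H : Finset ι) (Q : ι → Finset ι → Prop)
    (h : ∀ v : Finset ι, v.Nonempty → P v → ∃ i ∈ H, Q i v) :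
    wt N a P ≤ ∑ i ∈ H, wt N a (Q i) := by
  classical
  rw [Finset.sum_congr rfl fun i _ => a3b_wt_eq N a (Q i), a3b_wt_eq, Finset.sum_comm]
  refine Finset.sum_le_sum fun v _ => ?_
  by_cases hv : v.Nonempty ∧ P v
  · obtain ⟨i, hi, hiv⟩ := h v hv.1 hv.2
    rw [if_pos hv]
    refine le_trans ?_ (Finset.single_le_sum
      (f := fun i => if v.Nonempty ∧ Q i v then (spt (a v)).card * 2 ^ (v ∩ N).card else 0)
      (fun _ _ => Nat.zero_le _) hi)
    rw [if_pos ⟨hv.1, hiv⟩]
  · rw [if_neg hv]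
    exact Nat.zero_le _

theorem wt_mpush (N : Finset ι) (π : V →+ W) (a : Finset ι → V → ℂ) (ξ : AddChar V ℂ) :
    wt N (mpush π a ξ) (fun _ => True) ≤ wt N a (fun v => mpush π a ξ v ≠ 0) := by
  classical
  rw [a3b_wt_eq, a3b_wt_eq]
  refine Finset.sum_le_sum fun v _ => ?_
  by_cases hv : v.Nonempty
  · rw [if_pos ⟨hv, trivial⟩]
    by_cases h0 : mpush π a ξ v = 0
    · rw [h0]
      have h1 : spt (0 : W → ℂ) = ∅ := by
        unfold spt
        rw [Finset.filter_eq_empty_iff]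
        intro x _ hx
        exact hx rfl
      rw [h1, Finset.card_empty, Nat.zero_mul]
      exact Nat.zero_le _
    · rw [if_pos ⟨hv, h0⟩]
      exact Nat.mul_le_mul_right _ (push_card _ _ _)
  · rw [if_neg (fun h => hv h.1)]
    exact Nat.zero_le _

theorem wt_hit (N : Finset ι) (a : Finset ι → V → ℂ) (P : Finset ι → Prop) (H : Finset ι)
    (h : ∀ v : Finset ι, v.Nonempty → P v → ∃ i ∈ H, i ∈ v) :
    wt N a P ≤ ∑ i ∈ H, wt N a (fun v => i ∈ v) :=
  a3b_wt_union N a P H (fun i v => i ∈ v) h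

theorem wt_zero {N : Finset ι} {a : Finset ι → V → ℂ} (h : wt N a (fun _ => True) = 0)
    (v : Finset ι) (hv : v.Nonempty) : a v = 0 :=
  a3b_wt_zero N a (fun _ => True) h v hv trivial

theorem act_of_wt {N : Finset ι} {a : Finset ι → V → ℂ} {i : ι}
    (h : 0 < wt N a (fun v => i ∈ v)) : i ∈ act a := by
  classical
  obtain ⟨v, χ, h1, h2⟩ := a3b_wt_pos N a (fun v => i ∈ v) h
  unfold act
  rw [Finset.mem_filter]
  exact ⟨Finset.mem_univ _, v, χ, h2, h1⟩

theorem act_set0 (i : ι) (a : Finset ι → V → ℂ) : act (set0 i a) ⊆ (act a).erase i := by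
  classical
  intro j hj
  unfold act at hj
  rw [Finset.mem_filter] at hj
  obtain ⟨-, v, χ, hjv, hne⟩ := hj
  unfold set0 at hne
  by_cases hi : i ∈ v
  · rw [if_pos hi] at hne
    exact absurd rfl hne
  · rw [if_neg hi] at hne
    rw [Finset.mem_erase]
    refine ⟨fun h => hi (h ▸ hjv), ?_⟩
    unfold act
    rw [Finset.mem_filter]
    exact ⟨Finset.mem_univ _, v, χ, hjv, hne⟩

theorem act_set1 (i : ι) (a : Finset ι → V → ℂ) : act (set1 i a) ⊆ (act a).erase i := by
  classical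
  intro j hj
  unfold act at hj
  rw [Finset.mem_filter] at hj
  obtain ⟨-, v, χ, hjv, hne⟩ := hj
  unfold set1 at hne
  by_cases hi : i ∈ v
  · rw [if_pos hi] at hne
    exact absurd rfl hne
  · rw [if_neg hi] at hne
    rw [Finset.mem_erase]
    refine ⟨fun h => hi (h ▸ hjv), ?_⟩
    unfold act
    rw [Finset.mem_filter]
    refine ⟨Finset.mem_univ _, ?_⟩
    by_cases h1 : a v χ = 0
    · refine ⟨insert i v, χ, Finset.mem_insert_of_mem hjv, fun h2 => hne ?_⟩
      rw [h1, h2, add_zero]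
    · exact ⟨v, χ, hjv, h1⟩

theorem act_mpush (π : V →+ W) (a : Finset ι → V → ℂ) (ξ : AddChar V ℂ) :
    act (mpush π a ξ) ⊆ act a := by
  classical
  intro j hj
  unfold act at hj
  rw [Finset.mem_filter] at hj
  obtain ⟨-, v, q, hjv, hne⟩ := hj
  obtain ⟨c, hc, -⟩ := push_ne hne
  unfold act
  rw [Finset.mem_filter]
  exact ⟨Finset.mem_univ _, v, c, hjv, hc⟩

end Pool.Agent.AGG
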