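import Mathlib
import Pool.Agent.Lib_helper38.AGG.Defs

set_option autoImplicit false

/-! AGG, block B1: cosets -/

namespace Pool.Agent.AGG

open Finset Pool.Agent.XA Pool.Agent.Lib_helper10.LogRank Pool.Agent.AGG

variable {ι : Type} [Fintype ι] [DecidableEq ι] {V : Type} [AddCommGroup V] [Fintype V]
  [DecidableEq V] {W : Type} [AddCommGroup W] [Fintype W] [DecidableEq W]

theorem mem_Cos {T : Finset V} {ξ ζ : AddChar V ℂ} : ζ ∈ Cos T ξ ↔ ∀ t ∈ T, ζ t = ξ t := by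
  unfold Cos
  rw [mem_filter]
  exact ⟨fun h => h.2, fun h => ⟨mem_univ _, h⟩⟩

theorem Cos_eq {T : Finset V} {ξ ζ : AddChar V ℂ} (h : ζ ∈ Cos T ξ) : Cos T ζ = Cos T ξ := by
  rw [mem_Cos] at h
  ext θ
  rw [mem_Cos, mem_Cos]
  constructor
  · intro hθ t ht
    rw [hθ t ht, h t ht]
  · intro hθ t ht
    rw [hθ t ht, h t ht]

theorem Cos_empty (ξ : AddChar V ℂ) : Cos (∅ : Finset V) ξ = univ := by
  ext θ
  rw [mem_Cos]
  constructor
  · intro _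
    exact mem_univ _
  · intro _ t ht
    exact absurd ht (notMem_empty t)

theorem Cos_inter {T T' : Finset V} {ξ ξ' ζ : AddChar V ℂ} (h : ζ ∈ Cos T ξ) (h' : ζ ∈ Cos T' ξ') :
    Cos T ξ ∩ Cos T' ξ' = Cos (T ∪ T') ζ := by
  rw [← Cos_eq h, ← Cos_eq h']
  ext θ
  rw [mem_inter, mem_Cos, mem_Cos, mem_Cos]
  constructor
  · rintro ⟨h1, h2⟩ t ht
    rcases mem_union.1 ht with h3 | h3
    · exact h1 t h3
    · exact h2 t h3
  · intro h1
    exact ⟨fun t ht => h1 t (mem_union_left _ ht), fun t ht => h1 t (mem_union_right _ ht)⟩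

theorem Cos_mono {T T' : Finset V} (h : T ⊆ T') (ξ : AddChar V ℂ) : Cos T' ξ ⊆ Cos T ξ := by
  intro θ hθ
  rw [mem_Cos] at hθ ⊢
  exact fun t ht => hθ t (h ht)

theorem Cos_mul {T : Finset V} {ξ ξ' η η' : AddChar V ℂ} (h : ξ' ∈ Cos T ξ) (h' : η' ∈ Cos T η) :
    ξ' * η' ∈ Cos T (ξ * η) := by
  rw [mem_Cos] at h h' ⊢
  intro t ht
  rw [AddChar.mul_apply, AddChar.mul_apply, h t ht, h' t ht]

theorem card_Cos (T : Finset V) (ξ : AddChar V ℂ) : (Cos T ξ).card = (Cos T 1).card := by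
  symm
  refine card_bij (fun θ _ => ξ * θ) ?_ ?_ ?_
  · intro θ hθ
    rw [mem_Cos] at hθ ⊢
    intro t ht
    rw [AddChar.mul_apply, hθ t ht, AddChar.one_apply, mul_one]
  · intro a _ b _ hab
    exact mul_left_cancel hab
  · intro θ hθ
    refine ⟨ξ⁻¹ * θ, ?_, mul_inv_cancel_left ξ θ⟩
    rw [mem_Cos] at hθ ⊢
    intro t ht
    have h1 : (ξ⁻¹ * ξ) t = (1 : AddChar V ℂ) t := by rw [inv_mul_cancel]
    rw [AddChar.mul_apply] at h1
    rw [AddChar.mul_apply, hθ t ht, h1]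

theorem card_Cos_pos (T : Finset V) (ξ : AddChar V ℂ) : 0 < (Cos T ξ).card :=
  card_pos.2 ⟨ξ, mem_Cos.2 fun _ _ => rfl⟩

end Pool.Agent.AGG
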