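import Mathlib
import Pool.Agent.Lib_helper38.AGG.Defs
import Pool.Agent.Lib_helper58.XA.E1g
import Pool.Agent.Lib_helper58.XA.K2a
import Pool.Agent.Lib_helper16.XA.K2c
import Pool.Agent.Lib_helper67.XA.K5
import Pool.Agent.Lib_helper58.AGG.B1

set_option autoImplicit false

/-! AGG, block B2 -/

namespace Pool.Agent.AGG

open Finset Pool.Agent.AGG Pool.Agent.XA Pool.Agent.Lib_helper10.LogRank

variable {V : Type} [AddCommGroup V] [Fintype V] [DecidableEq V]

/-- the restriction to the subgroup generated by `T` -/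
noncomputable def b2_res (T : Finset V) (χ : AddChar V ℂ) :
    AddChar (AddSubgroup.closure (T : Set V)) ℂ :=
  χ.compAddMonoidHom (AddSubgroup.closure (T : Set V)).subtype

theorem b2_res_eq {T : Finset V} {χ χ' : AddChar V ℂ} (h : b2_res T χ = b2_res T χ') :
    ∀ t ∈ T, χ t = χ' t := by
  intro t ht
  have h1 := DFunLike.congr_fun h ⟨t, AddSubgroup.subset_closure (Finset.mem_coe.2 ht)⟩
  exact h1

theorem b2_card {B : ℕ} (T : Finset V) (hB : ∀ t ∈ T, addOrderOf t ≤ B) :
    Nat.card (AddChar (AddSubgroup.closure (T : Set V)) ℂ) ≤ B ^ T.card := by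
  classical
  have h1 : Nat.card (AddChar (AddSubgroup.closure (T : Set V)) ℂ) =
      Nat.card (AddSubgroup.closure (T : Set V)) := by
    have : Fintype (AddSubgroup.closure (T : Set V)) := Fintype.ofFinite _
    rw [Nat.card_eq_fintype_card, Nat.card_eq_fintype_card, AddChar.card_eq]
  rw [h1]
  exact e1_closure T hB

theorem card_Cos_le {B : ℕ} (T T' : Finset V) (hB : ∀ t ∈ T', addOrderOf t ≤ B) :
    (Cos T 1).card ≤ B ^ T'.card * (Cos (T ∪ T') 1).card := by
  classical
  have h1 : (Cos T 1).card ≤ (Cos (T ∪ T') 1).card * ((Cos T 1).image (b2_res T')).card := by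
    apply Finset.card_le_mul_card_image
    intro ψ hψ
    obtain ⟨χ, hχ, rfl⟩ := Finset.mem_image.1 hψ
    rw [← card_Cos (T ∪ T') χ]
    apply Finset.card_le_card
    intro χ' hχ'
    obtain ⟨h2, h3⟩ := Finset.mem_filter.1 hχ'
    rw [mem_Cos] at hχ h2 ⊢
    intro t ht
    rcases Finset.mem_union.1 ht with ht | ht
    · rw [h2 t ht, hχ t ht]
    · exact b2_res_eq h3 t ht
  have h2 : ((Cos T 1).image (b2_res T')).card ≤ B ^ T'.card := by
    refine le_trans ?_ (b2_card T' hB)
    rw [Nat.card_eq_fintype_card]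
    exact Finset.card_le_univ _
  calc (Cos T 1).card ≤ (Cos (T ∪ T') 1).card * ((Cos T 1).image (b2_res T')).card := h1
    _ ≤ (Cos (T ∪ T') 1).card * B ^ T'.card := Nat.mul_le_mul_left _ h2
    _ = B ^ T'.card * (Cos (T ∪ T') 1).card := Nat.mul_comm _ _

theorem card_cosets {B : ℕ} (T : Finset V) (hB : ∀ t ∈ T, addOrderOf t ≤ B)
    (S : Finset (Finset (AddChar V ℂ))) (hS : ∀ W ∈ S, ∃ ξ, W = Cos T ξ) :
    S.card ≤ B ^ T.card := by
  classical
  have hS' : ∀ W : Finset (AddChar V ℂ), ∃ ξ, W ∈ S → W = Cos T ξ := by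
    intro W
    by_cases h : W ∈ S
    · obtain ⟨ξ, hξ⟩ := hS W h
      exact ⟨ξ, fun _ => hξ⟩
    · exact ⟨1, fun h' => absurd h' h⟩
  choose f hf using hS'
  have h1 : S.card = (S.image fun W => b2_res T (f W)).card := by
    rw [Finset.card_image_of_injOn]
    intro W hW W' hW' h
    have h2 := b2_res_eq h
    have h3 : f W ∈ Cos T (f W') := mem_Cos.2 h2
    rw [hf W hW, hf W' hW', Cos_eq h3]
  rw [h1]
  refine le_trans ?_ (b2_card T hB)
  rw [Nat.card_eq_fintype_card]
  exact Finset.card_le_univ _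

theorem om_univ_le {B : ℕ} (T : Finset V) (hB : ∀ t ∈ T, addOrderOf t ≤ B) (ξ : AddChar V ℂ) :
    om univ (Cos T ξ) ≤ (B : ℝ) ^ T.card := by
  classical
  have h0 : 0 < (Cos T ξ).card := card_Cos_pos T ξ
  have h1 : (univ : Finset (AddChar V ℂ)).card ≤ B ^ T.card * (Cos T ξ).card := by
    have h2 := card_Cos_le ∅ T hB
    rw [Cos_empty, Finset.empty_union] at h2
    rw [card_Cos T ξ]
    exact h2
  unfold om
  rw [div_le_iff₀]
  · have h3 : ((univ : Finset (AddChar V ℂ)) ∩ Cos T ξ) = Cos T ξ := Finset.univ_inter _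
    have h4 : (((univ : Finset (AddChar V ℂ)).card : ℕ) : ℝ) ≤
        ((B ^ T.card * (Cos T ξ).card : ℕ) : ℝ) := by exact_mod_cast h1
    rw [h3]
    push_cast at h4
    exact h4
  · have h3 : ((univ : Finset (AddChar V ℂ)) ∩ Cos T ξ) = Cos T ξ := Finset.univ_inter _
    rw [h3]
    exact_mod_cast h0

end Pool.Agent.AGG
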