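import Mathlib
import Pool.Agent.Lib_helper38.AGG.Defs
import Pool.Agent.Lib_helper58.XA.K2a
import Pool.Agent.Lib_helper16.XA.K2c
import Pool.Agent.Lib_helper67.XA.K5
import Pool.Agent.Lib_helper58.AGG.B1

set_option autoImplicit false

/-! AGG, block B3: the index of a coset in a coset -/

namespace Pool.Agent.AGG

open Finset Pool.Agent.XA Pool.Agent.Lib_helper10.LogRank Pool.Agent.AGG

variable {ι : Type} [Fintype ι] [DecidableEq ι] {V : Type} [AddCommGroup V] [Fintype V]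
  [DecidableEq V] {W : Type} [AddCommGroup W] [Fintype W] [DecidableEq W]

theorem om_nonneg (W₁ W₂ : Finset (AddChar V ℂ)) : 0 ≤ om W₁ W₂ := by
  unfold om; positivity

theorem one_le_om {W₁ W₂ : Finset (AddChar V ℂ)} {ζ : AddChar V ℂ} (h₁ : ζ ∈ W₁) (h₂ : ζ ∈ W₂) :
    1 ≤ om W₁ W₂ := by
  classical
  unfold om
  have hz : ζ ∈ W₁ ∩ W₂ := Finset.mem_inter.mpr ⟨h₁, h₂⟩
  have hpos : 0 < (W₁ ∩ W₂).card := Finset.card_pos.mpr ⟨ζ, hz⟩
  have hpos' : (0 : ℝ) < ((W₁ ∩ W₂).card : ℝ) := by exact_mod_cast hpos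
  rw [le_div_iff₀ hpos', one_mul]
  exact_mod_cast Finset.card_le_card Finset.inter_subset_left

/-- the annihilator of `T` -/
def b3_G (T : Finset V) : Subgroup (AddChar V ℂ) where
  carrier := {ζ | ∀ t ∈ T, ζ t = 1}
  mul_mem' := by
    intro a b ha hb t ht
    rw [AddChar.mul_apply, ha t ht, hb t ht, one_mul]
  one_mem' := by
    intro t _
    rw [AddChar.one_apply]
  inv_mem' := by
    intro a ha t ht
    have h2 : a t * a⁻¹ t = 1 := by
      rw [← AddChar.mul_apply, mul_inv_cancel, AddChar.one_apply]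
    rw [ha t ht, one_mul] at h2
    exact h2

theorem b3_mem_G {T : Finset V} {ζ : AddChar V ℂ} : ζ ∈ b3_G T ↔ ∀ t ∈ T, ζ t = 1 := Iff.rfl

theorem b3_card (T : Finset V) : (Cos T 1).card = Nat.card (b3_G T) := by
  classical
  rw [Nat.card_eq_fintype_card, Fintype.card_subtype]
  apply congrArg Finset.card
  ext ζ
  rw [mem_Cos, Finset.mem_filter]
  constructor
  · intro h
    refine ⟨Finset.mem_univ _, fun t ht => ?_⟩
    rw [h t ht, AddChar.one_apply]
  · rintro ⟨_, h⟩ t ht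
    rw [AddChar.one_apply]
    exact h t ht

theorem b3_inf (T T' : Finset V) : b3_G T ⊓ b3_G T' = b3_G (T ∪ T') := by
  ext ζ
  rw [Subgroup.mem_inf, b3_mem_G, b3_mem_G, b3_mem_G]
  constructor
  · rintro ⟨h, h'⟩ t ht
    rcases Finset.mem_union.mp ht with ht | ht
    · exact h t ht
    · exact h' t ht
  · intro h
    exact ⟨fun t ht => h t (Finset.mem_union_left _ ht), fun t ht => h t (Finset.mem_union_right _ ht)⟩

theorem b3_mono {T T' : Finset V} (h : T ⊆ T') : b3_G T' ≤ b3_G T :=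
  fun _ hz t ht => hz t (h ht)

theorem b3_rel {G : Type} [Group G] {A B : Subgroup G} (h : A ≤ B) :
    Nat.card A * A.relIndex B = Nat.card B := by
  have := Subgroup.relIndex_mul_relIndex ⊥ A B bot_le h
  rwa [Subgroup.relIndex_bot_left, Subgroup.relIndex_bot_left] at this

theorem b3_prod {G : Type} [CommGroup G] [Finite G] (A B : Subgroup G) :
    Nat.card A * Nat.card B = Nat.card (A ⊔ B : Subgroup G) * Nat.card (A ⊓ B : Subgroup G) := by
  have h1 : (A ⊓ B).relIndex A * Nat.card (A ⊓ B : Subgroup G) = Nat.card A := by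
    rw [mul_comm]; exact b3_rel inf_le_left
  have h2 : B.relIndex (A ⊔ B) * Nat.card B = Nat.card (A ⊔ B : Subgroup G) := by
    rw [mul_comm]; exact b3_rel le_sup_right
  rw [Subgroup.relIndex_sup_right] at h2
  rw [Subgroup.inf_relIndex_left] at h1
  rw [← h1, ← h2]; ring

/-- a point of the quotient of two points of a coset -/
theorem b3_div {T : Finset V} {ξ ζ ζ' : AddChar V ℂ} (h : ζ ∈ Cos T ξ) (h' : ζ' ∈ Cos T ξ) :
    ζ' * ζ⁻¹ ∈ b3_G T := by
  intro t ht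
  have e1 : ζ t = ξ t := mem_Cos.mp h t ht
  have e2 : ζ' t = ξ t := mem_Cos.mp h' t ht
  have e3 : ζ t * ζ⁻¹ t = 1 := by
    rw [← AddChar.mul_apply, mul_inv_cancel, AddChar.one_apply]
  rw [AddChar.mul_apply, e2, ← e1, e3]

theorem b3_mul_mem {T : Finset V} {g ζ : AddChar V ℂ} (h : g ∈ b3_G T) : g * ζ ∈ Cos T ζ := by
  rw [mem_Cos]
  intro t ht
  rw [AddChar.mul_apply, b3_mem_G.mp h t ht, one_mul]

theorem b3_le (T T' T'' : Finset V) :
    (Cos (T ∪ T') 1).card * (Cos (T ∪ T'') 1).card ≤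
      (Cos T 1).card * (Cos (T ∪ T' ∪ T'') 1).card := by
  rw [b3_card, b3_card, b3_card, b3_card, b3_prod, b3_inf]
  have e : T ∪ T' ∪ (T ∪ T'') = T ∪ T' ∪ T'' := by
    ext x; simp only [Finset.mem_union]; tauto
  rw [e]
  apply Nat.mul_le_mul_right
  apply Subgroup.card_le_of_le
  exact sup_le (b3_mono Finset.subset_union_left) (b3_mono Finset.subset_union_left)

theorem b3_half {T T' T'' : Finset V} {z ζ' : AddChar V ℂ} (h' : ζ' ∈ Cos T z)
    (hd : Cos (T ∪ T') ζ' ∩ Cos T'' z = ∅) :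
    2 * ((Cos (T ∪ T') 1).card * (Cos (T ∪ T'') 1).card) ≤
      (Cos T 1).card * (Cos (T ∪ T' ∪ T'') 1).card := by
  rw [b3_card, b3_card, b3_card, b3_card, b3_prod, b3_inf]
  have e : T ∪ T' ∪ (T ∪ T'') = T ∪ T' ∪ T'' := by
    ext x; simp only [Finset.mem_union]; tauto
  rw [e, ← mul_assoc]
  apply Nat.mul_le_mul_right
  have hle : b3_G (T ∪ T') ⊔ b3_G (T ∪ T'') ≤ b3_G T :=
    sup_le (b3_mono Finset.subset_union_left) (b3_mono Finset.subset_union_left)
  have hmul := b3_rel hle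
  have hne : (b3_G (T ∪ T') ⊔ b3_G (T ∪ T'')).relIndex (b3_G T) ≠ 1 := by
    intro h1
    rw [Subgroup.relIndex_eq_one] at h1
    have hz : z ∈ Cos T z := mem_Cos.mpr fun _ _ => rfl
    have hq := h1 (b3_div hz h')
    obtain ⟨a, ha, b, hb, hab⟩ := Subgroup.mem_sup.mp hq
    have key : a⁻¹ * ζ' = b * z := by
      have : ζ' = a * b * z := by rw [hab]; group
      rw [this]; group
    have m1 : a⁻¹ * ζ' ∈ Cos (T ∪ T') ζ' := b3_mul_mem ((b3_G _).inv_mem ha)
    have m2 : a⁻¹ * ζ' ∈ Cos T'' z := by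
      rw [key]
      exact b3_mul_mem (b3_mono Finset.subset_union_right hb)
    have : a⁻¹ * ζ' ∈ Cos (T ∪ T') ζ' ∩ Cos T'' z := Finset.mem_inter.mpr ⟨m1, m2⟩
    rw [hd] at this
    exact absurd this (Finset.notMem_empty _)
  have hn0 : (b3_G (T ∪ T') ⊔ b3_G (T ∪ T'')).relIndex (b3_G T) ≠ 0 := by
    intro h0
    rw [h0, mul_zero] at hmul
    exact (Nat.card_pos (α := b3_G T)).ne hmul
  rw [← hmul, mul_comm 2]
  exact Nat.mul_le_mul_left _ (by omega)

/-- the index in the nonempty case -/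
theorem b3_om {T T'' : Finset V} {ξ ξ'' z : AddChar V ℂ} (h : z ∈ Cos T ξ) (h' : z ∈ Cos T'' ξ'') :
    om (Cos T ξ) (Cos T'' ξ'') = ((Cos T 1).card : ℝ) / ((Cos (T ∪ T'') 1).card : ℝ) := by
  unfold om
  rw [Cos_inter h h', card_Cos, card_Cos (T ∪ T'')]

theorem om_le {T T' T'' : Finset V} {ξ ζ ξ'' : AddChar V ℂ} (h : ζ ∈ Cos T ξ) :
    om (Cos (T ∪ T') ζ) (Cos T'' ξ'') ≤ om (Cos T ξ) (Cos T'' ξ'') := by
  classical
  rcases Finset.eq_empty_or_nonempty (Cos (T ∪ T') ζ ∩ Cos T'' ξ'') with he | ⟨z, hz⟩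
  · have : om (Cos (T ∪ T') ζ) (Cos T'' ξ'') = 0 := by unfold om; rw [he]; simp
    rw [this]; exact om_nonneg _ _
  · obtain ⟨h1, h2⟩ := Finset.mem_inter.mp hz
    have h3 : z ∈ Cos T ξ := by
      rw [← Cos_eq h]; exact Cos_mono Finset.subset_union_left ζ h1
    rw [b3_om h1 h2, b3_om h3 h2]
    have p1 : (0 : ℝ) < ((Cos (T ∪ T' ∪ T'') (1 : AddChar V ℂ)).card : ℝ) := by
      exact_mod_cast card_Cos_pos _ _
    have p2 : (0 : ℝ) < ((Cos (T ∪ T'') (1 : AddChar V ℂ)).card : ℝ) := by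
      exact_mod_cast card_Cos_pos _ _
    rw [div_le_div_iff₀ p1 p2]
    exact_mod_cast b3_le T T' T''

theorem om_half {T T' T'' : Finset V} {ξ ζ ζ' ξ'' : AddChar V ℂ} (h : ζ ∈ Cos T ξ)
    (h' : ζ' ∈ Cos T ξ) (hd : Cos (T ∪ T') ζ' ∩ Cos T'' ξ'' = ∅) :
    2 * om (Cos (T ∪ T') ζ) (Cos T'' ξ'') ≤ om (Cos T ξ) (Cos T'' ξ'') := by
  classical
  rcases Finset.eq_empty_or_nonempty (Cos (T ∪ T') ζ ∩ Cos T'' ξ'') with he | ⟨z, hz⟩
  · have : om (Cos (T ∪ T') ζ) (Cos T'' ξ'') = 0 := by unfold om; rw [he]; simp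
    rw [this, mul_zero]; exact om_nonneg _ _
  · obtain ⟨h1, h2⟩ := Finset.mem_inter.mp hz
    have h3 : z ∈ Cos T ξ := by
      rw [← Cos_eq h]; exact Cos_mono Finset.subset_union_left ζ h1
    rw [b3_om h1 h2, b3_om h3 h2]
    have p1 : (0 : ℝ) < ((Cos (T ∪ T' ∪ T'') (1 : AddChar V ℂ)).card : ℝ) := by
      exact_mod_cast card_Cos_pos _ _
    have p2 : (0 : ℝ) < ((Cos (T ∪ T'') (1 : AddChar V ℂ)).card : ℝ) := by
      exact_mod_cast card_Cos_pos _ _
    rw [← mul_div_assoc, div_le_div_iff₀ p1 p2]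
    have h4 : ζ' ∈ Cos T z := by rw [Cos_eq h3]; exact h'
    have h5 : Cos (T ∪ T') ζ' ∩ Cos T'' z = ∅ := by rw [Cos_eq h2]; exact hd
    have := b3_half (T := T) (T' := T') (T'' := T'') h4 h5
    rw [← mul_assoc] at this
    exact_mod_cast this

example : type_of% @Pool.Agent.AGG.om_nonneg := @om_nonneg
example : type_of% @Pool.Agent.AGG.one_le_om := @one_le_om
example : type_of% @Pool.Agent.AGG.om_le := @om_le
example : type_of% @Pool.Agent.AGG.om_half := @om_half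

end Pool.Agent.AGG
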