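import Mathlib
import Pool.Agent.Lib_helper38.AGG.Defs
import Pool.Agent.Lib_helper58.XA.K2a
import Pool.Agent.Lib_helper16.XA.K2c
import Pool.Agent.Lib_helper58.XA.E1g
import Pool.Agent.Lib_helper30.XA.E2
import Pool.Agent.Lib_helper67.XA.K5
import Pool.Agent.Lib_helper58.AGG.B1

set_option autoImplicit false

/-! AGG, block C1: cert_exists -/

namespace Pool.Agent.AGG

open Finset Pool.Agent.AGG Pool.Agent.XA Pool.Agent.Lib_helper10.LogRank

/-- the induction -/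
theorem c1_rec {r D : ℕ}
    (hk : ∀ (V : Type) [AddCommGroup V] [Fintype V] [DecidableEq V] (F : V → ℂ),
      BF F → (spt F).card ≤ r → (∀ c, F c ≠ 0 → addOrderOf c ≤ r ^ 3) →
      ∃ T : Finset V, T.card ≤ D ∧ Dif F T ∧ Kills F T) (m : ℕ) :
    ∀ (V : Type) [AddCommGroup V] [Fintype V] [DecidableEq V] (F : V → ℂ),
      BF F → (spt F).card ≤ r → (∀ c, F c ≠ 0 → addOrderOf c ≤ r ^ 3) →
      ((spt F).erase 0).card < 2 ^ m → ∀ ξ : AddChar V ℂ,
      ∃ T : Finset V, T.card ≤ m * D ∧ Dif F T ∧ ∀ ζ ∈ Cos T ξ, ev F ζ = ev F ξ := by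
  classical
  induction m with
  | zero =>
    intro V _ _ _ F hF hc ho hm ξ
    refine ⟨∅, by simp, ?_, ?_⟩
    · intro g hg
      exact absurd hg (Finset.notMem_empty g)
    · have h0 : ∀ c, c ≠ 0 → F c = 0 := by
        intro c hc0
        by_contra hne
        have h1 : c ∈ (spt F).erase 0 := Finset.mem_erase.mpr ⟨hc0, k2c_mem.2 hne⟩
        have h2 : 0 < ((spt F).erase 0).card := Finset.card_pos.mpr ⟨c, h1⟩
        rw [pow_zero] at hm
        omega
      have h3 : ∀ χ : AddChar V ℂ, ev F χ = F 0 := by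
        intro χ
        unfold ev
        rw [Finset.sum_eq_single 0]
        · rw [AddChar.map_zero_eq_one, mul_one]
        · intro c _ hc0
          rw [h0 c hc0, zero_mul]
        · intro hn
          exact absurd (Finset.mem_univ _) hn
      intro ζ _
      rw [h3, h3]
  | succ m ih =>
    intro V _ _ _ F hF hc ho hm ξ
    obtain ⟨T1, hT1, hd1, hK1⟩ := hk V F hF hc ho
    set U : AddSubgroup V := AddSubgroup.closure (T1 : Set V) with hU
    have hker : ∀ c, (QuotientAddGroup.mk' U) c = 0 ↔ c ∈ AddSubgroup.closure (T1 : Set V) :=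
      fun c => QuotientAddGroup.eq_zero_iff c
    have hhalf := half_push hK1 hker ξ
    obtain ⟨T2, hT2, hd2, hT2v⟩ := ih (V ⧸ U) (push (QuotientAddGroup.mk' U) F ξ)
      (push_bf hF _ ξ) ((push_card F _ ξ).trans hc) (fun q hq => push_ord ho q hq)
      (by rw [pow_succ] at hm; omega) 1
    have hlift : ∀ g : V ⧸ U, ∃ l : V, g ∈ T2 → (QuotientAddGroup.mk' U) l = g ∧
        (F l ≠ 0 ∨ ∃ c c', F c ≠ 0 ∧ F c' ≠ 0 ∧ l = c - c') := by
      intro g
      by_cases hg : g ∈ T2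
      · rcases hd2 g hg with h | ⟨q, q', hq, hq', rfl⟩
        · obtain ⟨c, hc, hcg⟩ := push_ne h
          exact ⟨c, fun _ => ⟨hcg, Or.inl hc⟩⟩
        · obtain ⟨c, hc, rfl⟩ := push_ne hq
          obtain ⟨c', hc', rfl⟩ := push_ne hq'
          exact ⟨c - c', fun _ => ⟨map_sub _ c c', Or.inr ⟨c, c', hc, hc', rfl⟩⟩⟩
      · exact ⟨0, fun h => absurd h hg⟩
    choose l hl using hlift
    refine ⟨T1 ∪ T2.image l, ?_, ?_, ?_⟩
    · calc (T1 ∪ T2.image l).card ≤ T1.card + (T2.image l).card := Finset.card_union_le _ _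
        _ ≤ T1.card + T2.card := Nat.add_le_add_left Finset.card_image_le _
        _ ≤ D + m * D := Nat.add_le_add hT1 hT2
        _ = (m + 1) * D := by ring
    · intro g hg
      rcases Finset.mem_union.1 hg with hg | hg
      · exact hd1 g hg
      · obtain ⟨q, hq, rfl⟩ := Finset.mem_image.1 hg
        exact (hl q hq).2
    · intro ζ hζ
      rw [mem_Cos] at hζ
      have hχ1 : ∀ u ∈ U, (ζ * ξ⁻¹) u = 1 := by
        intro u hu
        have h1 : U ≤ (AddChar.toAddMonoidHom (ζ * ξ⁻¹)).ker := by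
          rw [hU, AddSubgroup.closure_le]
          intro t ht
          rw [SetLike.mem_coe, AddMonoidHom.mem_ker]
          show Additive.ofMul ((ζ * ξ⁻¹) t) = 0
          have h2 : (ζ * ξ⁻¹) t = 1 := by
            rw [AddChar.mul_apply, hζ t (Finset.mem_union_left _ (Finset.mem_coe.1 ht)),
              ← AddChar.mul_apply, mul_inv_cancel, AddChar.one_apply]
          rw [h2]
          rfl
        have h3 := h1 hu
        rw [AddMonoidHom.mem_ker] at h3
        exact h3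
      obtain ⟨ζ', hζ'⟩ := e1_desc U (ζ * ξ⁻¹) hχ1
      have hmem : ζ' ∈ Cos T2 1 := by
        rw [mem_Cos]
        intro g hg
        have h4 : ζ' g = (ζ * ξ⁻¹) (l g) := by
          rw [hζ', AddChar.compAddMonoidHom_apply, (hl g hg).1]
        rw [h4, AddChar.mul_apply,
          hζ (l g) (Finset.mem_union_right _ (Finset.mem_image_of_mem l hg)),
          ← AddChar.mul_apply, mul_inv_cancel, AddChar.one_apply, AddChar.one_apply]
      have h5 := hT2v ζ' hmem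
      rw [ev_push, ev_push, ← hζ'] at h5
      have h6 : ξ * (ζ * ξ⁻¹) = ζ := by
        rw [mul_comm ζ, mul_inv_cancel_left]
      have h7 : ξ * (1 : AddChar (V ⧸ U) ℂ).compAddMonoidHom (QuotientAddGroup.mk' U) = ξ := by
        ext v
        rw [AddChar.mul_apply, AddChar.compAddMonoidHom_apply, AddChar.one_apply, mul_one]
      rw [h6, h7] at h5
      exact h5

theorem cert_exists (h : NoAWorld) {ε : ℝ} (hε : 0 < ε) : ∃ C : ℝ, 0 ≤ C ∧ ∀ r : ℕ, 2 ≤ r →
    ∀ (V : Type) [AddCommGroup V] [Fintype V] [DecidableEq V] (F : V → ℂ),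
      BF F → (spt F).card ≤ r → (∀ c, F c ≠ 0 → addOrderOf c ≤ r ^ 3) → ∀ ξ : AddChar V ℂ,
      ∃ T : Finset V, (T.card : ℝ) ≤ C * (r : ℝ) ^ ε ∧ Dif F T ∧
        ∀ ζ ∈ Cos T ξ, ev F ζ = ev F ξ := by
  obtain ⟨C, hC, hk⟩ := akill h (show 0 < ε / 2 by positivity)
  obtain ⟨K, hK, hl⟩ := e2_log (show 0 < ε / 2 by positivity)
  refine ⟨K * C, by positivity, ?_⟩
  intro r hr V _ _ _ F hF hc ho ξ
  have hr0 : (0 : ℝ) < r := by
    have : 0 < r := by omega
    exact_mod_cast this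
  have hk' : ∀ (V : Type) [AddCommGroup V] [Fintype V] [DecidableEq V] (F : V → ℂ),
      BF F → (spt F).card ≤ r → (∀ c, F c ≠ 0 → addOrderOf c ≤ r ^ 3) →
      ∃ T : Finset V, T.card ≤ ⌊C * (r : ℝ) ^ (ε / 2)⌋₊ ∧ Dif F T ∧ Kills F T := by
    intro V _ _ _ F hF hc ho
    obtain ⟨T, hT, h1, h2⟩ := hk r hr V F hF hc ho
    exact ⟨T, Nat.le_floor hT, h1, h2⟩
  obtain ⟨T, hT, hd, hT2⟩ := c1_rec hk' (Nat.clog 2 r + 1) V F hF hc ho (by
    have h1 : ((spt F).erase 0).card ≤ (spt F).card := Finset.card_erase_le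
    have h2 : r ≤ 2 ^ Nat.clog 2 r := Nat.le_pow_clog (by norm_num) r
    rw [pow_succ]
    omega) ξ
  refine ⟨T, ?_, hd, hT2⟩
  have h3 : (T.card : ℝ) ≤ ((Nat.clog 2 r : ℝ) + 1) * (⌊C * (r : ℝ) ^ (ε / 2)⌋₊ : ℝ) := by
    exact_mod_cast hT
  have h4 : (⌊C * (r : ℝ) ^ (ε / 2)⌋₊ : ℝ) ≤ C * (r : ℝ) ^ (ε / 2) :=
    Nat.floor_le (by positivity)
  calc (T.card : ℝ) ≤ ((Nat.clog 2 r : ℝ) + 1) * (⌊C * (r : ℝ) ^ (ε / 2)⌋₊ : ℝ) := h3
    _ ≤ (K * (r : ℝ) ^ (ε / 2)) * (C * (r : ℝ) ^ (ε / 2)) :=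
        mul_le_mul (hl r hr) h4 (Nat.cast_nonneg _) (by positivity)
    _ = K * C * ((r : ℝ) ^ (ε / 2) * (r : ℝ) ^ (ε / 2)) := by ring
    _ = K * C * (r : ℝ) ^ ε := by
        rw [← Real.rpow_add hr0]
        congr 2
        ring

end Pool.Agent.AGG
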