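import Mathlib
import Pool.Agent.Lib_helper38.AGG.Defs
import Pool.Agent.Lib_helper58.XA.E1g
import Pool.Agent.Lib_helper58.XA.K2a
import Pool.Agent.Lib_helper16.XA.K2c
import Pool.Agent.Lib_helper67.XA.K5
import Pool.Agent.Lib_helper58.AGG.A2a
import Pool.Agent.Lib_helper58.AGG.A2b
import Pool.Agent.Lib_helper58.AGG.B1
import Pool.Agent.Lib_helper58.AGG.B2

set_option autoImplicit false

/-! AGG, block C2: a family of certificates -/

namespace Pool.Agent.AGG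

open Finset Pool.Agent.XA Pool.Agent.AGG Pool.Agent.Lib_helper10.LogRank

variable {ι : Type} [Fintype ι] [DecidableEq ι] {V : Type} [AddCommGroup V] [Fintype V]
  [DecidableEq V]

/-- the certificate at a point where the slices differ -/
theorem c2_cert {r d : ℕ}
    (hc : ∀ F : V → ℂ, BF F → (spt F).card ≤ r → (∀ c, F c ≠ 0 → addOrderOf c ≤ r ^ 3) →
      ∀ ξ : AddChar V ℂ, ∃ T : Finset V, T.card ≤ d ∧ Dif F T ∧ ∀ ζ ∈ Cos T ξ, ev F ζ = ev F ξ)
    {a : Finset ι → V → ℂ} (ha : St r a) {u : Finset ι} (hu : u.Nonempty) (hau : a u ≠ 0)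
    {ξ : AddChar V ℂ} (hξ : ev (sl a u) ξ ≠ ev (sl a ∅) ξ) :
    ∃ T : Finset V, IsCert a (2 * d) (u, Cos T ξ) := by
  have hsl : ∀ z : Finset ι, ∃ T : Finset V, T.card ≤ d ∧ Dif (sl a z) T ∧
      ∀ ζ ∈ Cos T ξ, ev (sl a z) ζ = ev (sl a z) ξ := by
    intro z
    refine hc (sl a z) (ha.mix z) ?_ ?_ ξ
    · exact (Finset.card_le_card (spt_sl_sub a z)).trans ((card_chs a).trans ha.nz)
    · intro c hcc
      have h1 : c ∈ spt (sl a z) := by
        classical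
        unfold spt
        rw [Finset.mem_filter]
        exact ⟨Finset.mem_univ _, hcc⟩
      obtain ⟨w, hw⟩ := mem_chs.1 (spt_sl_sub a z h1)
      exact ha.ord w c hw
  obtain ⟨T₁, h1, h2, h3⟩ := hsl u
  obtain ⟨T₂, h4, h5, h6⟩ := hsl ∅
  refine ⟨T₁ ∪ T₂, ?_⟩
  refine { ne := hau, nonempty := hu, cos := ?_, sens := ?_ }
  · refine ⟨T₁ ∪ T₂, Finset.union_subset (dif_sub_Nb h2) (dif_sub_Nb h5), ?_, ξ, rfl⟩
    refine (Finset.card_union_le _ _).trans ?_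
    omega
  · intro ζ hζ
    have h7 := Cos_mono (Finset.subset_union_left (s₁ := T₁) (s₂ := T₂)) ξ hζ
    have h8 := Cos_mono (Finset.subset_union_right (s₁ := T₁) (s₂ := T₂)) ξ hζ
    show ev (sl a u) ζ ≠ ev (sl a ∅) ζ
    rw [h3 ζ h7, h6 ζ h8]
    exact hξ

/-- the number of cosets given by at most `D` characters -/
theorem c2_cosets {r D : ℕ} (hr : 2 ≤ r) {a : Finset ι → V → ℂ} (ha : St r a)
    (S : Finset (Finset (AddChar V ℂ)))
    (hS : ∀ W ∈ S, ∃ T ⊆ Nb a, T.card ≤ D ∧ ∃ ξ, W = Cos T ξ) :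
    S.card ≤ (r ^ 3 + 1) ^ D * (r ^ 6) ^ D := by
  classical
  have hr6 : 0 < r ^ 6 := pow_pos (by omega) 6
  let f : {T : Finset V // T ⊆ Nb a ∧ T.card ≤ D} → Finset (Finset (AddChar V ℂ)) := fun T =>
    univ.filter fun W => ∃ ξ, W = Cos T.1 ξ
  have hsub : S ⊆ (univ : Finset {T : Finset V // T ⊆ Nb a ∧ T.card ≤ D}).biUnion f := by
    intro W hW
    obtain ⟨T, hT, hTD, ξ, hξ⟩ := hS W hW
    rw [Finset.mem_biUnion]
    refine ⟨⟨T, hT, hTD⟩, Finset.mem_univ _, ?_⟩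
    simp only [f, Finset.mem_filter, Finset.mem_univ, true_and]
    exact ⟨ξ, hξ⟩
  have hf : ∀ T ∈ (univ : Finset {T : Finset V // T ⊆ Nb a ∧ T.card ≤ D}),
      (f T).card ≤ (r ^ 6) ^ D := by
    intro T _
    refine (card_cosets (B := r ^ 6) T.1 (fun t ht => ord_Nb hr ha t (T.2.1 ht)) (f T) ?_).trans ?_
    · intro W hW
      simp only [f, Finset.mem_filter, Finset.mem_univ, true_and] at hW
      exact hW
    · exact Nat.pow_le_pow_right hr6 T.2.2
  calc S.card ≤ ((univ : Finset {T : Finset V // T ⊆ Nb a ∧ T.card ≤ D}).biUnion f).card :=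
        Finset.card_le_card hsub
    _ ≤ (univ : Finset {T : Finset V // T ⊆ Nb a ∧ T.card ≤ D}).card * (r ^ 6) ^ D :=
        Finset.card_biUnion_le_card_mul _ _ _ hf
    _ ≤ (r ^ 3 + 1) ^ D * (r ^ 6) ^ D := by
        refine Nat.mul_le_mul_right _ ?_
        rw [Finset.card_univ]
        refine (e1_count (Nb a) D).trans ?_
        exact Nat.pow_le_pow_left (Nat.add_le_add_right (card_Nb hr ha) 1) D

/-- arithmetic -/
theorem c2_arith {r : ℕ} (hr : 2 ≤ r) (d : ℕ) :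
    r * ((r ^ 3 + 1) ^ (2 * d) * (r ^ 6) ^ (2 * d)) * (r ^ 6) ^ (2 * d) ≤ r ^ (1 + 32 * d) := by
  have h1 : r ^ 3 + 1 ≤ r ^ 4 := by
    have h2 : 1 ≤ r ^ 3 := Nat.one_le_pow _ _ (by omega)
    have h3 : r ^ 4 = r ^ 3 * r := by ring
    rw [h3]
    nlinarith [Nat.mul_le_mul_left (r ^ 3) hr]
  calc r * ((r ^ 3 + 1) ^ (2 * d) * (r ^ 6) ^ (2 * d)) * (r ^ 6) ^ (2 * d)
      ≤ r * ((r ^ 4) ^ (2 * d) * (r ^ 6) ^ (2 * d)) * (r ^ 6) ^ (2 * d) := by
        refine Nat.mul_le_mul_right _ (Nat.mul_le_mul_left _ (Nat.mul_le_mul_right _ ?_))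
        exact Nat.pow_le_pow_left h1 _
    _ = r ^ (1 + 32 * d) := by
        rw [← pow_mul, ← pow_mul, ← pow_add, ← pow_succ', ← pow_add]
        congr 1
        ring

theorem cert_family {r d : ℕ} (hr : 2 ≤ r)
    (hc : ∀ F : V → ℂ, BF F → (spt F).card ≤ r → (∀ c, F c ≠ 0 → addOrderOf c ≤ r ^ 3) →
      ∀ ξ : AddChar V ℂ, ∃ T : Finset V, T.card ≤ d ∧ Dif F T ∧ ∀ ζ ∈ Cos T ξ, ev F ζ = ev F ξ)
    (a : Finset ι → V → ℂ) (ha : St r a) :
    ∃ C : Finset (Finset ι × Finset (AddChar V ℂ)), (∀ c ∈ C, IsCert a (2 * d) c) ∧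
      (∀ u : Finset ι, u.Nonempty → a u ≠ 0 → ∀ ξ : AddChar V ℂ,
        ev (sl a u) ξ ≠ ev (sl a ∅) ξ → ∃ c ∈ C, c.1 = u ∧ ξ ∈ c.2) ∧
      Om C ∅ univ ≤ (r : ℝ) ^ (1 + 32 * d) := by
  classical
  have hC : ∀ c : Finset ι × Finset (AddChar V ℂ),
      c ∈ univ.filter (fun c => IsCert a (2 * d) c) ↔ IsCert a (2 * d) c := by
    intro c
    rw [Finset.mem_filter]
    exact ⟨fun h => h.2, fun h => ⟨Finset.mem_univ _, h⟩⟩
  refine ⟨univ.filter fun c => IsCert a (2 * d) c, fun c h => (hC c).1 h, ?_, ?_⟩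
  · intro u hu hau ξ hξ
    obtain ⟨T, hT⟩ := c2_cert hc ha hu hau hξ
    exact ⟨(u, Cos T ξ), (hC _).2 hT, rfl, mem_Cos.2 fun t _ => rfl⟩
  · set C : Finset (Finset ι × Finset (AddChar V ℂ)) := univ.filter fun c => IsCert a (2 * d) c
      with hCdef
    have hr6 : 1 ≤ r ^ 6 := Nat.one_le_pow _ _ (by omega)
    -- every summand
    have hom : ∀ c ∈ C, om univ c.2 ≤ ((r : ℝ) ^ 6) ^ (2 * d) := by
      intro c hcC
      obtain ⟨T, hT, hTd, ξ, hξ⟩ := ((hC c).1 hcC).cos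
      rw [hξ]
      have h1 := om_univ_le (B := r ^ 6) T (fun t ht => ord_Nb hr ha t (hT ht)) ξ
      have h2 : ((r ^ 6 : ℕ) : ℝ) ^ T.card ≤ ((r ^ 6 : ℕ) : ℝ) ^ (2 * d) :=
        pow_le_pow_right₀ (by exact_mod_cast hr6) hTd
      have h3 : ((r ^ 6 : ℕ) : ℝ) = (r : ℝ) ^ 6 := by push_cast; ring
      rw [h3] at h1 h2
      exact h1.trans h2
    -- the number
    have hcard : C.card ≤ r * ((r ^ 3 + 1) ^ (2 * d) * (r ^ 6) ^ (2 * d)) := by
      have h1 : C ⊆ C.image Prod.fst ×ˢ C.image Prod.snd := by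
        intro c hcC
        rw [Finset.mem_product]
        exact ⟨Finset.mem_image_of_mem _ hcC, Finset.mem_image_of_mem _ hcC⟩
      refine (Finset.card_le_card h1).trans ?_
      rw [Finset.card_product]
      refine Nat.mul_le_mul ?_ ?_
      · refine (card_ne a (C.image Prod.fst) ?_).trans ha.nz
        intro u hu
        obtain ⟨c, hcC, rfl⟩ := Finset.mem_image.1 hu
        exact ((hC c).1 hcC).ne
      · refine c2_cosets hr ha (C.image Prod.snd) ?_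
        intro W hW
        obtain ⟨c, hcC, rfl⟩ := Finset.mem_image.1 hW
        exact ((hC c).1 hcC).cos
    have hsum : Om C ∅ univ ≤ (C.card : ℝ) * ((r : ℝ) ^ 6) ^ (2 * d) := by
      unfold Om
      refine (Finset.sum_le_card_nsmul _ _ _
        (fun c hc => hom c (Finset.mem_of_mem_filter c hc))).trans ?_
      rw [nsmul_eq_mul]
      refine mul_le_mul_of_nonneg_right ?_ (by positivity)
      exact_mod_cast Finset.card_le_card (Finset.filter_subset _ _)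
    refine hsum.trans ?_
    have h2 : C.card * (r ^ 6) ^ (2 * d) ≤ r ^ (1 + 32 * d) :=
      (Nat.mul_le_mul_right _ hcard).trans (c2_arith hr d)
    have h3 : ((C.card * (r ^ 6) ^ (2 * d) : ℕ) : ℝ) ≤ ((r ^ (1 + 32 * d) : ℕ) : ℝ) := by
      exact_mod_cast h2
    push_cast at h3
    exact h3

end Pool.Agent.AGG
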