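import Mathlib
import Pool.Agent.Lib_helper38.AGG.Defs
import Pool.Agent.Lib_helper58.XA.K2a
import Pool.Agent.Lib_helper16.XA.K2c
import Pool.Agent.Lib_helper67.XA.K5
import Pool.Agent.Lib_helper58.AGG.A1
import Pool.Agent.Lib_helper58.AGG.B3

set_option autoImplicit false

/-! AGG, block C3: small weight -/

namespace Pool.Agent.AGG

open Finset Pool.Agent.XA Pool.Agent.Lib_helper10.LogRank Pool.Agent.AGG

variable {ι : Type} [Fintype ι] [DecidableEq ι] {V : Type} [AddCommGroup V] [Fintype V]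
  [DecidableEq V] {W : Type} [AddCommGroup W] [Fintype W] [DecidableEq W]

theorem hit_of_small {a : Finset ι → V → ℂ} {C : Finset (Finset ι × Finset (AddChar V ℂ))}
    (hC : ∀ u : Finset ι, u.Nonempty → a u ≠ 0 → ∀ ξ : AddChar V ℂ,
      ev (sl a u) ξ ≠ ev (sl a ∅) ξ → ∃ c ∈ C, c.1 = u ∧ ξ ∈ c.2)
    {H : Finset ι} {h : ℕ} (hH : H.card ≤ h) {T : Finset V} {ξ : AddChar V ℂ}
    (hs : Om C H (Cos T ξ) < 1) : Hit a h T ξ := by
  classical
  refine ⟨H, hH, ?_⟩
  by_contra hcon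
  push Not at hcon
  obtain ⟨v₀, hv₀, hal₀, hd₀⟩ := hcon
  set S : Finset (Finset ι) := univ.filter fun v => v.Nonempty ∧
    (∃ ζ ∈ Cos T ξ, ev (a v) ζ ≠ 0) ∧ ∀ i ∈ H, i ∉ v with hS
  have hne : S.Nonempty := ⟨v₀, by
    rw [hS, mem_filter]
    exact ⟨mem_univ _, hv₀, hal₀, hd₀⟩⟩
  obtain ⟨v, hv, hmin⟩ := exists_min_image S (fun v => v.card) hne
  rw [hS, mem_filter] at hv
  obtain ⟨-, hvn, ⟨ζ, hζ, hev⟩, hvH⟩ := hv
  -- the smaller monomials are dead
  have hdead : ∀ w ∈ v.powerset, w ≠ ∅ → w ≠ v → ev (a w) ζ = 0 := by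
    intro w hw hw0 hwv
    rw [mem_powerset] at hw
    by_contra hne
    have h1 : w ∈ S := by
      rw [hS, mem_filter]
      exact ⟨mem_univ _, nonempty_iff_ne_empty.2 hw0, ⟨ζ, hζ, hne⟩,
        fun i hi hiw => hvH i hi (hw hiw)⟩
    have h2 := hmin w h1
    exact hwv (eq_of_subset_of_card_le hw h2)
  have hsum : ev (sl a v) ζ = ev (sl a ∅) ζ + ev (a v) ζ := by
    rw [ev_sl, ev_sl, powerset_empty, sum_singleton]
    have hv0 : v ≠ ∅ := nonempty_iff_ne_empty.1 hvn
    have h3 : ∑ u ∈ v.powerset, ev (a u) ζ = ∑ u ∈ ({∅, v} : Finset (Finset ι)), ev (a u) ζ := by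
      symm
      refine sum_subset ?_ ?_
      · intro u hu
        rw [mem_insert, mem_singleton] at hu
        rw [mem_powerset]
        rcases hu with rfl | rfl
        · exact empty_subset _
        · exact Subset.refl _
      · intro u hu hu'
        rw [mem_insert, mem_singleton, not_or] at hu'
        exact hdead u hu hu'.1 hu'.2
    rw [h3, sum_pair (Ne.symm hv0)]
  have hav : a v ≠ 0 := by
    intro h0
    apply hev
    rw [h0]
    unfold ev
    simp
  obtain ⟨c, hc, hcv, hcζ⟩ := hC v hvn hav ζ (by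
    rw [hsum]
    intro h0
    apply hev
    simpa using h0)
  have h1 : 1 ≤ om (Cos T ξ) c.2 := one_le_om hζ hcζ
  have h2 : om (Cos T ξ) c.2 ≤ Om C H (Cos T ξ) := by
    unfold Om
    refine single_le_sum (f := fun c : Finset ι × Finset (AddChar V ℂ) => om (Cos T ξ) c.2)
      (fun c _ => om_nonneg _ _) ?_
    rw [mem_filter]
    refine ⟨hc, ?_⟩
    rw [hcv, disjoint_left]
    exact fun i hi hi' => hvH i hi' hi
  linarith

end Pool.Agent.AGG
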