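import Mathlib
import Pool.Agent.Lib_helper38.AGG.Defs
import Pool.Agent.Lib_helper10.LogRank.Cube

set_option autoImplicit false

/-! AGG, block D1: the dependence set is a junta; a large dependence set exists -/

namespace Pool.Agent.AGG

open Finset Filter Pool.Agent.XA Pool.Agent.Lib_helper10.LogRank Pool.Agent.AGG

section comb

variable {ι : Type} [DecidableEq ι]

theorem d1_remove {q : ℕ} (u : Finset ι) (U : Fin q → Finset ι) (M : Finset (Fin q))
    (hM : ∀ j ∈ M, j ∉ Dep u U) (N : Finset (Fin q)) (h : u ⊆ (N ∪ M).biUnion U) :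
    u ⊆ N.biUnion U := by
  induction M using Finset.induction_on with
  | empty => simpa using h
  | insert j M hj ih =>
    refine ih (fun k hk => hM k (mem_insert_of_mem hk)) ?_
    by_contra hc
    refine hM j (mem_insert_self j M) ?_
    rw [Dep, mem_filter]
    refine ⟨mem_univ _, N ∪ M, hc, ?_⟩
    rwa [union_insert] at h

theorem dep_junta {q : ℕ} (u : Finset ι) (U : Fin q → Finset ι) (J : Finset (Fin q)) :
    u ⊆ J.biUnion U ↔ u ⊆ (J ∩ Dep u U).biUnion U := by
  constructor
  · intro h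
    refine d1_remove u U (J \ Dep u U) (fun j hj => (Finset.mem_sdiff.1 hj).2) (J ∩ Dep u U) ?_
    have e : (J ∩ Dep u U) ∪ (J \ Dep u U) = J := by
      ext x
      simp only [Finset.mem_union, Finset.mem_inter, Finset.mem_sdiff]
      tauto
    rwa [e]
  · intro h
    exact h.trans (biUnion_subset_biUnion_of_subset_left U inter_subset_left)

theorem d1_sum {q : ℕ} (U : Fin q → Finset ι) (α : Finset ι → ℂ) (J : Finset (Fin q)) :
    ∑ u ∈ (J.biUnion U).powerset, α u =
      ∑ u ∈ ((univ : Finset (Fin q)).biUnion U).powerset, if u ⊆ J.biUnion U then α u else 0 := by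
  rw [← sum_filter]
  refine sum_congr ?_ fun _ _ => rfl
  ext u
  simp only [mem_powerset, mem_filter]
  constructor
  · intro h
    exact ⟨h.trans (biUnion_subset_biUnion_of_subset_left U (subset_univ J)), h⟩
  · intro h
    exact h.2

theorem dep_exists {q D : ℕ} (hq : D ^ 2 < q) (U : Fin q → Finset ι) (α : Finset ι → ℂ)
    (hF : ∀ z : Finset ι, (∑ u ∈ z.powerset, α u) = 1 ∨ (∑ u ∈ z.powerset, α u) = -1)
    (hU : ∀ j, (∑ u ∈ (U j).powerset, α u) ≠ ∑ u ∈ (∅ : Finset ι).powerset, α u) :
    ∃ u, α u ≠ 0 ∧ D ≤ (Dep u U).card := by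
  by_contra hc
  push Not at hc
  set c0 : ℂ := ∑ u ∈ (∅ : Finset ι).powerset, α u with hc0
  have hc0' : c0 = 1 ∨ c0 = -1 := hF ∅
  have hαe : α ∅ ≠ 0 := by
    have : c0 = α ∅ := by simp [hc0]
    rw [← this]
    rcases hc0' with h | h <;> rw [h] <;> norm_num
  have hD : 0 < D := lt_of_le_of_lt (Nat.zero_le _) (hc ∅ hαe)
  set h : Finset (Fin q) → ℝ := fun J =>
    (1 / 2 : ℝ) - ((∑ u ∈ (J.biUnion U).powerset, α u) * c0).re / 2 with hh
  have hmem : h ∈ cubeLow (Fin q) (D - 1) := by
    have e : h = (fun _ => (1 / 2 : ℝ)) -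
        ∑ u ∈ ((univ : Finset (Fin q)).biUnion U).powerset,
          ((α u * c0).re / 2) • (fun J : Finset (Fin q) =>
            if u ⊆ J.biUnion U then (1 : ℝ) else 0) := by
      funext J
      simp only [hh, Pi.sub_apply, Finset.sum_apply, Pi.smul_apply, smul_eq_mul]
      congr 1
      rw [d1_sum, sum_mul, Complex.re_sum, sum_div]
      refine sum_congr rfl fun u _ => ?_
      by_cases hu : u ⊆ J.biUnion U <;> simp [hu]
    rw [e]
    refine Submodule.sub_mem _ ?_ (Submodule.sum_mem _ fun u _ => ?_)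
    · exact Submodule.subset_span ⟨∅, by simp, fun _ => rfl⟩
    · by_cases hu : α u = 0
      · rw [hu]
        simp
      · refine Submodule.smul_mem _ _ (Submodule.subset_span ⟨Dep u U, ?_, fun J => ?_⟩)
        · have := hc u hu
          omega
        · exact if_congr (dep_junta u U J) rfl rfl
  have hs : ∀ z : Finset ι, ((∑ u ∈ z.powerset, α u) * c0).re = 1 ∨
      ((∑ u ∈ z.powerset, α u) * c0).re = -1 := by
    intro z
    rcases hF z with h1 | h1 <;> rcases hc0' with h2 | h2 <;> rw [h1, h2] <;> simp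
  have hb : ∀ V, 0 ≤ h V ∧ h V ≤ 1 := by
    intro V
    simp only [hh]
    rcases hs (V.biUnion U) with h1 | h1 <;> rw [h1] <;> norm_num
  have h0 : h ∅ = 0 := by
    simp only [hh, biUnion_empty]
    rw [← hc0]
    rcases hc0' with h2 | h2 <;> rw [h2] <;> norm_num
  have h1 : ∀ j, h {j} = 1 := by
    intro j
    simp only [hh, singleton_biUnion]
    have hj := hU j
    rcases hF (U j) with h1 | h1 <;> rcases hc0' with h2 | h2
    · exact absurd (h1.trans h2.symm) hj
    · rw [h1, h2]; norm_num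
    · rw [h1, h2]; norm_num
    · exact absurd (h1.trans h2.symm) hj
  have key := card_le_sq_of_cubeLow hmem hb h0 h1
  rw [Fintype.card_fin] at key
  have : (D - 1) ^ 2 ≤ D ^ 2 := Nat.pow_le_pow_left (Nat.sub_le _ _) 2
  omega

end comb

end Pool.Agent.AGG
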