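import Mathlib
import Pool.Agent.Lib_helper38.AGG.Defs

set_option autoImplicit false

/-! AGG, block D2: the revealing sequence -/

namespace Pool.Agent.AGG

open Finset Filter Pool.Agent.XA Pool.Agent.Lib_helper10.LogRank Pool.Agent.AGG

section comb

variable {ι : Type} [DecidableEq ι]

omit [DecidableEq ι] in
theorem d2_pk {s : Finset ι} (h : s.Nonempty) : ∃ i, pk s = some i ∧ i ∈ s :=
  ⟨h.choose, by unfold pk; rw [dif_pos h], h.choose_spec⟩

theorem d2_step {q : ℕ} (u : Finset ι) (U : Fin q → Finset ι) (B : Finset (Fin q))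
    (hB : B.card < (Dep u U).card) :
    ∃ p : Finset (Fin q) × Fin q, p.1 ⊆ B ∧ p.2 ∉ B ∧
      ∃ i, pk (u \ p.1.biUnion U) = some i ∧ i ∈ U p.2 := by
  obtain ⟨j, hj, hjB⟩ := Finset.exists_mem_notMem_of_card_lt_card hB
  have hj2 : ∃ J : Finset (Fin q), ¬ u ⊆ J.biUnion U ∧ u ⊆ (insert j J).biUnion U := by
    unfold Dep at hj
    exact (Finset.mem_filter.1 hj).2
  obtain ⟨J, hJ1, hJ2⟩ := hj2
  have hR : (insert j J) ∩ B ⊆ J := by
    intro x hx
    rcases Finset.mem_insert.1 (Finset.mem_inter.1 hx).1 with h | h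
    · exact absurd (h ▸ (Finset.mem_inter.1 hx).2) hjB
    · exact h
  have hne : (u \ ((insert j J) ∩ B).biUnion U).Nonempty := by
    rw [Finset.sdiff_nonempty]
    intro h
    exact hJ1 (h.trans (Finset.biUnion_subset_biUnion_of_subset_left U hR))
  obtain ⟨i, hi1, hi2⟩ := d2_pk hne
  obtain ⟨hiu, hiR⟩ := Finset.mem_sdiff.1 hi2
  obtain ⟨b, hbJ, hib⟩ := Finset.mem_biUnion.1 (hJ2 hiu)
  refine ⟨((insert j J) ∩ B, b), Finset.inter_subset_right, ?_, i, hi1, hib⟩
  intro hbB
  exact hiR (Finset.mem_biUnion.2 ⟨b, Finset.mem_inter.2 ⟨hbJ, hbB⟩, hib⟩)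

/-- the sets of the revealed indices -/
def d2_B {q : ℕ} (f : Finset (Fin q) → Finset (Fin q) × Fin q) : ℕ → Finset (Fin q)
  | 0 => ∅
  | n + 1 => insert (f (d2_B f n)).2 (d2_B f n)

theorem d2_mem {q : ℕ} (f : Finset (Fin q) → Finset (Fin q) × Fin q) (n : ℕ) (x : Fin q) :
    x ∈ d2_B f n ↔ ∃ l < n, x = (f (d2_B f l)).2 := by
  induction n with
  | zero => simp [d2_B]
  | succ n ih =>
    rw [d2_B, Finset.mem_insert, ih]
    constructor
    · rintro (h | ⟨l, hl, h⟩)
      · exact ⟨n, Nat.lt_succ_self n, h⟩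
      · exact ⟨l, Nat.lt_succ_of_lt hl, h⟩
    · rintro ⟨l, hl, h⟩
      rcases Nat.lt_succ_iff_lt_or_eq.1 hl with h2 | h2
      · exact Or.inr ⟨l, h2, h⟩
      · exact Or.inl (h2 ▸ h)

/-- the revealing sequence `b`; `R s` is a set of the earlier steps -/
theorem reveal_seq {q D : ℕ} (u : Finset ι) (U : Fin q → Finset ι) (hD : D ≤ (Dep u U).card) :
    ∃ (b : Fin D → Fin q) (R : Fin D → Finset (Fin D)), Function.Injective b ∧
      (∀ s, ∀ l ∈ R s, l < s) ∧
      ∀ s, ∃ i, pk (u \ (R s).biUnion fun l => U (b l)) = some i ∧ i ∈ U (b s) := by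
  classical
  rcases Nat.eq_zero_or_pos D with h0 | hpos
  · subst h0
    exact ⟨fun s => s.elim0, fun s => s.elim0, fun s => s.elim0, fun s => s.elim0,
      fun s => s.elim0⟩
  have hne : (Dep u U).Nonempty := Finset.card_pos.1 (hpos.trans_le hD)
  have : Nonempty (Fin q) := ⟨hne.choose⟩
  have hstep := d2_step u U
  choose! f hf1 hf2 hf3 using hstep
  have hcard : ∀ n ≤ D, (d2_B f n).card = n := by
    intro n
    induction n with
    | zero => intro _; rfl
    | succ n ih =>
      intro hn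
      have h1 := ih (by omega)
      rw [d2_B, Finset.card_insert_of_notMem, h1]
      apply hf2
      omega
  have hlt : ∀ s : Fin D, (d2_B f s).card < (Dep u U).card := by
    intro s
    rw [hcard s s.2.le]
    exact s.2.trans_le hD
  let b : Fin D → Fin q := fun s => (f (d2_B f s)).2
  let R : Fin D → Finset (Fin D) := fun s =>
    Finset.univ.filter fun l => l < s ∧ b l ∈ (f (d2_B f s)).1
  have hlts : ∀ l s : Fin D, l < s → b l ≠ b s := by
    intro l s hls h
    apply hf2 _ (hlt s)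
    show b s ∈ d2_B f s
    rw [← h, d2_mem]
    exact ⟨l, hls, rfl⟩
  refine ⟨b, R, ?_, ?_, ?_⟩
  · intro l s h
    by_contra hc
    rcases lt_or_gt_of_ne hc with h2 | h2
    · exact hlts l s h2 h
    · exact hlts s l h2 h.symm
  · intro s l hl
    exact (Finset.mem_filter.1 hl).2.1
  · intro s
    have h1 : (R s).biUnion (fun l => U (b l)) = (f (d2_B f s)).1.biUnion U := by
      ext i
      rw [Finset.mem_biUnion, Finset.mem_biUnion]
      constructor
      · rintro ⟨l, hl, hi⟩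
        exact ⟨b l, (Finset.mem_filter.1 hl).2.2, hi⟩
      · rintro ⟨x, hx, hi⟩
        obtain ⟨l, hl, hxl⟩ := (d2_mem f s x).1 (hf1 _ (hlt s) hx)
        have hlD : l < D := hl.trans s.2
        refine ⟨⟨l, hlD⟩, Finset.mem_filter.2 ⟨Finset.mem_univ _, hl, ?_⟩, ?_⟩
        · show (f (d2_B f l)).2 ∈ _
          rw [← hxl]
          exact hx
        · show i ∈ U (f (d2_B f l)).2
          rw [← hxl]
          exact hi
    rw [h1]
    exact hf3 _ (hlt s)

end comb

end Pool.Agent.AGG
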