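import Mathlib
import Pool.Agent.Lib_helper38.AGG.Defs

set_option autoImplicit false

/-! AGG, block D3: one_step, reveal_fix -/

namespace Pool.Agent.AGG

open Finset Filter Pool.Agent.XA Pool.Agent.Lib_helper10.LogRank Pool.Agent.AGG

section comb

variable {ι : Type} [DecidableEq ι]

theorem d3_swap {Γ : Type} [Fintype Γ] {q : ℕ} (b : Fin q) (G : (Fin q → Γ) → ℝ) :
    ∑ c : Fin q → Γ, ∑ x : Γ, G (Function.update c b x) =
      (Fintype.card Γ : ℝ) * ∑ c : Fin q → Γ, G c := by
  have h1 : ∑ c : Fin q → Γ, ∑ x : Γ, G (Function.update c b x) =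
      ∑ p : (Fin q → Γ) × Γ, G (Function.update p.1 b p.2) := by
    rw [Fintype.sum_prod_type]
  have h2 : ∑ p : (Fin q → Γ) × Γ, G (Function.update p.1 b p.2) =
      ∑ p : (Fin q → Γ) × Γ, G p.1 := by
    refine Fintype.sum_equiv
      { toFun := fun p => (Function.update p.1 b p.2, p.1 b)
        invFun := fun p => (Function.update p.1 b p.2, p.1 b)
        left_inv := ?_
        right_inv := ?_ } _ _ ?_
    · rintro ⟨c, x⟩
      simp
    · rintro ⟨c, x⟩
      simp
    · rintro ⟨c, x⟩
      rfl
  rw [h1, h2, Fintype.sum_prod_type]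
  simp only [sum_const, card_univ, nsmul_eq_mul]
  rw [mul_sum]

theorem d3_prod {Γ : Type} (w : Γ → ℝ) {q : ℕ} (b : Fin q) (c : Fin q → Γ) (x : Γ) :
    ∏ j, w (Function.update c b x j) = w x * ∏ j ∈ univ.erase b, w (c j) := by
  rw [← mul_prod_erase univ _ (mem_univ b)]
  congr 1
  · simp
  · refine prod_congr rfl fun j hj => ?_
    rw [Function.update_of_ne (ne_of_mem_erase hj)]

theorem one_step {Γ : Type} [Fintype Γ] {w : Γ → ℝ} (hw : ∀ c, 0 ≤ w c) {U : Γ → Finset ι} {K : ℝ}
    (hK : 0 < K) (hi : ∀ i, ∑ c, (if i ∈ U c then w c else 0) ≤ (∑ c, w c) / K) {q : ℕ}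
    (b : Fin q) (E E' : (Fin q → Γ) → Prop) [DecidablePred E] [DecidablePred E']
    (k : (Fin q → Γ) → Option ι)
    (hE : ∀ c x, E (Function.update c b x) ↔ E c) (hk : ∀ c x, k (Function.update c b x) = k c)
    (h : ∀ c, E' c → E c ∧ ∃ i, k c = some i ∧ i ∈ U (c b)) :
    ∑ c : Fin q → Γ, (if E' c then ∏ j, w (c j) else 0) ≤
      K⁻¹ * ∑ c : Fin q → Γ, (if E c then ∏ j, w (c j) else 0) := by
  classical
  rcases isEmpty_or_nonempty Γ with hΓ | hΓ
  · haveI : IsEmpty (Fin q → Γ) := ⟨fun c => hΓ.false (c b)⟩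
    simp
  have hc : (0 : ℝ) < Fintype.card Γ := by exact_mod_cast Fintype.card_pos
  refine le_of_mul_le_mul_left ?_ hc
  rw [← d3_swap b, mul_left_comm, ← d3_swap b, mul_sum]
  refine sum_le_sum fun c _ => ?_
  have hP : 0 ≤ ∏ j ∈ univ.erase b, w (c j) := prod_nonneg fun j _ => hw _
  by_cases hEc : E c
  · have hR : ∑ x, (if E (Function.update c b x) then ∏ j, w (Function.update c b x j) else 0) =
        (∑ x, w x) * ∏ j ∈ univ.erase b, w (c j) := by
      rw [sum_mul]
      refine sum_congr rfl fun x _ => ?_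
      rw [if_pos ((hE c x).2 hEc), d3_prod]
    rw [hR]
    rcases hkc : k c with _ | i
    · have hL : ∑ x, (if E' (Function.update c b x) then
          ∏ j, w (Function.update c b x j) else 0) = 0 := by
        refine sum_eq_zero fun x _ => ?_
        rw [if_neg]
        intro hx
        obtain ⟨-, i, hi1, -⟩ := h _ hx
        rw [hk, hkc] at hi1
        cases hi1
      rw [hL]
      exact mul_nonneg (inv_nonneg.2 hK.le) (mul_nonneg (sum_nonneg fun x _ => hw x) hP)
    · calc ∑ x, (if E' (Function.update c b x) then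
          ∏ j, w (Function.update c b x j) else 0) 
          ≤ ∑ x, (if i ∈ U x then w x else 0) * ∏ j ∈ univ.erase b, w (c j) := by
            refine sum_le_sum fun x _ => ?_
            by_cases hx : E' (Function.update c b x)
            · obtain ⟨-, i', hi1, hi2⟩ := h _ hx
              rw [hk, hkc] at hi1
              cases hi1
              rw [Function.update_self] at hi2
              rw [if_pos hx, if_pos hi2, d3_prod]
            · rw [if_neg hx]
              refine mul_nonneg ?_ hP
              split_ifs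
              · exact hw x
              · exact le_rfl
        _ = (∑ x, (if i ∈ U x then w x else 0)) * ∏ j ∈ univ.erase b, w (c j) := by
            rw [sum_mul]
        _ ≤ ((∑ x, w x) / K) * ∏ j ∈ univ.erase b, w (c j) :=
            mul_le_mul_of_nonneg_right (hi i) hP
        _ = K⁻¹ * ((∑ x, w x) * ∏ j ∈ univ.erase b, w (c j)) := by
            rw [div_eq_mul_inv]; ring
  · have hL : ∑ x, (if E' (Function.update c b x) then
        ∏ j, w (Function.update c b x j) else 0) = 0 := by
      refine sum_eq_zero fun x _ => ?_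
      rw [if_neg]
      intro hx
      exact hEc ((hE c x).1 (h _ hx).1)
    have hR : ∑ x, (if E (Function.update c b x) then
        ∏ j, w (Function.update c b x j) else 0) = 0 := by
      refine sum_eq_zero fun x _ => ?_
      rw [if_neg]
      intro hx
      exact hEc ((hE c x).1 hx)
    rw [hL, hR, mul_zero]

theorem reveal_fix {Γ : Type} [Fintype Γ] {w : Γ → ℝ} (hw : ∀ c, 0 ≤ w c) {U : Γ → Finset ι}
    {K : ℝ} (hK : 0 < K) (hi : ∀ i, ∑ c, (if i ∈ U c then w c else 0) ≤ (∑ c, w c) / K) {q D : ℕ}
    (u : Finset ι) (b : Fin D → Fin q) (R : Fin D → Finset (Fin D)) (hb : Function.Injective b)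
    (hR : ∀ s, ∀ l ∈ R s, l < s) (E : (Fin q → Γ) → Prop) [DecidablePred E]
    (hE : ∀ c, E c →
      ∀ s, ∃ i, pk (u \ (R s).biUnion fun l => U (c (b l))) = some i ∧ i ∈ U (c (b s))) :
    ∑ c : Fin q → Γ, (if E c then ∏ j, w (c j) else 0) ≤ K⁻¹ ^ D * (∑ c, w c) ^ q := by
  classical
  have key : ∀ n : ℕ, n ≤ D → ∑ c : Fin q → Γ,
      (if (∀ s : Fin D, s.1 < n → ∃ i, pk (u \ (R s).biUnion fun l => U (c (b l))) = some i ∧
        i ∈ U (c (b s))) then ∏ j, w (c j) else 0) ≤ K⁻¹ ^ n * (∑ c, w c) ^ q := by
    intro n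
    induction n with
    | zero =>
      intro _
      rw [pow_zero, one_mul, Fintype.sum_pow]
      refine sum_le_sum fun c _ => ?_
      rw [if_pos]
      intro s hs
      exact absurd hs (Nat.not_lt_zero _)
    | succ n ih =>
      intro hn
      have hn' : n < D := hn
      have hstep := one_step hw hK hi (b ⟨n, hn'⟩)
        (fun c => ∀ s : Fin D, s.1 < n →
          ∃ i, pk (u \ (R s).biUnion fun l => U (c (b l))) = some i ∧ i ∈ U (c (b s)))
        (fun c => ∀ s : Fin D, s.1 < n + 1 →
          ∃ i, pk (u \ (R s).biUnion fun l => U (c (b l))) = some i ∧ i ∈ U (c (b s)))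
        (fun c => pk (u \ (R ⟨n, hn'⟩).biUnion fun l => U (c (b l)))) ?_ ?_ ?_
      · refine hstep.trans ?_
        rw [pow_succ, mul_comm (K⁻¹ ^ n) K⁻¹, mul_assoc]
        exact mul_le_mul_of_nonneg_left (ih hn'.le) (inv_nonneg.2 hK.le)
      · intro c x
        have hne : ∀ s : Fin D, s.1 < n → Function.update c (b ⟨n, hn'⟩) x (b s) = c (b s) := by
          intro s hs
          refine Function.update_of_ne (fun h => ?_) _ _
          have := hb h
          rw [this] at hs
          exact lt_irrefl _ hs
        have hbi : ∀ s : Fin D, s.1 < n →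
            (R s).biUnion (fun l => U (Function.update c (b ⟨n, hn'⟩) x (b l))) =
              (R s).biUnion (fun l => U (c (b l))) := by
          intro s hs
          refine biUnion_congr rfl fun l hl => ?_
          rw [hne l (lt_trans (hR s l hl) hs)]
        refine forall_congr' fun s => ?_
        refine imp_congr_right fun hs => ?_
        rw [hbi s hs, hne s hs]
      · intro c x
        have : (R ⟨n, hn'⟩).biUnion (fun l => U (Function.update c (b ⟨n, hn'⟩) x (b l))) =
              (R ⟨n, hn'⟩).biUnion (fun l => U (c (b l))) := by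
          refine biUnion_congr rfl fun l hl => ?_
          have hl' := hR _ l hl
          rw [Function.update_of_ne (fun h => ?_)]
          have := hb h
          rw [this] at hl'
          exact lt_irrefl _ hl'
        show pk _ = pk _
        rw [this]
      · intro c hc
        exact ⟨fun s hs => hc s (Nat.lt_succ_of_lt hs), hc ⟨n, hn'⟩ (Nat.lt_succ_self n)⟩
  refine le_trans (sum_le_sum fun c _ => ?_) (key D le_rfl)
  by_cases hc : E c
  · rw [if_pos hc, if_pos fun s _ => hE c hc s]
  · rw [if_neg hc]
    split_ifs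
    · exact prod_nonneg fun j _ => hw _
    · exact le_rfl

end comb

end Pool.Agent.AGG
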