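import Mathlib
import Pool.Agent.Lib_helper38.AGG.Defs
import Pool.Agent.Lib_helper10.LogRank.Cube
import Pool.Agent.Lib_helper58.XA.Main
import Pool.Agent.Lib_helper58.AGG.D2
import Pool.Agent.Lib_helper58.AGG.D3

set_option autoImplicit false

/-! AGG, block D4: the union bound -/

namespace Pool.Agent.AGG

open Finset Filter Pool.Agent.XA Pool.Agent.Lib_helper10.LogRank Pool.Agent.AGG

section comb

variable {ι : Type} [DecidableEq ι]

open Classical in
theorem reveal {Γ : Type} [Fintype Γ] {w : Γ → ℝ} (hw : ∀ c, 0 ≤ w c) {U : Γ → Finset ι} {K : ℝ}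
    (hK : 0 < K) (hi : ∀ i, ∑ c, (if i ∈ U c then w c else 0) ≤ (∑ c, w c) / K) (q D : ℕ)
    (S : Finset (Finset ι)) :
    ∑ c : Fin q → Γ, (if ∃ u ∈ S, D ≤ (Dep u fun j => U (c j)).card then ∏ j, w (c j) else 0) ≤
      S.card * (q : ℝ) ^ D * 2 ^ (D ^ 2) * K⁻¹ ^ D * (∑ c, w c) ^ q := by
  have hΩ : 0 ≤ ∑ c, w c := sum_nonneg fun c _ => hw c
  have hprod : ∀ c : Fin q → Γ, 0 ≤ ∏ j, w (c j) := fun c => prod_nonneg fun j _ => hw _
  let E : Finset ι × (Fin D → Fin q) × (Fin D → Finset (Fin D)) → (Fin q → Γ) → Prop :=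
    fun t c => Function.Injective t.2.1 ∧ (∀ s, ∀ l ∈ t.2.2 s, l < s) ∧
      ∀ s, ∃ i, pk (t.1 \ (t.2.2 s).biUnion fun l => U (c (t.2.1 l))) = some i ∧
        i ∈ U (c (t.2.1 s))
  have h1 : ∀ c : Fin q → Γ,
      (if ∃ u ∈ S, D ≤ (Dep u fun j => U (c j)).card then ∏ j, w (c j) else 0) ≤
      ∑ t ∈ S ×ˢ (univ : Finset ((Fin D → Fin q) × (Fin D → Finset (Fin D)))),
        (if E t c then ∏ j, w (c j) else 0) := by
    intro c
    have hnn : ∀ t, 0 ≤ (if E t c then ∏ j, w (c j) else 0) := by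
      intro t
      split_ifs
      exacts [hprod c, le_rfl]
    by_cases h : ∃ u ∈ S, D ≤ (Dep u fun j => U (c j)).card
    · rw [if_pos h]
      obtain ⟨u, hu, hD⟩ := h
      obtain ⟨b, R, hb, hR, hs⟩ := reveal_seq u (fun j => U (c j)) hD
      have hE : E (u, b, R) c := ⟨hb, hR, hs⟩
      calc ∏ j, w (c j) = (if E (u, b, R) c then ∏ j, w (c j) else 0) := (if_pos hE).symm
        _ ≤ _ := single_le_sum (f := fun t => if E t c then ∏ j, w (c j) else 0)
          (fun t _ => hnn t) (mem_product.2 ⟨hu, mem_univ _⟩)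
    · rw [if_neg h]
      exact sum_nonneg fun t _ => hnn t
  have h2 : ∀ t ∈ S ×ˢ (univ : Finset ((Fin D → Fin q) × (Fin D → Finset (Fin D)))),
      ∑ c : Fin q → Γ, (if E t c then ∏ j, w (c j) else 0) ≤ K⁻¹ ^ D * (∑ c, w c) ^ q := by
    intro t _
    by_cases hb : Function.Injective t.2.1 ∧ ∀ s, ∀ l ∈ t.2.2 s, l < s
    · exact reveal_fix hw hK hi t.1 t.2.1 t.2.2 hb.1 hb.2 (E t) fun c hc => hc.2.2
    · have h3 : ∀ c : Fin q → Γ, (if E t c then ∏ j, w (c j) else 0) = 0 := by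
        intro c
        rw [if_neg fun h => hb ⟨h.1, h.2.1⟩]
      rw [sum_congr rfl fun c _ => h3 c, sum_const_zero]
      exact mul_nonneg (pow_nonneg (inv_nonneg.2 hK.le) _) (pow_nonneg hΩ _)
  calc ∑ c : Fin q → Γ, (if ∃ u ∈ S, D ≤ (Dep u fun j => U (c j)).card then ∏ j, w (c j) else 0)
      ≤ ∑ c : Fin q → Γ, ∑ t ∈ S ×ˢ (univ : Finset ((Fin D → Fin q) × (Fin D → Finset (Fin D)))),
          (if E t c then ∏ j, w (c j) else 0) := sum_le_sum fun c _ => h1 c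
    _ = ∑ t ∈ S ×ˢ (univ : Finset ((Fin D → Fin q) × (Fin D → Finset (Fin D)))),
          ∑ c : Fin q → Γ, (if E t c then ∏ j, w (c j) else 0) := sum_comm
    _ ≤ ∑ _t ∈ S ×ˢ (univ : Finset ((Fin D → Fin q) × (Fin D → Finset (Fin D)))),
          K⁻¹ ^ D * (∑ c, w c) ^ q := sum_le_sum h2
    _ = S.card * (q : ℝ) ^ D * 2 ^ (D ^ 2) * K⁻¹ ^ D * (∑ c, w c) ^ q := by
        rw [sum_const, card_product, card_univ, nsmul_eq_mul]
        have h4 : Fintype.card ((Fin D → Fin q) × (Fin D → Finset (Fin D))) =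
            q ^ D * 2 ^ (D ^ 2) := by
          rw [Fintype.card_prod, Fintype.card_fun, Fintype.card_fun, Fintype.card_finset,
            Fintype.card_fin, Fintype.card_fin, ← pow_mul, sq]
        rw [h4]
        push_cast
        ring

end comb

end Pool.Agent.AGG
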