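import Mathlib
import Pool.Agent.Lib_helper38.AGG.Defs
import Pool.Agent.Lib_helper58.XA.K2a
import Pool.Agent.Lib_helper10.LogRank.Cube
import Pool.Agent.Lib_helper58.XA.Main
import Pool.Agent.Lib_helper58.AGG.A1
import Pool.Agent.Lib_helper58.AGG.A2a
import Pool.Agent.Lib_helper58.AGG.A2b
import Pool.Agent.Lib_helper58.AGG.D1
import Pool.Agent.Lib_helper58.AGG.D4

set_option autoImplicit false

/-! AGG, block D6 -/

namespace Pool.Agent.AGG

open Finset Filter Pool.Agent.XA Pool.Agent.Lib_helper10.LogRank Pool.Agent.AGG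

variable {ι : Type} [Fintype ι] [DecidableEq ι] {V : Type} [AddCommGroup V] [Fintype V]
  [DecidableEq V]

theorem d6_ev_zero (ξ : AddChar V ℂ) : ev (0 : V → ℂ) ξ = 0 := by
  simp [ev]

open Classical in
theorem q_tuples {q D : ℕ} (hq : D ^ 2 < q) {a : Finset ι → V → ℂ} (ha : Mix a) {K : ℝ}
    (hK : 0 < K) {w : Finset ι × Finset (AddChar V ℂ) → ℝ} (hw : ∀ c, 0 ≤ w c)
    (hs : ∀ c, w c ≠ 0 → ∀ ζ ∈ c.2, ev (sl a c.1) ζ ≠ ev (sl a ∅) ζ)
    (hi : ∀ i, ∑ c, (if i ∈ c.1 then w c else 0) ≤ (∑ c, w c) / K)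
    (W : Finset (AddChar V ℂ)) :
    ∑ c : Fin q → Finset ι × Finset (AddChar V ℂ),
      (if ∃ ξ ∈ W, ∀ j, ξ ∈ (c j).2 then ∏ j, w (c j) else 0) ≤
      nnz a * (q : ℝ) ^ D * 2 ^ (D ^ 2) * K⁻¹ ^ D * (∑ c, w c) ^ q := by
  have hrev := reveal (Γ := Finset ι × Finset (AddChar V ℂ)) (w := w) hw
    (U := fun c => c.1) hK hi q D (univ.filter fun u : Finset ι => a u ≠ 0)
  refine le_trans (Finset.sum_le_sum fun c _ => ?_) (le_trans hrev ?_)
  · have hP : 0 ≤ ∏ j, w (c j) := Finset.prod_nonneg fun j _ => hw _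
    by_cases h1 : ∃ ξ ∈ W, ∀ j, ξ ∈ (c j).2
    · rw [if_pos h1]
      by_cases h0 : ∏ j, w (c j) = 0
      · rw [h0]
        split_ifs <;> exact le_rfl
      · obtain ⟨ξ, _, hξ⟩ := h1
        have hwj : ∀ j, w (c j) ≠ 0 := by
          intro j hj
          exact h0 (Finset.prod_eq_zero (mem_univ j) hj)
        obtain ⟨u, hu, hD⟩ := dep_exists hq (fun j => (c j).1) (fun u => ev (a u) ξ)
          (fun z => by
            rw [← ev_sl a z ξ]
            exact ev_mix ha z ξ)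
          (fun j => by
            rw [← ev_sl a _ ξ, ← ev_sl a _ ξ]
            exact hs (c j) (hwj j) ξ (hξ j))
        have hau : a u ≠ 0 := by
          intro h
          apply hu
          change ev (a u) ξ = 0
          rw [h]
          exact d6_ev_zero ξ
        rw [if_pos ⟨u, mem_filter.2 ⟨mem_univ _, hau⟩, hD⟩]
    · rw [if_neg h1]
      split_ifs
      · exact hP
      · exact le_rfl
  · have hc : (((univ.filter fun u : Finset ι => a u ≠ 0).card : ℕ) : ℝ) ≤ (nnz a : ℝ) := by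
      exact_mod_cast card_ne a _ fun u hu => (mem_filter.1 hu).2
    have hsum : 0 ≤ ∑ c, w c := Finset.sum_nonneg fun c _ => hw c
    gcongr

end Pool.Agent.AGG
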