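import Mathlib
import Pool.Agent.Lib_helper38.AGG.Defs
import Pool.Agent.Lib_helper58.XA.K2a
import Pool.Agent.Lib_helper16.XA.K2c
import Pool.Agent.Lib_helper67.XA.K5
import Pool.Agent.Lib_helper10.LogRank.Cube
import Pool.Agent.Lib_helper58.XA.Main
import Pool.Agent.Lib_helper58.AGG.B1
import Pool.Agent.Lib_helper58.AGG.B3
import Pool.Agent.Lib_helper58.AGG.D5
import Pool.Agent.Lib_helper58.AGG.D6

set_option autoImplicit false

/-! AGG, block D7: v_step -/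

namespace Pool.Agent.AGG

open Finset Filter Pool.Agent.AGG Pool.Agent.XA Pool.Agent.Lib_helper10.LogRank

variable {ι : Type} [Fintype ι] [DecidableEq ι] {V : Type} [AddCommGroup V] [Fintype V]
  [DecidableEq V]

open Classical in
/-- the weights -/
noncomputable def d7_w (C : Finset (Finset ι × Finset (AddChar V ℂ))) (H : Finset ι)
    (W : Finset (AddChar V ℂ)) (c : Finset ι × Finset (AddChar V ℂ)) : ℝ :=
  if c ∈ C ∧ Disjoint c.1 H then om W c.2 else 0

theorem d7_w_nonneg (C : Finset (Finset ι × Finset (AddChar V ℂ))) (H : Finset ι)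
    (W : Finset (AddChar V ℂ)) (c : Finset ι × Finset (AddChar V ℂ)) : 0 ≤ d7_w C H W c := by
  unfold d7_w
  split_ifs
  · exact om_nonneg _ _
  · exact le_rfl

theorem d7_w_ne {C : Finset (Finset ι × Finset (AddChar V ℂ))} {H : Finset ι}
    {W : Finset (AddChar V ℂ)} {c : Finset ι × Finset (AddChar V ℂ)} (h : d7_w C H W c ≠ 0) :
    c ∈ C := by
  unfold d7_w at h
  split_ifs at h with h1
  · exact h1.1
  · exact absurd rfl h

theorem d7_sum (C : Finset (Finset ι × Finset (AddChar V ℂ))) (H : Finset ι)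
    (W : Finset (AddChar V ℂ)) : ∑ c, d7_w C H W c = Om C H W := by
  classical
  unfold d7_w Om
  rw [← Finset.sum_filter]
  apply Finset.sum_congr
  · ext c
    simp only [Finset.mem_filter, Finset.mem_univ, true_and]
  · intro c _
    rfl

theorem d7_sumi (C : Finset (Finset ι × Finset (AddChar V ℂ))) (H : Finset ι)
    (W : Finset (AddChar V ℂ)) (i : ι) :
    ∑ c, (if i ∈ c.1 then d7_w C H W c else 0) =
      ∑ c ∈ C.filter (fun c => Disjoint c.1 H ∧ i ∈ c.1), om W c.2 := by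
  classical
  have h1 : ∀ c : Finset ι × Finset (AddChar V ℂ), (if i ∈ c.1 then d7_w C H W c else 0) =
      if c ∈ C.filter (fun c => Disjoint c.1 H ∧ i ∈ c.1) then om W c.2 else 0 := by
    intro c
    unfold d7_w
    by_cases h1 : i ∈ c.1 <;> by_cases h2 : c ∈ C <;> by_cases h3 : Disjoint c.1 H <;>
      simp [h1, h2, h3]
  rw [Finset.sum_congr rfl fun c _ => h1 c, ← Finset.sum_filter]
  apply Finset.sum_congr
  · ext c
    simp
  · intro c _
    rfl

theorem v_step {r d D q : ℕ} {K : ℝ} (hq : D ^ 2 < q)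
    (hK : (r : ℝ) * q ^ D * 2 ^ (D ^ 2) * 2 ^ q < K ^ D) (hK0 : 0 < K) {a : Finset ι → V → ℂ}
    (ha : St r a) {C : Finset (Finset ι × Finset (AddChar V ℂ))} (hC : ∀ c ∈ C, IsCert a d c)
    {H : Finset ι} {T : Finset V} {ξ : AddChar V ℂ} (hpos : 0 < Om C H (Cos T ξ))
    (hpop : ∀ i, ∑ c ∈ C.filter (fun c => Disjoint c.1 H ∧ i ∈ c.1), om (Cos T ξ) c.2 ≤
      Om C H (Cos T ξ) / K) :
    ∃ T' ⊆ Nb a, T'.card ≤ q * d ∧
      ∀ ζ ∈ Cos T ξ, Om C H (Cos (T ∪ T') ζ) ≤ 3 / 4 * Om C H (Cos T ξ) := by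
  classical
  set Ω : ℝ := Om C H (Cos T ξ) with hΩ
  set w := d7_w C H (Cos T ξ) with hwdef
  have hw : ∀ c, 0 ≤ w c := d7_w_nonneg C H (Cos T ξ)
  have hsum : ∑ c, w c = Ω := d7_sum C H (Cos T ξ)
  have hs : ∀ c, w c ≠ 0 → ∀ ζ ∈ c.2, ev (sl a c.1) ζ ≠ ev (sl a ∅) ζ := by
    intro c hc
    exact (hC c (d7_w_ne hc)).sens
  have hi : ∀ i, ∑ c, (if i ∈ c.1 then w c else 0) ≤ (∑ c, w c) / K := by
    intro i
    rw [hsum, d7_sumi]
    exact hpop i
  have hkey := q_tuples hq ha.mix hK0 hw hs hi (Cos T ξ)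
  rw [hsum] at hkey
  have hKD : 0 < K ^ D := pow_pos hK0 D
  have hlt : (nnz a : ℝ) * (q : ℝ) ^ D * 2 ^ (D ^ 2) * K⁻¹ ^ D * Ω ^ q < (Ω / 2) ^ q := by
    have h1 : (nnz a : ℝ) * (q : ℝ) ^ D * 2 ^ (D ^ 2) * 2 ^ q < K ^ D := by
      refine lt_of_le_of_lt ?_ hK
      have h2 : (nnz a : ℝ) ≤ r := by exact_mod_cast ha.nz
      gcongr
    have h3 : (nnz a : ℝ) * (q : ℝ) ^ D * 2 ^ (D ^ 2) * K⁻¹ ^ D < (1 / 2) ^ q := by
      rw [inv_pow, one_div, inv_pow, ← div_eq_mul_inv, div_lt_iff₀ hKD, ← div_eq_inv_mul,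
        lt_div_iff₀ (by positivity)]
      exact h1
    calc (nnz a : ℝ) * (q : ℝ) ^ D * 2 ^ (D ^ 2) * K⁻¹ ^ D * Ω ^ q
        < (1 / 2) ^ q * Ω ^ q := by
          apply mul_lt_mul_of_pos_right h3 (pow_pos hpos q)
      _ = (Ω / 2) ^ q := by
          rw [← mul_pow]
          congr 1
          ring
  have hne : (Cos T ξ).Nonempty := Finset.card_pos.mp (card_Cos_pos T ξ)
  obtain ⟨k, hkq, c, hc1, ⟨ξs, hξs, hξs2⟩, hc3⟩ :=
    extract hw (fun c : Finset ι × Finset (AddChar V ℂ) => c.2) (Cos T ξ) hne q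
      (by
        rw [hsum]
        exact lt_of_le_of_lt hkey hlt)
  rw [hsum] at hc3
  have hcC : ∀ j, c j ∈ C := fun j => d7_w_ne (hc1 j).ne'
  have hcert : ∀ j, ∃ Tj ⊆ Nb a, Tj.card ≤ d ∧ ∃ ξj, (c j).2 = Cos Tj ξj :=
    fun j => (hC _ (hcC j)).cos
  choose Tj hTj1 hTj2 ξj hTj3 using hcert
  refine ⟨univ.biUnion Tj, ?_, ?_, ?_⟩
  · intro t ht
    obtain ⟨j, _, hj⟩ := Finset.mem_biUnion.mp ht
    exact hTj1 j hj
  · calc (univ.biUnion Tj).card ≤ ∑ j : Fin k, (Tj j).card := Finset.card_biUnion_le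
      _ ≤ ∑ _j : Fin k, d := Finset.sum_le_sum fun j _ => hTj2 j
      _ = k * d := by simp
      _ ≤ q * d := Nat.mul_le_mul_right d hkq.le
  · intro ζ hζ
    set T' := univ.biUnion Tj with hT'
    have hmeet : ∀ z, z ∈ Cos (T ∪ T') ξs → z ∈ Cos T ξ ∧ ∀ j, z ∈ (c j).2 := by
      intro z hz
      rw [mem_Cos] at hz
      rw [mem_Cos] at hξs
      refine ⟨mem_Cos.mpr fun t ht => ?_, fun j => ?_⟩
      · rw [hz t (Finset.mem_union_left _ ht), hξs t ht]
      · have h2 := hξs2 j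
        rw [hTj3 j, mem_Cos] at h2
        rw [hTj3 j, mem_Cos]
        intro t ht
        rw [hz t (Finset.mem_union_right _ (Finset.mem_biUnion.mpr ⟨j, Finset.mem_univ j, ht⟩)),
          h2 t ht]
    have hpt : ∀ c' : Finset ι × Finset (AddChar V ℂ),
        d7_w C H (Cos (T ∪ T') ζ) c' ≤ 1 / 2 * w c' +
          1 / 2 * (if ∃ ζ ∈ Cos T ξ, (∀ j, ζ ∈ (c j).2) ∧ ζ ∈ c'.2 then w c' else 0) := by
      intro c'
      by_cases hin : c' ∈ C ∧ Disjoint c'.1 H
      · have e1 : d7_w C H (Cos (T ∪ T') ζ) c' = om (Cos (T ∪ T') ζ) c'.2 := by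
          unfold d7_w
          rw [if_pos hin]
        have e2 : w c' = om (Cos T ξ) c'.2 := by
          rw [hwdef]
          unfold d7_w
          rw [if_pos hin]
        obtain ⟨T2, _, _, ξ2, hT2⟩ := (hC c' hin.1).cos
        rw [e1, e2]
        by_cases hex : ∃ ζ ∈ Cos T ξ, (∀ j, ζ ∈ (c j).2) ∧ ζ ∈ c'.2
        · rw [if_pos hex]
          have h5 : om (Cos (T ∪ T') ζ) c'.2 ≤ om (Cos T ξ) c'.2 := by
            rw [hT2]
            exact om_le hζ
          linarith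
        · rw [if_neg hex]
          have h5 : 2 * om (Cos (T ∪ T') ζ) c'.2 ≤ om (Cos T ξ) c'.2 := by
            rw [hT2]
            refine om_half hζ hξs ?_
            rw [← hT2, Finset.eq_empty_iff_forall_notMem]
            intro z hz
            obtain ⟨hz1, hz2⟩ := Finset.mem_inter.mp hz
            obtain ⟨hz3, hz4⟩ := hmeet z hz1
            exact hex ⟨z, hz3, hz4, hz2⟩
          linarith
      · have e1 : d7_w C H (Cos (T ∪ T') ζ) c' = 0 := by
          unfold d7_w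
          rw [if_neg hin]
        have e2 : w c' = 0 := by
          rw [hwdef]
          unfold d7_w
          rw [if_neg hin]
        rw [e1, e2]
        simp
    rw [← d7_sum C H (Cos (T ∪ T') ζ)]
    calc ∑ c', d7_w C H (Cos (T ∪ T') ζ) c'
        ≤ ∑ c', (1 / 2 * w c' +
          1 / 2 * (if ∃ ζ ∈ Cos T ξ, (∀ j, ζ ∈ (c j).2) ∧ ζ ∈ c'.2 then w c' else 0)) :=
          Finset.sum_le_sum fun c' _ => hpt c'
      _ = 1 / 2 * Ω + 1 / 2 * ∑ c',
          (if ∃ ζ ∈ Cos T ξ, (∀ j, ζ ∈ (c j).2) ∧ ζ ∈ c'.2 then w c' else 0) := by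
          rw [Finset.sum_add_distrib, ← Finset.mul_sum, ← Finset.mul_sum, hsum]
      _ ≤ 3 / 4 * Ω := by
          have h6 := hc3
          have h7 : ∑ c', (if ∃ ζ ∈ Cos T ξ, (∀ j, ζ ∈ (c j).2) ∧ ζ ∈ c'.2 then w c' else 0) ≤
              Ω / 2 := by
            convert h6 using 2
          linarith

end Pool.Agent.AGG
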