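import Mathlib
import Pool.Agent.Lib_helper38.AGG.Defs
import Pool.Agent.Lib_helper58.XA.K2a
import Pool.Agent.Lib_helper16.XA.K2c
import Pool.Agent.Lib_helper67.XA.K5
import Pool.Agent.Lib_helper10.LogRank.Cube
import Pool.Agent.Lib_helper58.XA.Main
import Pool.Agent.Lib_helper58.AGG.B1
import Pool.Agent.Lib_helper58.AGG.C3
import Pool.Agent.Lib_helper58.AGG.D7

set_option autoImplicit false

/-! AGG, D8 -/

namespace Pool.Agent.AGG

open Finset Filter Pool.Agent.XA Pool.Agent.Lib_helper10.LogRank Pool.Agent.AGG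

variable {ι : Type} [Fintype ι] [DecidableEq ι] {V : Type} [AddCommGroup V] [Fintype V]
  [DecidableEq V]

theorem h_step {K : ℝ} (hK0 : 0 < K) {C : Finset (Finset ι × Finset (AddChar V ℂ))}
    {H : Finset ι} {W : Finset (AddChar V ℂ)} {i : ι}
    (hpop : Om C H W / K < ∑ c ∈ C.filter (fun c => Disjoint c.1 H ∧ i ∈ c.1), om W c.2) :
    Om C (insert i H) W ≤ (1 - 1 / K) * Om C H W := by
  classical
  have e1 : Om C H W = ∑ c ∈ C.filter (fun c => Disjoint c.1 H ∧ i ∈ c.1), om W c.2 +
      Om C (insert i H) W := by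
    unfold Om
    rw [← Finset.sum_filter_add_sum_filter_not (C.filter fun c => Disjoint c.1 H)
      (fun c => i ∈ c.1), Finset.filter_filter, Finset.filter_filter]
    congr 1
    apply Finset.sum_congr _ (fun _ _ => rfl)
    apply Finset.filter_congr
    intro c _
    rw [Finset.disjoint_insert_right]
    tauto
  have e2 : (1 - 1 / K) * Om C H W = Om C H W - Om C H W / K := by ring
  rw [e2]
  linarith

theorem d8_main {r d D q h : ℕ} {K : ℝ} (hq : D ^ 2 < q)
    (hK : (r : ℝ) * q ^ D * 2 ^ (D ^ 2) * 2 ^ q < K ^ D) (hK1 : 1 < K) {a : Finset ι → V → ℂ}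
    (ha : St r a) {C : Finset (Finset ι × Finset (AddChar V ℂ))} (hC : ∀ c ∈ C, IsCert a d c)
    (hC2 : ∀ u : Finset ι, u.Nonempty → a u ≠ 0 → ∀ ξ : AddChar V ℂ,
      ev (sl a u) ξ ≠ ev (sl a ∅) ξ → ∃ c ∈ C, c.1 = u ∧ ξ ∈ c.2) :
    ∀ (s j k : ℕ) (H : Finset ι) (T : Finset V) (ξ : AddChar V ℂ), j + k = s →
      Om C H (Cos T ξ) < (4 / 3) ^ k → Om C H (Cos T ξ) * (1 - 1 / K) ^ j < 1 → H.card + j ≤ h →
      Reach (Nb a) (q * d) (Hit a h) k T ξ := by
  have hK0 : 0 < K := by linarith
  have hk0 : 0 ≤ 1 - 1 / K := by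
    rw [sub_nonneg, div_le_one hK0]
    exact hK1.le
  have hk1 : 1 - 1 / K ≤ 1 := by
    have : 0 ≤ 1 / K := by positivity
    linarith
  intro s
  induction s with
  | zero =>
    intro j k H T ξ hs h1 h2 h3
    have hk : k = 0 := by omega
    subst hk
    rw [pow_zero] at h1
    unfold Reach
    exact hit_of_small hC2 (by omega) h1
  | succ s ih =>
    intro j k H T ξ hs h1 h2 h3
    by_cases hsmall : Om C H (Cos T ξ) < 1
    · have hP := hit_of_small (a := a) (h := h) hC2 (H := H) (by omega) hsmall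
      cases k with
      | zero => unfold Reach; exact hP
      | succ k => unfold Reach; exact Or.inl hP
    · rw [not_lt] at hsmall
      have hpos : 0 < Om C H (Cos T ξ) := by linarith
      cases j with
      | zero =>
        rw [pow_zero, mul_one] at h2
        linarith
      | succ j =>
        cases k with
        | zero =>
          rw [pow_zero] at h1
          linarith
        | succ k =>
          by_cases hpop : ∃ i, Om C H (Cos T ξ) / K <
              ∑ c ∈ C.filter (fun c => Disjoint c.1 H ∧ i ∈ c.1), om (Cos T ξ) c.2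
          · obtain ⟨i, hi⟩ := hpop
            have hst := Pool.Agent.AGG.h_step hK0 hi
            have hle : Om C (insert i H) (Cos T ξ) ≤ Om C H (Cos T ξ) := by
              nlinarith
            apply ih j (k + 1) (insert i H) T ξ (by omega) (lt_of_le_of_lt hle h1)
            · calc Om C (insert i H) (Cos T ξ) * (1 - 1 / K) ^ j
                  ≤ ((1 - 1 / K) * Om C H (Cos T ξ)) * (1 - 1 / K) ^ j :=
                    mul_le_mul_of_nonneg_right hst (pow_nonneg hk0 _)
                _ = Om C H (Cos T ξ) * (1 - 1 / K) ^ (j + 1) := by ring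
                _ < 1 := h2
            · have := Finset.card_insert_le i H
              omega
          · push Not at hpop
            obtain ⟨T', hT1, hT2, hT3⟩ := v_step hq hK hK0 ha hC hpos hpop
            unfold Reach
            refine Or.inr ⟨T', hT1, hT2, fun ζ hζ => ?_⟩
            have h4 := hT3 ζ hζ
            apply ih (j + 1) k H (T ∪ T') ζ (by omega)
            · rw [pow_succ] at h1
              linarith
            · refine lt_of_le_of_lt (mul_le_mul_of_nonneg_right ?_ (pow_nonneg hk0 _)) h2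
              linarith
            · exact h3

theorem loop {r d D q h k : ℕ} {K : ℝ} (hq : D ^ 2 < q)
    (hK : (r : ℝ) * q ^ D * 2 ^ (D ^ 2) * 2 ^ q < K ^ D) (hK1 : 1 < K) {a : Finset ι → V → ℂ}
    (ha : St r a) {C : Finset (Finset ι × Finset (AddChar V ℂ))} (hC : ∀ c ∈ C, IsCert a d c)
    (hC2 : ∀ u : Finset ι, u.Nonempty → a u ≠ 0 → ∀ ξ : AddChar V ℂ,
      ev (sl a u) ξ ≠ ev (sl a ∅) ξ → ∃ c ∈ C, c.1 = u ∧ ξ ∈ c.2)
    (hk : Om C ∅ univ < (4 / 3) ^ k) (hh : Om C ∅ univ * (1 - 1 / K) ^ h < 1) :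
    ∀ ξ : AddChar V ℂ, Reach (Nb a) (q * d) (Hit a h) k ∅ ξ := by
  intro ξ
  apply d8_main hq hK hK1 ha hC hC2 (h + k) h k ∅ ∅ ξ rfl
  · rwa [Cos_empty]
  · rwa [Cos_empty]
  · simp

end Pool.Agent.AGG
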