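import Mathlib
import Pool.Agent.Lib_helper38.AGG.Defs
import Pool.Agent.Lib_helper58.XA.Main
import Pool.Agent.Lib_helper58.XA.K2a
import Pool.Agent.Lib_helper16.XA.K2c
import Pool.Agent.Lib_helper67.XA.K5
import Pool.Agent.Lib_helper10.LogRank.Cube
import Pool.Agent.Lib_helper58.AGG.C1
import Pool.Agent.Lib_helper58.AGG.C2
import Pool.Agent.Lib_helper58.AGG.D8

set_option autoImplicit false

/-! AGG, block D9: hitting -/

namespace Pool.Agent.AGG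

open Finset Filter Pool.Agent.AGG Pool.Agent.XA Pool.Agent.Lib_helper10.LogRank

/-- `M < (4/3) ^ k` -/
theorem d9_k {M L : ℝ} (hM : 0 < M) (hL : L = Real.log (4 / 3)) :
    M < (4 / 3 : ℝ) ^ (⌊Real.log M / L⌋₊ + 1) := by
  have hL0 : 0 < L := by
    rw [hL]
    exact Real.log_pos (by norm_num)
  have h1 : Real.log M / L < (⌊Real.log M / L⌋₊ : ℝ) + 1 := Nat.lt_floor_add_one _
  have h2 : Real.log M < ((⌊Real.log M / L⌋₊ + 1 : ℕ) : ℝ) * Real.log (4 / 3) := by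
    rw [← hL]
    push_cast
    rwa [div_lt_iff₀ hL0] at h1
  rw [← Real.log_pow] at h2
  exact (Real.log_lt_log_iff hM (by positivity)).mp h2

/-- `M (1 - 1 / K) ^ h < 1` -/
theorem d9_h {M K : ℝ} (hM : 0 < M) (hK : 1 < K) :
    M * (1 - 1 / K) ^ (⌊K * Real.log M⌋₊ + 1) < 1 := by
  have hK0 : 0 < K := by linarith
  set h : ℕ := ⌊K * Real.log M⌋₊ + 1 with hh
  have h1 : K * Real.log M < (h : ℝ) := by
    rw [hh]
    push_cast
    exact Nat.lt_floor_add_one _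
  have h2 : Real.log M < (h : ℝ) / K := by
    rw [lt_div_iff₀ hK0]
    linarith
  have h3 : 0 ≤ 1 - 1 / K := by
    rw [sub_nonneg, div_le_one hK0]
    exact hK.le
  have h4 : 1 - 1 / K ≤ Real.exp (-(1 / K)) := by
    have := Real.add_one_le_exp (-(1 / K))
    linarith
  have h5 : (1 - 1 / K) ^ h ≤ Real.exp (-((h : ℝ) / K)) := by
    calc (1 - 1 / K) ^ h ≤ Real.exp (-(1 / K)) ^ h := pow_le_pow_left₀ h3 h4 h
      _ = Real.exp (-((h : ℝ) / K)) := by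
          rw [← Real.exp_nat_mul]
          congr 1
          ring
  calc M * (1 - 1 / K) ^ h ≤ M * Real.exp (-((h : ℝ) / K)) :=
        mul_le_mul_of_nonneg_left h5 hM.le
    _ = Real.exp (Real.log M - (h : ℝ) / K) := by
        rw [Real.exp_sub, Real.exp_log hM, Real.exp_neg]
        rfl
    _ < 1 := by
        rw [Real.exp_lt_one_iff]
        linarith

/-- the choice of `K` -/
theorem d9_K {D q : ℕ} {δ y : ℝ} {r : ℕ} (hr : 2 ≤ r) (hD : 2 ≤ δ * D) (hy : y = (r : ℝ) ^ δ)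
    (hq : 1 ≤ q) (hD1 : 1 ≤ D) :
    (r : ℝ) * q ^ D * 2 ^ (D ^ 2) * 2 ^ q < ((q : ℝ) * 2 ^ (D + q) * y) ^ D := by
  have hr2 : (2 : ℝ) ≤ r := by exact_mod_cast hr
  have hr0 : (0 : ℝ) < r := by linarith
  have hr1 : (1 : ℝ) ≤ r := by linarith
  have hq0 : (0 : ℝ) < q := by exact_mod_cast hq
  have h1 : (r : ℝ) < y ^ D := by
    have h2 : y ^ D = (r : ℝ) ^ (δ * D) := by
      rw [hy, ← Real.rpow_natCast, ← Real.rpow_mul hr0.le]
    rw [h2]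
    calc (r : ℝ) < (r : ℝ) ^ 2 := by nlinarith
      _ = (r : ℝ) ^ (2 : ℝ) := by
          rw [← Real.rpow_natCast]
          norm_num
      _ ≤ (r : ℝ) ^ (δ * D) := Real.rpow_le_rpow_of_exponent_le hr1 hD
  have h3 : (2 : ℝ) ^ (D ^ 2) * 2 ^ q ≤ (2 ^ (D + q)) ^ D := by
    rw [← pow_add, ← pow_mul]
    apply pow_le_pow_right₀ (by norm_num)
    have : q ≤ q * D := Nat.le_mul_of_pos_right q hD1
    nlinarith
  have h4 : (0 : ℝ) < (q : ℝ) ^ D * (2 ^ (D ^ 2) * 2 ^ q) := by positivity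
  calc (r : ℝ) * q ^ D * 2 ^ (D ^ 2) * 2 ^ q = r * ((q : ℝ) ^ D * (2 ^ (D ^ 2) * 2 ^ q)) := by ring
    _ < y ^ D * ((q : ℝ) ^ D * (2 ^ (D ^ 2) * 2 ^ q)) := mul_lt_mul_of_pos_right h1 h4
    _ ≤ y ^ D * ((q : ℝ) ^ D * (2 ^ (D + q)) ^ D) := by
        have hy0 : 0 ≤ y ^ D := (hr0.trans h1).le
        apply mul_le_mul_of_nonneg_left _ hy0
        exact mul_le_mul_of_nonneg_left h3 (by positivity)
    _ = ((q : ℝ) * 2 ^ (D + q) * y) ^ D := by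
        rw [mul_pow, mul_pow]
        ring

theorem hitting {ε : ℝ} (hε : 0 < ε) : ∃ C : ℝ, 0 ≤ C ∧ ∀ r : ℕ, 2 ≤ r → ∃ d h k : ℕ,
    (d : ℝ) ≤ C * (r : ℝ) ^ ε ∧ (h : ℝ) ≤ C * (r : ℝ) ^ ε ∧ (k : ℝ) ≤ C * (r : ℝ) ^ ε ∧ 1 ≤ h ∧
    ∀ (ι : Type) [Fintype ι] [DecidableEq ι] (V : Type) [AddCommGroup V] [Fintype V]
      [DecidableEq V] (a : Finset ι → V → ℂ), St r a → ∀ ξ : AddChar V ℂ,
      Reach (Nb a) d (Hit a h) k ∅ ξ := by
  obtain ⟨δ, hδε⟩ : ∃ δ : ℝ, δ = ε / 3 := ⟨_, rfl⟩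
  have hδ : 0 < δ := by
    rw [hδε]
    positivity
  obtain ⟨C1, hC1, hcert⟩ := cert_exists no_aworld hδ
  obtain ⟨D, hDdef⟩ : ∃ D : ℕ, D = ⌈2 / δ⌉₊ + 1 := ⟨_, rfl⟩
  have hD : 2 ≤ δ * D := by
    have h1 : 2 / δ ≤ (⌈2 / δ⌉₊ : ℝ) := Nat.le_ceil _
    have h2 : (⌈2 / δ⌉₊ : ℝ) ≤ (D : ℝ) := by
      rw [hDdef]
      push_cast
      linarith
    have h3 : 2 / δ ≤ (D : ℝ) := h1.trans h2
    rw [div_le_iff₀ hδ] at h3
    linarith
  have hD1 : 1 ≤ D := by omega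
  obtain ⟨q, hqdef⟩ : ∃ q : ℕ, q = D ^ 2 + 1 := ⟨_, rfl⟩
  have hq1 : 1 ≤ q := by omega
  have hq0 : (1 : ℝ) ≤ q := by exact_mod_cast hq1
  obtain ⟨B, hB⟩ : ∃ B : ℝ, B = (q : ℝ) * 2 ^ (D + q) := ⟨_, rfl⟩
  have hB1 : 1 < B := by
    rw [hB]
    have h1 : (2 : ℝ) ^ 1 ≤ 2 ^ (D + q) := pow_le_pow_right₀ (by norm_num) (by omega)
    nlinarith
  obtain ⟨L, hL⟩ : ∃ L : ℝ, L = Real.log (4 / 3) := ⟨_, rfl⟩
  have hL0 : 0 < L := by
    rw [hL]
    exact Real.log_pos (by norm_num)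
  obtain ⟨E, hE⟩ : ∃ E : ℝ, E = (1 + 32 * C1) / δ := ⟨_, rfl⟩
  have hE0 : 0 ≤ E := by
    rw [hE]
    positivity
  have hB0 : 0 < B := by linarith
  refine ⟨2 * q * C1 + (B * E + 1) + (E / L + 1), by positivity, ?_⟩
  intro r hr
  have hr2 : (2 : ℝ) ≤ r := by exact_mod_cast hr
  have hr0 : (0 : ℝ) < r := by linarith
  have hr1 : (1 : ℝ) ≤ r := by linarith
  obtain ⟨y, hy⟩ : ∃ y : ℝ, y = (r : ℝ) ^ δ := ⟨_, rfl⟩
  have hy1 : 1 ≤ y := by
    rw [hy]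
    exact Real.one_le_rpow hr1 hδ.le
  have hy0 : 0 < y := by linarith
  have hlog : Real.log r ≤ y / δ := by
    rw [hy]
    exact Real.log_le_rpow_div hr0.le hδ
  have hlog0 : 0 ≤ Real.log r := Real.log_nonneg hr1
  have hyε : (r : ℝ) ^ ε = y ^ 3 := by
    rw [hy, ← Real.rpow_natCast, ← Real.rpow_mul hr0.le]
    congr 1
    rw [hδε]
    push_cast
    ring
  have hy13 : y ≤ y ^ 3 := by nlinarith [mul_nonneg hy0.le hy0.le]
  have hy23 : y ^ 2 ≤ y ^ 3 := by nlinarith [sq_nonneg y]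
  have hy03 : 1 ≤ y ^ 3 := hy1.trans hy13
  obtain ⟨d1, hd1⟩ : ∃ d1 : ℕ, d1 = ⌊C1 * y⌋₊ := ⟨_, rfl⟩
  have hd1' : (d1 : ℝ) ≤ C1 * y := by
    rw [hd1]
    exact Nat.floor_le (by positivity)
  obtain ⟨M, hM⟩ : ∃ M : ℝ, M = (r : ℝ) ^ (1 + 32 * d1) := ⟨_, rfl⟩
  have hM0 : 0 < M := by
    rw [hM]
    positivity
  have hlM : Real.log M ≤ E * y ^ 2 := by
    rw [hM, Real.log_pow]
    push_cast
    have h1 : (1 + 32 * (d1 : ℝ)) ≤ (1 + 32 * C1) * y := by nlinarith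
    calc (1 + 32 * (d1 : ℝ)) * Real.log r ≤ ((1 + 32 * C1) * y) * (y / δ) :=
          mul_le_mul h1 hlog hlog0 (by positivity)
      _ = E * y ^ 2 := by
          rw [hE]
          ring
  have hlM0 : 0 ≤ Real.log M := by
    rw [hM, Real.log_pow]
    positivity
  have hK1 : 1 < B * y := by nlinarith
  refine ⟨q * (2 * d1), ⌊B * y * Real.log M⌋₊ + 1, ⌊Real.log M / L⌋₊ + 1, ?_, ?_, ?_, by omega, ?_⟩
  · rw [hyε]
    push_cast
    have h1 : (q : ℝ) * (2 * (d1 : ℝ)) ≤ 2 * q * C1 * y := by nlinarith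
    have h2 : 2 * q * C1 * y ≤ 2 * q * C1 * y ^ 3 := mul_le_mul_of_nonneg_left hy13 (by positivity)
    have h3 : 0 ≤ (B * E + 1) * y ^ 3 := by positivity
    have h4 : 0 ≤ (E / L + 1) * y ^ 3 := by positivity
    nlinarith
  · rw [hyε]
    push_cast
    have h1 : (⌊B * y * Real.log M⌋₊ : ℝ) ≤ B * y * Real.log M := Nat.floor_le (by positivity)
    have h2 : B * y * Real.log M ≤ B * y * (E * y ^ 2) :=
      mul_le_mul_of_nonneg_left hlM (by positivity)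
    have h3 : B * y * (E * y ^ 2) = B * E * y ^ 3 := by ring
    have h4 : 0 ≤ (E / L + 1) * y ^ 3 := by positivity
    have h5 : 0 ≤ 2 * q * C1 * y ^ 3 := by positivity
    nlinarith
  · rw [hyε]
    push_cast
    have h1 : (⌊Real.log M / L⌋₊ : ℝ) ≤ Real.log M / L := Nat.floor_le (by positivity)
    have h2 : Real.log M / L ≤ E * y ^ 2 / L := div_le_div_of_nonneg_right hlM hL0.le
    have h3 : E * y ^ 2 / L = E / L * y ^ 2 := by ring
    have h6 : E / L * y ^ 2 ≤ E / L * y ^ 3 := mul_le_mul_of_nonneg_left hy23 (by positivity)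
    have h4 : 0 ≤ (B * E + 1) * y ^ 3 := by positivity
    have h5 : 0 ≤ 2 * q * C1 * y ^ 3 := by positivity
    nlinarith
  · intro ι _ _ V _ _ _ a ha ξ
    obtain ⟨C, hCc, hC2, hCO⟩ := cert_family (ι := ι) (V := V) (d := d1) hr
      (by
        intro F hF hc ho ξ
        obtain ⟨T, hT, h1, h2⟩ := hcert r hr V F hF hc ho ξ
        refine ⟨T, ?_, h1, h2⟩
        rw [hd1]
        apply Nat.le_floor
        rw [hy]
        exact hT) a ha
    have hOM : Om C ∅ univ ≤ M := by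
      rw [hM]
      exact hCO
    refine loop (D := D) (q := q) (K := B * y) (by omega) ?_ hK1 ha hCc hC2 ?_ ?_ ξ
    · have h1 := d9_K (q := q) hr hD hy hq1 hD1
      rw [hB]
      exact h1
    · exact lt_of_le_of_lt hOM (d9_k hM0 hL)
    · refine lt_of_le_of_lt ?_ (d9_h hM0 hK1)
      apply mul_le_mul_of_nonneg_right hOM
      apply pow_nonneg
      rw [sub_nonneg, div_le_one (by linarith)]
      exact hK1.le

end Pool.Agent.AGG
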