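import Mathlib
import Pool.Agent.Lib_helper38.AGG.Defs
import Pool.Agent.Lib_helper58.XA.Main
import Pool.Agent.Lib_helper58.XA.K2a
import Pool.Agent.Lib_helper58.AGG.A1

set_option autoImplicit false

/-! AGG, block E1: playing a gadget; values -/

namespace Pool.Agent.AGG

open Finset Filter Pool.Agent.XA Pool.Agent.Lib_helper10.LogRank Pool.Agent.AGG

variable {ι : Type} [Fintype ι] [DecidableEq ι] {V : Type} [AddCommGroup V] [Fintype V]
  [DecidableEq V] {X Y : Type}

theorem ccOn_gadget {R : X → Y → Prop} {F : X → Y → Bool} {c κ : ℕ} (π : Protocol X Y)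
    (hπ : π.cost ≤ κ) (h : ∀ b, CCOn (fun x y => R x y ∧ π.eval x y = b) F c) :
    CCOn R F (c + κ) := by
  induction π generalizing R κ with
  | leaf out =>
    refine (h out).mono (fun x y hxy => ⟨hxy, ?_⟩) (Nat.le_add_right _ _)
    rfl
  | alice bit t₀ t₁ ih₀ ih₁ =>
    rw [Protocol.cost] at hπ
    obtain ⟨κ', rfl⟩ : ∃ κ', κ = κ' + 1 := ⟨κ - 1, by omega⟩
    rw [← add_assoc]
    refine CCOn.alice bit fun b => ?_
    cases b with
    | false =>
      refine ih₀ (by omega) fun b => (h b).mono (fun x y hxy => ⟨hxy.1.1, ?_⟩) le_rfl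
      rw [Protocol.eval, hxy.1.2]
      exact hxy.2
    | true =>
      refine ih₁ (by omega) fun b => (h b).mono (fun x y hxy => ⟨hxy.1.1, ?_⟩) le_rfl
      rw [Protocol.eval, hxy.1.2]
      exact hxy.2
  | bob bit t₀ t₁ ih₀ ih₁ =>
    rw [Protocol.cost] at hπ
    obtain ⟨κ', rfl⟩ : ∃ κ', κ = κ' + 1 := ⟨κ - 1, by omega⟩
    rw [← add_assoc]
    refine CCOn.bob bit fun b => ?_
    cases b with
    | false =>
      refine ih₀ (by omega) fun b => (h b).mono (fun x y hxy => ⟨hxy.1.1, ?_⟩) le_rfl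
      rw [Protocol.eval, hxy.1.2]
      exact hxy.2
    | true =>
      refine ih₁ (by omega) fun b => (h b).mono (fun x y hxy => ⟨hxy.1.1, ?_⟩) le_rfl
      rw [Protocol.eval, hxy.1.2]
      exact hxy.2

theorem val_mono {R R' : X → Y → Prop} {F : X → Y → Bool} {z : X → Y → Finset ι}
    {a : Finset ι → V → ℂ} {ξ : X → AddChar V ℂ} {η : Y → AddChar V ℂ} (h : Val R F z a ξ η)
    (hR : ∀ x y, R' x y → R x y) : Val R' F z a ξ η :=
  fun x y hxy => h x y (hR x y hxy)

theorem val_set0 {R : X → Y → Prop} {F : X → Y → Bool} {z : X → Y → Finset ι}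
    {a : Finset ι → V → ℂ} {ξ : X → AddChar V ℂ} {η : Y → AddChar V ℂ} (h : Val R F z a ξ η)
    (i : ι) (hR : ∀ x y, R x y → i ∉ z x y) : Val R F z (set0 i a) ξ η := by
  intro x y hxy
  rw [sl_set0, erase_eq_of_notMem (hR x y hxy)]
  exact h x y hxy

theorem val_set1 {R : X → Y → Prop} {F : X → Y → Bool} {z : X → Y → Finset ι}
    {a : Finset ι → V → ℂ} {ξ : X → AddChar V ℂ} {η : Y → AddChar V ℂ} (h : Val R F z a ξ η)
    (i : ι) (hR : ∀ x y, R x y → i ∈ z x y) : Val R F z (set1 i a) ξ η := by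
  intro x y hxy
  rw [sl_set1, insert_eq_of_mem (hR x y hxy)]
  exact h x y hxy

end Pool.Agent.AGG
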