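import Mathlib
import Pool.Agent.Lib_helper38.AGG.Defs
import Pool.Agent.Lib_helper58.XA.E1g
import Pool.Agent.Lib_helper58.AGG.B1

set_option autoImplicit false
set_option linter.unusedSectionVars false

/-! AGG, block E2 -/

namespace Pool.Agent.AGG

open Finset Filter Pool.Agent.XA Pool.Agent.Lib_helper10.LogRank Pool.Agent.AGG

variable {ι : Type} [Fintype ι] [DecidableEq ι] {V : Type} [AddCommGroup V] [Fintype V]
  [DecidableEq V] {X Y : Type}

theorem e2_cos (T : Finset V) (ξ ζ : AddChar V ℂ)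
    (h : ξ.compAddMonoidHom (AddSubgroup.closure (T : Set V)).subtype =
      ζ.compAddMonoidHom (AddSubgroup.closure (T : Set V)).subtype) : ξ ∈ Cos T ζ := by
  unfold Cos
  rw [Finset.mem_filter]
  refine ⟨Finset.mem_univ _, fun t ht => ?_⟩
  exact DFunLike.congr_fun h ⟨t, AddSubgroup.subset_closure ht⟩

theorem e2_ncard {U : Type} [AddCommGroup U] [Fintype U] :
    Nat.card (AddChar U ℂ) = Nat.card U := by
  have h0 := AddChar.card_eq (α := U)
  rwa [← Nat.card_eq_fintype_card, ← Nat.card_eq_fintype_card] at h0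

theorem e2_card (T : Finset V) {B L : ℕ} (hB : ∀ t ∈ T, addOrderOf t ≤ B)
    (hL : B ^ T.card ≤ 2 ^ L) [Fintype (AddChar (AddSubgroup.closure (T : Set V)) ℂ)] :
    Fintype.card (AddChar (AddSubgroup.closure (T : Set V)) ℂ) ≤ 2 ^ L := by
  classical
  have : Fintype (AddSubgroup.closure (T : Set V)) := Fintype.ofFinite _
  have h0 := e2_ncard (U := AddSubgroup.closure (T : Set V))
  have h1 := (e1_closure T hB).trans hL
  rw [← h0, Nat.card_eq_fintype_card] at h1
  exact h1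

theorem ccOn_query {R : X → Y → Prop} {F : X → Y → Bool} {c : ℕ} (ξ : X → AddChar V ℂ)
    (η : Y → AddChar V ℂ) (T : Finset V) {B L : ℕ} (hB : ∀ t ∈ T, addOrderOf t ≤ B)
    (hL : B ^ T.card ≤ 2 ^ L)
    (h : ∀ ξ₀ η₀ : AddChar V ℂ,
      CCOn (fun x y => R x y ∧ ξ x ∈ Cos T ξ₀ ∧ η y ∈ Cos T η₀) F c) :
    CCOn R F (c + 2 * L) := by
  classical
  have e : c + 2 * L = (c + L) + L := by ring
  rw [e]
  refine sendA (fun x => (ξ x).compAddMonoidHom (AddSubgroup.closure (T : Set V)).subtype)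
    (e2_card T hB hL) fun lam => ?_
  refine sendB (fun y => (η y).compAddMonoidHom (AddSubgroup.closure (T : Set V)).subtype)
    (e2_card T hB hL) fun mu => ?_
  by_cases hx : ∃ x0, (ξ x0).compAddMonoidHom (AddSubgroup.closure (T : Set V)).subtype = lam
  · by_cases hy : ∃ y0, (η y0).compAddMonoidHom (AddSubgroup.closure (T : Set V)).subtype = mu
    · obtain ⟨x0, hx0⟩ := hx
      obtain ⟨y0, hy0⟩ := hy
      refine (h (ξ x0) (η y0)).mono (fun x y hxy => ?_) le_rfl
      obtain ⟨⟨hR, h1⟩, h2⟩ := hxy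
      exact ⟨hR, e2_cos T _ _ (h1.trans hx0.symm), e2_cos T _ _ (h2.trans hy0.symm)⟩
    · exact ⟨Protocol.leaf true, Nat.zero_le _, fun x y hxy => absurd ⟨y, hxy.2⟩ hy⟩
  · exact ⟨Protocol.leaf true, Nat.zero_le _, fun x y hxy => absurd ⟨x, hxy.1.2⟩ hx⟩

end Pool.Agent.AGG
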