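import Mathlib
import Pool.Agent.Lib_helper38.AGG.Defs
import Pool.Agent.Lib_helper58.XA.K2a
import Pool.Agent.Lib_helper16.XA.K2c
import Pool.Agent.Lib_helper67.XA.K5
import Pool.Agent.Lib_helper58.XA.Main
import Pool.Agent.Lib_helper58.AGG.B1
import Pool.Agent.Lib_helper58.AGG.E2

set_option autoImplicit false

/-! AGG, block E3: a protocol which follows `Reach` -/

namespace Pool.Agent.AGG

open Finset Filter Pool.Agent.XA Pool.Agent.Lib_helper10.LogRank Pool.Agent.AGG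

variable {ι : Type} [Fintype ι] [DecidableEq ι] {V : Type} [AddCommGroup V] [Fintype V]
  [DecidableEq V] {X Y : Type}

theorem e3_gen {R : X → Y → Prop} {F : X → Y → Bool} {c : ℕ} (ξ : X → AddChar V ℂ)
    (η : Y → AddChar V ℂ) {S : Finset V} {d B L : ℕ} (hB1 : 1 ≤ B)
    (hB : ∀ t ∈ S, addOrderOf t ≤ B)
    (hL : B ^ d ≤ 2 ^ L) {P : Finset V → AddChar V ℂ → Prop}
    (hP : ∀ (T : Finset V) (ξ₀ η₀ : AddChar V ℂ), P T (ξ₀ * η₀) →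
      CCOn (fun x y => R x y ∧ ξ x ∈ Cos T ξ₀ ∧ η y ∈ Cos T η₀) F c) (k : ℕ) :
    ∀ (T : Finset V) (ξ₀ η₀ : AddChar V ℂ), Reach S d P k T (ξ₀ * η₀) →
      CCOn (fun x y => R x y ∧ ξ x ∈ Cos T ξ₀ ∧ η y ∈ Cos T η₀) F (c + k * (2 * L)) := by
  induction k with
  | zero =>
    intro T ξ₀ η₀ h
    have h' : P T (ξ₀ * η₀) := h
    simpa using hP T ξ₀ η₀ h'
  | succ k ih =>
    intro T ξ₀ η₀ h
    have h' : P T (ξ₀ * η₀) ∨ ∃ T' ⊆ S, T'.card ≤ d ∧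
      ∀ ζ ∈ Cos T (ξ₀ * η₀), Reach S d P k (T ∪ T') ζ := h
    rcases h' with h' | ⟨T', hT', hcard, hr⟩
    · exact (hP T ξ₀ η₀ h').mono (fun _ _ hxy => hxy) (by omega)
    · have e : c + (k + 1) * (2 * L) = (c + k * (2 * L)) + 2 * L := by ring
      rw [e]
      refine ccOn_query ξ η T' (fun t ht => hB t (hT' ht))
        ((Nat.pow_le_pow_right hB1 hcard).trans hL) fun ξ₁ η₁ => ?_
      by_cases hne : ∃ x y, (R x y ∧ ξ x ∈ Cos T ξ₀ ∧ η y ∈ Cos T η₀) ∧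
          ξ x ∈ Cos T' ξ₁ ∧ η y ∈ Cos T' η₁
      · obtain ⟨x₀, y₀, ⟨_, hx, hy⟩, hx', hy'⟩ := hne
        have hre := hr (ξ x₀ * η y₀) (Cos_mul hx hy)
        refine (ih (T ∪ T') (ξ x₀) (η y₀) hre).mono (fun x y hxy => ?_) le_rfl
        obtain ⟨⟨h1, h2, h3⟩, h4, h5⟩ := hxy
        refine ⟨h1, ?_, ?_⟩
        · rw [← Cos_inter hx hx']
          exact mem_inter.2 ⟨h2, h4⟩
        · rw [← Cos_inter hy hy']
          exact mem_inter.2 ⟨h3, h5⟩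
      · exact ⟨Protocol.leaf true, Nat.zero_le _, fun x y hxy => absurd ⟨x, y, hxy⟩ hne⟩

theorem ccOn_reach {R : X → Y → Prop} {F : X → Y → Bool} {c : ℕ} (ξ : X → AddChar V ℂ)
    (η : Y → AddChar V ℂ) {S : Finset V} {d B L : ℕ} (hB1 : 1 ≤ B)
    (hB : ∀ t ∈ S, addOrderOf t ≤ B)
    (hL : B ^ d ≤ 2 ^ L) {P : Finset V → AddChar V ℂ → Prop}
    (hP : ∀ (T : Finset V) (ξ₀ η₀ : AddChar V ℂ), P T (ξ₀ * η₀) →
      CCOn (fun x y => R x y ∧ ξ x ∈ Cos T ξ₀ ∧ η y ∈ Cos T η₀) F c) (k : ℕ)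
    (h : ∀ ξ₀ : AddChar V ℂ, Reach S d P k ∅ ξ₀) : CCOn R F (c + k * (2 * L)) := by
  refine (e3_gen ξ η hB1 hB hL hP k ∅ 1 1 (h _)).mono (fun x y hxy => ⟨hxy, ?_, ?_⟩) le_rfl
  · rw [Cos_empty]; exact mem_univ _
  · rw [Cos_empty]; exact mem_univ _

end Pool.Agent.AGG
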