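import Mathlib
import Pool.Agent.Lib_helper38.AGG.Defs
import Pool.Agent.Lib_helper58.XA.Main
import Pool.Agent.Lib_helper58.XA.K2a
import Pool.Agent.Lib_helper16.XA.K2c
import Pool.Agent.Lib_helper67.XA.K5
import Pool.Agent.Lib_helper58.AGG.A1
import Pool.Agent.Lib_helper58.AGG.B1

set_option autoImplicit false

/-! AGG, block E4: values under restrictions -/

namespace Pool.Agent.AGG

open Finset Filter Pool.Agent.XA Pool.Agent.AGG Pool.Agent.Lib_helper10.LogRank

variable {ι : Type} [Fintype ι] [DecidableEq ι] {V : Type} [AddCommGroup V] [Fintype V]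
  [DecidableEq V] {X Y : Type}

/-- a character which is trivial on `T` comes from the quotient -/
theorem e4_factor (T : Finset V) (χ : AddChar V ℂ) (h : ∀ t ∈ T, χ t = 1) :
    ∃ ζ : AddChar (V ⧸ AddSubgroup.closure (T : Set V)) ℂ,
      ∀ v, ζ (QuotientAddGroup.mk' (AddSubgroup.closure (T : Set V)) v) = χ v := by
  have hker : AddSubgroup.closure (T : Set V) ≤ (AddChar.toAddMonoidHom χ).ker := by
    rw [AddSubgroup.closure_le]
    intro t ht
    rw [SetLike.mem_coe, AddMonoidHom.mem_ker]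
    have h1 := h t (Finset.mem_coe.mp ht)
    show Additive.ofMul (χ t) = 0
    rw [h1]
    rfl
  refine ⟨AddChar.toAddMonoidHomEquiv.symm (QuotientAddGroup.lift _ (AddChar.toAddMonoidHom χ)
    hker), ?_⟩
  intro v
  rfl

/-- a function with the Fourier transform `F` which is 0 has `F = 0` -/
theorem e4_inv {W : Type} [AddCommGroup W] [Fintype W] [DecidableEq W] (F : W → ℂ)
    (h : ∀ ζ : AddChar W ℂ, ev F ζ = 0) (c : W) : F c = 0 := by
  have h1 : ∑ ζ : AddChar W ℂ, ev F ζ * ζ (-c) = (Fintype.card W : ℂ) * F c := by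
    unfold ev
    calc ∑ ζ : AddChar W ℂ, (∑ d, F d * ζ d) * ζ (-c)
        = ∑ d, F d * ∑ ζ : AddChar W ℂ, ζ (d - c) := by
          simp_rw [Finset.sum_mul, Finset.mul_sum]
          rw [Finset.sum_comm]
          refine Finset.sum_congr rfl fun d _ => Finset.sum_congr rfl fun ζ _ => ?_
          rw [mul_assoc, ← AddChar.map_add_eq_mul, sub_eq_add_neg]
      _ = ∑ d, if d = c then (Fintype.card W : ℂ) * F d else 0 := by
          refine Finset.sum_congr rfl fun d _ => ?_
          rw [AddChar.sum_apply_eq_ite]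
          by_cases hd : d = c
          · rw [if_pos hd, if_pos (sub_eq_zero.mpr hd)]
            ring
          · rw [if_neg hd, if_neg (fun h => hd (sub_eq_zero.mp h)), mul_zero]
      _ = _ := by
          rw [Finset.sum_ite_eq', if_pos (Finset.mem_univ _)]
  rw [Finset.sum_eq_zero (fun ζ _ => by rw [h ζ, zero_mul])] at h1
  have h2 : (Fintype.card W : ℂ) ≠ 0 := by
    rw [Nat.cast_ne_zero]
    exact Fintype.card_ne_zero
  rcases mul_eq_zero.mp h1.symm with h3 | h3
  · exact absurd h3 h2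
  · exact h3

theorem val_push {R : X → Y → Prop} {F : X → Y → Bool} {z : X → Y → Finset ι}
    {a : Finset ι → V → ℂ} {ξ : X → AddChar V ℂ} {η : Y → AddChar V ℂ} (h : Val R F z a ξ η)
    (T : Finset V) (ξ₀ η₀ : AddChar V ℂ) :
    ∃ (W : Type) (_ : AddCommGroup W) (_ : Fintype W) (_ : DecidableEq W) (π : V →+ W)
      (ξ' : X → AddChar W ℂ) (η' : Y → AddChar W ℂ),
      Val (fun x y => R x y ∧ ξ x ∈ Cos T ξ₀ ∧ η y ∈ Cos T η₀) F z (mpush π a (ξ₀ * η₀)) ξ' η' ∧
      ∀ v, mpush π a (ξ₀ * η₀) v ≠ 0 → ∃ ζ ∈ Cos T (ξ₀ * η₀), ev (a v) ζ ≠ 0 := by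
  classical
  set U : AddSubgroup V := AddSubgroup.closure (T : Set V) with hU
  set π : V →+ V ⧸ U := QuotientAddGroup.mk' U with hπ
  -- the characters of the quotient
  have key : ∀ (ξ₁ : AddChar V ℂ) (ζ : AddChar V ℂ), ∃ ζ' : AddChar (V ⧸ U) ℂ,
      ζ ∈ Cos T ξ₁ → ∀ v, ζ v = ξ₁ v * ζ' (π v) := by
    intro ξ₁ ζ
    by_cases hm : ζ ∈ Cos T ξ₁
    · have h1 : ∀ t ∈ T, (ζ * ξ₁⁻¹) t = 1 := by
        intro t ht
        have h2 := (mem_Cos.mp hm) t ht
        rw [AddChar.mul_apply, AddChar.inv_apply, h2, ← AddChar.map_add_eq_mul, add_neg_cancel,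
          AddChar.map_zero_eq_one]
      obtain ⟨ζ', hζ'⟩ := e4_factor T (ζ * ξ₁⁻¹) h1
      refine ⟨ζ', fun _ v => ?_⟩
      have h3 : ζ' (π v) = (ζ * ξ₁⁻¹) v := hζ' v
      rw [h3, AddChar.mul_apply, AddChar.inv_apply, mul_left_comm, ← AddChar.map_add_eq_mul,
        add_neg_cancel, AddChar.map_zero_eq_one, mul_one]
    · exact ⟨1, fun h => absurd h hm⟩
  choose g hg using key
  refine ⟨V ⧸ U, inferInstance, inferInstance, inferInstance, π, fun x => g ξ₀ (ξ x),
    fun y => g η₀ (η y), ?_, ?_⟩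
  · intro x y hxy
    obtain ⟨h1, h2, h3⟩ := hxy
    rw [h x y h1, sl_mpush, ev_push]
    have h4 : ξ₀ * η₀ * (g ξ₀ (ξ x) * g η₀ (η y)).compAddMonoidHom π = ξ x * η y := by
      ext v
      rw [AddChar.mul_apply, AddChar.mul_apply, AddChar.compAddMonoidHom_apply, AddChar.mul_apply,
        AddChar.mul_apply, hg ξ₀ (ξ x) h2 v, hg η₀ (η y) h3 v]
      ring
    rw [h4]
  · intro v hv
    by_contra hcon
    apply hv
    funext c
    apply e4_inv
    intro ζ
    by_contra hne
    apply hcon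
    refine ⟨ξ₀ * η₀ * ζ.compAddMonoidHom π, ?_, ?_⟩
    · rw [mem_Cos]
      intro t ht
      have h1 : π t = 0 := by
        rw [hπ, QuotientAddGroup.mk'_apply, QuotientAddGroup.eq_zero_iff]
        exact AddSubgroup.subset_closure (Finset.mem_coe.mpr ht)
      rw [AddChar.mul_apply, AddChar.compAddMonoidHom_apply, h1, AddChar.map_zero_eq_one, mul_one]
    · unfold mpush at hne
      rw [ev_push] at hne
      exact hne

end Pool.Agent.AGG
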