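import Mathlib
import Pool.Agent.Lib_helper38.AGG.Defs
import Pool.Agent.Lib_helper30.XA.E2
import Pool.Agent.Lib_helper58.XA.Main
import Pool.Agent.Lib_helper58.XA.K2a
import Pool.Agent.Lib_helper58.AGG.A1
import Pool.Agent.Lib_helper58.AGG.A2a
import Pool.Agent.Lib_helper58.AGG.A2b

set_option autoImplicit false

/-! AGG, block E5 (helper87): the base case of the protocol -/

namespace Pool.Agent.AGG

open Finset Filter Pool.Agent.XA Pool.Agent.Lib_helper10.LogRank Pool.Agent.AGG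

theorem e5_sl {ι : Type} [Fintype ι] [DecidableEq ι] {V : Type} [AddCommGroup V] [Fintype V]
    [DecidableEq V] (a : Finset ι → V → ℂ) (h0 : ∀ v : Finset ι, v.Nonempty → a v = 0)
    (z : Finset ι) : sl a z = a ∅ := by
  funext χ
  unfold sl
  rw [Finset.sum_eq_single ∅]
  · intro u _ hu
    rw [h0 u (Finset.nonempty_iff_ne_empty.2 hu)]
    rfl
  · intro h
    exact absurd (Finset.empty_mem_powerset z) h

theorem e5_push {V : Type} [AddCommGroup V] [Fintype V] [DecidableEq V] (F : V → ℂ)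
    (η : AddChar V ℂ) (q : V) : push (AddMonoidHom.id V) F η q = F q * η q := by
  unfold push
  simp

theorem ccOn_base {ε : ℝ} (hε : 0 < ε) : ∃ C : ℝ, 0 ≤ C ∧ ∀ r : ℕ, 2 ≤ r →
    ∀ (ι : Type) [Fintype ι] [DecidableEq ι] (V : Type) [AddCommGroup V] [Fintype V]
      [DecidableEq V] (X Y : Type) (R : X → Y → Prop) (F : X → Y → Bool)
      (z : X → Y → Finset ι) (a : Finset ι → V → ℂ) (ξ : X → AddChar V ℂ) (η : Y → AddChar V ℂ),
      St r a → (∀ v : Finset ι, v.Nonempty → a v = 0) → Val R F z a ξ η →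
      CCOn R F ⌊C * (r : ℝ) ^ ε⌋₊ := by
  obtain ⟨C, hC, hg⟩ := eval_game no_aworld hε
  refine ⟨C, hC, ?_⟩
  intro r hr ι _ _ V _ _ _ X Y R F z a ξ η hSt h0 hVal
  have hbf : BF (a ∅) := by
    have := hSt.mix ∅
    rwa [e5_sl a h0] at this
  obtain ⟨π, hπ, hc⟩ := hg r hr V (chs a) ((card_chs a).trans hSt.nz)
    (by
      intro c hc
      obtain ⟨u, hu⟩ := mem_chs.1 hc
      exact hSt.ord u c hu)
    X Y ξ (fun y => push (AddMonoidHom.id V) (a ∅) (η y))
    (fun y => push_bf hbf _ _)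
    (by
      intro y c hc
      rw [e5_push] at hc
      exact mem_chs.2 ⟨∅, left_ne_zero_of_mul hc⟩)
  refine ⟨π, Nat.le_floor hc, ?_⟩
  intro x y hxy
  rw [hπ, hVal x y hxy, e5_sl a h0]
  have : ev (push (AddMonoidHom.id V) (a ∅) (η y)) (ξ x) = ev (a ∅) (ξ x * η y) := by
    unfold ev
    refine Finset.sum_congr rfl fun c _ => ?_
    rw [e5_push, AddChar.mul_apply]
    ring
  rw [this]

end Pool.Agent.AGG
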