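import Mathlib
import Pool.Agent.Lib_helper38.AGG.Defs

set_option autoImplicit false

/-! AGG, E6: sending the first coordinate of a list which is 0 (helper14) -/

namespace Pool.Agent.AGG

open Finset Filter Pool.Agent.XA Pool.Agent.Lib_helper10.LogRank Pool.Agent.AGG

variable {ι : Type} [Fintype ι] [DecidableEq ι] {X Y : Type}

theorem ccOn_list {R : X → Y → Prop} {F : X → Y → Bool} {c : ℕ} (L : List ι)
    (z : X → Y → Finset ι) {m : ℕ} (hL : L.length ≤ m)
    (hA : ∀ i ∈ L, ∃ (P : X → Bool) (Q : Y → Bool), ∀ x y, i ∈ z x y ↔ P x = true ∧ Q y = true)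
    (hex : ∀ L₁ i L₂, L = L₁ ++ i :: L₂ →
      CCOn (fun x y => R x y ∧ (∀ j ∈ L₁, j ∈ z x y) ∧ i ∉ z x y) F c)
    (hall : CCOn (fun x y => R x y ∧ ∀ j ∈ L, j ∈ z x y) F c) :
    CCOn R F (c + 2 * Nat.clog 2 (m + 1)) := by
  have hA' : ∀ i, ∃ PQ : (X → Bool) × (Y → Bool), i ∈ L → ∀ x y,
      i ∈ z x y ↔ PQ.1 x = true ∧ PQ.2 y = true := by
    intro i
    by_cases hi : i ∈ L
    · obtain ⟨P, Q, h⟩ := hA i hi
      exact ⟨(P, Q), fun _ => h⟩
    · exact ⟨(fun _ => true, fun _ => true), fun h => absurd h hi⟩
  choose PQ hPQ using hA'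
  have hlen : ∀ p : ι → Bool, L.findIdx p < 2 ^ Nat.clog 2 (m + 1) := by
    intro p
    have h1 : L.findIdx p ≤ L.length := List.findIdx_le_length
    have h2 : m + 1 ≤ 2 ^ Nat.clog 2 (m + 1) := Nat.le_pow_clog (by norm_num) _
    omega
  have hmain : CCOn R F (c + Nat.clog 2 (m + 1) + Nat.clog 2 (m + 1)) := by
    refine sendA_nat (X := X) (Y := Y) (R := R) (F := F) (Nat.clog 2 (m + 1)) R
      (fun x => L.findIdx (fun i => !(PQ i).1 x)) (fun x => hlen _) fun j => ?_
    refine sendB_nat (X := X) (Y := Y) (R := R) (F := F) (Nat.clog 2 (m + 1)) _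
      (fun y => L.findIdx (fun i => !(PQ i).2 y)) (fun y => hlen _) fun k => ?_
    by_cases hjk : min j k < L.length
    · have hsplit : L = L.take (min j k) ++ L[min j k] :: L.drop (min j k + 1) := by
        rw [List.getElem_cons_drop, List.take_append_drop]
      refine CCOn.mono ?_ le_rfl (hex _ _ _ hsplit)
      rintro x y ⟨⟨hR, hj⟩, hk⟩
      refine ⟨hR, ?_, ?_⟩
      · intro i hi
        obtain ⟨n, hn, rfl⟩ := List.mem_iff_getElem.1 hi
        have hn' : n < min j k := by
          have := List.length_take_le (min j k) L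
          omega
        have hnL : n < L.length := hn'.trans hjk
        have hget : (L.take (min j k))[n] = L[n] := by simp
        rw [hget]
        refine (hPQ _ (List.getElem_mem _) x y).2 ⟨?_, ?_⟩
        · have h := List.not_of_lt_findIdx (p := fun i => !(PQ i).1 x) (xs := L) (i := n)
            (by rw [hj]; omega)
          simpa using h
        · have h := List.not_of_lt_findIdx (p := fun i => !(PQ i).2 y) (xs := L) (i := n)
            (by rw [hk]; omega)
          simpa using h
      · intro hmem
        have h := (hPQ _ (List.getElem_mem _) x y).1 hmem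
        rcases le_total j k with hle | hle
        · have hmin : min j k = j := min_eq_left hle
          have hjL : L.findIdx (fun i => !(PQ i).1 x) < L.length := by
            rw [hj]; omega
          have h2 := List.findIdx_getElem (p := fun i => !(PQ i).1 x) (xs := L) (w := hjL)
          have h3 : L[L.findIdx (fun i => !(PQ i).1 x)] = L[min j k] := by
            congr 1; rw [hj, hmin]
          rw [h3] at h2
          simp [h.1] at h2
        · have hmin : min j k = k := min_eq_right hle
          have hkL : L.findIdx (fun i => !(PQ i).2 y) < L.length := by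
            rw [hk]; omega
          have h2 := List.findIdx_getElem (p := fun i => !(PQ i).2 y) (xs := L) (w := hkL)
          have h3 : L[L.findIdx (fun i => !(PQ i).2 y)] = L[min j k] := by
            congr 1; rw [hk, hmin]
          rw [h3] at h2
          simp [h.2] at h2
    · refine CCOn.mono ?_ le_rfl hall
      rintro x y ⟨⟨hR, hj⟩, hk⟩
      refine ⟨hR, fun i hi => ?_⟩
      obtain ⟨n, hn, rfl⟩ := List.mem_iff_getElem.1 hi
      have hnj : n < min j k := by omega
      refine (hPQ _ (List.getElem_mem _) x y).2 ⟨?_, ?_⟩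
      · have h := List.not_of_lt_findIdx (p := fun i => !(PQ i).1 x) (xs := L) (i := n)
          (by rw [hj]; omega)
        simpa using h
      · have h := List.not_of_lt_findIdx (p := fun i => !(PQ i).2 y) (xs := L) (i := n)
          (by rw [hk]; omega)
        simpa using h
  have he : c + 2 * Nat.clog 2 (m + 1) = c + Nat.clog 2 (m + 1) + Nat.clog 2 (m + 1) := by ring
  rw [he]
  exact hmain

end Pool.Agent.AGG
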