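import Mathlib
import Pool.Agent.Lib_helper38.AGG.Defs
import Pool.Agent.Lib_helper58.XA.Main
import Pool.Agent.Lib_helper58.XA.K2a
import Pool.Agent.Lib_helper58.AGG.A1
import Pool.Agent.Lib_helper58.AGG.A2a
import Pool.Agent.Lib_helper58.AGG.A2b
import Pool.Agent.Lib_helper58.AGG.A3a
import Pool.Agent.Lib_helper58.AGG.A3b
import Pool.Agent.Lib_helper58.AGG.E1
import Pool.Agent.Lib_helper58.AGG.E3
import Pool.Agent.Lib_helper58.AGG.E4
import Pool.Agent.Lib_helper58.AGG.E6

set_option autoImplicit false

/-! AG, block E7: one run -/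

namespace Pool.Agent.AGG

open Finset Filter Pool.Agent.XA Pool.Agent.Lib_helper10.LogRank Pool.Agent.AGG

variable {ι : Type} [Fintype ι] [DecidableEq ι] {V : Type} [AddCommGroup V] [Fintype V]
  [DecidableEq V] {X Y : Type}

theorem e7_zero {r κ m cB : ℕ} {N : Finset ι} {z : X → Y → Finset ι} (hG : Gad N κ z)
    (hm : Nᶜ.card ≤ m) {F : X → Y → Bool}
    (hbase : ∀ (V : Type) [AddCommGroup V] [Fintype V] [DecidableEq V] (R : X → Y → Prop)
      (a : Finset ι → V → ℂ) (ξ : X → AddChar V ℂ) (η : Y → AddChar V ℂ), St r a →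
      (∀ v : Finset ι, v.Nonempty → a v = 0) → Val R F z a ξ η → CCOn R F cB)
    {c₀ : ℕ} {R : X → Y → Prop} {a : Finset ι → V → ℂ} {ξ : X → AddChar V ℂ}
    {η : Y → AddChar V ℂ} {Ls : List ι} (hSt : St r a)
    (hVal : Val (fun x y => R x y ∧ ∀ i ∈ Ls, i ∈ z x y) F z a ξ η) (hnd : Ls.Nodup)
    (hLN : ∀ i ∈ Ls, i ∉ N)
    (hex : ∀ L₁ i L₂, Ls = L₁ ++ i :: L₂ →
        CCOn (fun x y => R x y ∧ (∀ l ∈ L₁, l ∈ z x y) ∧ i ∉ z x y) F c₀)
    (hw : wt N a (fun _ => True) = 0) :
    CCOn R F (c₀ + cB + 2 * Nat.clog 2 (m + 1)) := by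
  refine ccOn_list (c := c₀ + cB) Ls z (m := m) ?_ ?_ ?_ ?_
  · have hsub : Ls.toFinset ⊆ Nᶜ := by
      intro i hi
      rw [List.mem_toFinset] at hi
      rw [mem_compl]
      exact hLN i hi
    calc Ls.length = Ls.toFinset.card := (List.toFinset_card_of_nodup hnd).symm
      _ ≤ Nᶜ.card := card_le_card hsub
      _ ≤ m := hm
  · intro i hi
    exact hG.notN i (hLN i hi)
  · intro L₁ i L₂ h
    exact (hex L₁ i L₂ h).mono (fun _ _ h => h) (by omega)
  · exact (hbase V _ a ξ η hSt (fun v hv => wt_zero hw v hv) hVal).mono (fun _ _ h => h) (by omega)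

theorem e7_real {w w' sh h t : ℕ} (hh : 1 ≤ h) (h1 : 2 * w' + sh ≤ 2 * w) (h2 : w ≤ 2 * h * sh)
    (h3 : (w : ℝ) * (1 - 1 / (4 * h)) ^ (t + 1) < 1) :
    (w' : ℝ) * (1 - 1 / (4 * h)) ^ t < 1 := by
  have hh' : (1 : ℝ) ≤ h := by exact_mod_cast hh
  have h1' : (2 : ℝ) * w' + sh ≤ 2 * w := by exact_mod_cast h1
  have h2' : (w : ℝ) ≤ 2 * h * sh := by exact_mod_cast h2
  have h4 : (0 : ℝ) ≤ 1 - 1 / (4 * h) := by
    have : (1 : ℝ) / (4 * h) ≤ 1 := by
      rw [div_le_one (by linarith)]
      linarith
    linarith
  have h5 : (w' : ℝ) ≤ w * (1 - 1 / (4 * h)) := by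
    have h6 : (w : ℝ) / (4 * h) ≤ sh / 2 := by
      rw [div_le_iff₀ (by linarith)]
      nlinarith
    have h7 : (w : ℝ) * (1 - 1 / (4 * h)) = w - w / (4 * h) := by
      ring
    rw [h7]
    linarith
  calc (w' : ℝ) * (1 - 1 / (4 * h)) ^ t ≤ w * (1 - 1 / (4 * h)) * (1 - 1 / (4 * h)) ^ t :=
        mul_le_mul_of_nonneg_right h5 (pow_nonneg h4 _)
    _ = (w : ℝ) * (1 - 1 / (4 * h)) ^ (t + 1) := by ring
    _ < 1 := h3

theorem run {r d h k κ m cB L : ℕ} (hr : 2 ≤ r) (hh : 1 ≤ h) {N : Finset ι}
    {z : X → Y → Finset ι} (hG : Gad N κ z) (hm : Nᶜ.card ≤ m) {F : X → Y → Bool}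
    (hL : (r ^ 6) ^ d ≤ 2 ^ L)
    (hV : ∀ (V : Type) [AddCommGroup V] [Fintype V] [DecidableEq V] (a : Finset ι → V → ℂ),
      St r a → ∀ ξ : AddChar V ℂ, Reach (Nb a) d (Hit a h) k ∅ ξ)
    (hbase : ∀ (V : Type) [AddCommGroup V] [Fintype V] [DecidableEq V] (R : X → Y → Prop)
      (a : Finset ι → V → ℂ) (ξ : X → AddChar V ℂ) (η : Y → AddChar V ℂ), St r a →
      (∀ v : Finset ι, v.Nonempty → a v = 0) → Val R F z a ξ η → CCOn R F cB)
    {c₀ w₀ : ℕ}
    (hout : ∀ (V : Type) [AddCommGroup V] [Fintype V] [DecidableEq V] (R : X → Y → Prop)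
      (a : Finset ι → V → ℂ) (ξ : X → AddChar V ℂ) (η : Y → AddChar V ℂ), St r a →
      Val R F z a ξ η → 2 * h * wt N a (fun _ => True) ≤ (2 * h - 1) * w₀ → CCOn R F c₀)
    (s : ℕ) : ∀ (n t j : ℕ), n + t + j ≤ s → ∀ (V : Type) [AddCommGroup V] [Fintype V]
      [DecidableEq V] (R : X → Y → Prop) (a : Finset ι → V → ℂ) (ξ : X → AddChar V ℂ)
      (η : Y → AddChar V ℂ) (Ls : List ι), St r a →
      Val (fun x y => R x y ∧ ∀ i ∈ Ls, i ∈ z x y) F z a ξ η → Ls.Nodup → (∀ i ∈ Ls, i ∉ N) →
      (∀ i ∈ Ls, i ∉ act a) →
      (∀ L₁ i L₂, Ls = L₁ ++ i :: L₂ →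
        CCOn (fun x y => R x y ∧ (∀ l ∈ L₁, l ∈ z x y) ∧ i ∉ z x y) F c₀) →
      wt N a (fun _ => True) ≤ w₀ → wt N a (fun _ => True) < 2 ^ j →
      (wt N a (fun _ => True) : ℝ) * (1 - 1 / (4 * h)) ^ t < 1 → (act a).card ≤ n →
      CCOn R F (c₀ + cB + 2 * Nat.clog 2 (m + 1) + j * (k * (2 * L)) + t * κ) := by
  induction s with
  | zero =>
    intro n t j hs V _ _ _ R a ξ η Ls hSt hVal hnd hLN hLa hex hw0 hwj hwt hact
    have hj : j = 0 := by omega
    subst hj
    have hw : wt N a (fun _ => True) = 0 := by
      rw [pow_zero] at hwj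
      omega
    exact (e7_zero hG hm hbase hSt hVal hnd hLN hex hw).mono (fun _ _ h => h)
      ((Nat.le_add_right _ _).trans (Nat.le_add_right _ _))
  | succ s ih =>
    intro n t j hs V _ _ _ R a ξ η Ls hSt hVal hnd hLN hLa hex hw0 hwj hwt hact
    by_cases hw : wt N a (fun _ => True) = 0
    · exact (e7_zero hG hm hbase hSt hVal hnd hLN hex hw).mono (fun _ _ h => h)
        ((Nat.le_add_right _ _).trans (Nat.le_add_right _ _))
    have hwpos : 0 < wt N a (fun _ => True) := Nat.pos_of_ne_zero hw
    by_cases hi : ∃ i, wt N a (fun _ => True) ≤ 2 * h * wt N a (fun v => i ∈ v)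
    · obtain ⟨i, hi⟩ := hi
      have hsh : 0 < wt N a (fun v => i ∈ v) := by
        rcases Nat.eq_zero_or_pos (wt N a (fun v => i ∈ v)) with h0 | h0
        · rw [h0, mul_zero] at hi
          omega
        · exact h0
      have hia : i ∈ act a := act_of_wt hsh
      by_cases hiN : i ∈ N
      · -- the gadget is played
        have ht : t ≠ 0 := by
          rintro rfl
          rw [pow_zero, mul_one] at hwt
          have : wt N a (fun _ => True) < 1 := by exact_mod_cast hwt
          omega
        obtain ⟨t', rfl⟩ := Nat.exists_eq_succ_of_ne_zero ht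
        obtain ⟨π, hπc, hπe⟩ := hG.inN i hiN
        have hkey : ∀ b : Bool, CCOn (fun x y => R x y ∧ π.eval x y = b) F
            (c₀ + cB + 2 * Nat.clog 2 (m + 1) + j * (k * (2 * L)) + t' * κ) := by
          intro b
          cases b with
          | false =>
            have hz : ∀ x y, (R x y ∧ π.eval x y = false) → i ∉ z x y := by
              intro x y hxy
              have := hπe x y
              rw [hxy.2] at this
              simpa using this.symm
            refine ih n t' j (by omega) V (fun x y => R x y ∧ π.eval x y = false) (set0 i a) ξ η Ls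
              (st_set0 hSt) ?_ hnd hLN ?_ ?_ ?_ ?_ ?_ ?_
            · exact val_set0 (val_mono hVal fun x y hxy => ⟨hxy.1.1, hxy.2⟩) i
                fun x y hxy => hz x y hxy.1
            · intro l hl hl'
              exact hLa l hl (mem_of_mem_erase (act_set0 i a hl'))
            · intro L₁ i' L₂ hLs
              exact (hex L₁ i' L₂ hLs).mono (fun x y hxy => ⟨hxy.1.1, hxy.2⟩) le_rfl
            · have := wt_set0 N i a
              omega
            · have := wt_set0 N i a
              omega
            · have := wt_set0 N i a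
              refine e7_real hh (sh := wt N a (fun v => i ∈ v)) ?_ hi hwt
              omega
            · exact (card_le_card ((act_set0 i a).trans (erase_subset _ _))).trans hact
          | true =>
            have hz : ∀ x y, (R x y ∧ π.eval x y = true) → i ∈ z x y := by
              intro x y hxy
              have := hπe x y
              rw [hxy.2] at this
              simpa using this.symm
            refine ih n t' j (by omega) V (fun x y => R x y ∧ π.eval x y = true) (set1 i a) ξ η Ls
              (st_set1 hSt) ?_ hnd hLN ?_ ?_ ?_ ?_ ?_ ?_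
            · exact val_set1 (val_mono hVal fun x y hxy => ⟨hxy.1.1, hxy.2⟩) i
                fun x y hxy => hz x y hxy.1
            · intro l hl hl'
              exact hLa l hl (mem_of_mem_erase (act_set1 i a hl'))
            · intro L₁ i' L₂ hLs
              exact (hex L₁ i' L₂ hLs).mono (fun x y hxy => ⟨hxy.1.1, hxy.2⟩) le_rfl
            · have := wt_set1 N i a
              omega
            · have := wt_set1 N i a
              omega
            · exact e7_real hh (sh := wt N a (fun v => i ∈ v)) (wt_set1_mem hiN a) hi hwt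
            · exact (card_le_card ((act_set1 i a).trans (erase_subset _ _))).trans hact
        refine (ccOn_gadget π hπc hkey).mono (fun _ _ h => h) (le_of_eq ?_)
        rw [Nat.succ_eq_add_one]
        ring
      · -- the coordinate is appended to the list
        have hn : n ≠ 0 := by
          rintro rfl
          rw [Nat.le_zero, card_eq_zero] at hact
          rw [hact] at hia
          exact notMem_empty _ hia
        obtain ⟨n', rfl⟩ := Nat.exists_eq_succ_of_ne_zero hn
        refine ih n' t j (by omega) V R (set1 i a) ξ η (Ls ++ [i]) (st_set1 hSt) ?_ ?_ ?_ ?_ ?_ ?_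
          ?_ ?_ ?_
        · exact val_set1 (val_mono hVal fun x y hxy =>
            ⟨hxy.1, fun l hl => hxy.2 l (List.mem_append_left _ hl)⟩) i
            fun x y hxy => hxy.2 i (List.mem_append_right _ (List.mem_singleton_self i))
        · rw [List.nodup_append]
          refine ⟨hnd, List.nodup_singleton i, ?_⟩
          intro l hl l' hl' hll
          rw [List.mem_singleton] at hl'
          subst hl'
          subst hll
          exact hLa _ hl hia
        · intro l hl
          rw [List.mem_append, List.mem_singleton] at hl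
          rcases hl with hl | rfl
          · exact hLN l hl
          · exact hiN
        · intro l hl hl'
          have h1 := act_set1 i a hl'
          rw [List.mem_append, List.mem_singleton] at hl
          rcases hl with hl | rfl
          · exact hLa l hl (mem_of_mem_erase h1)
          · exact notMem_erase _ _ h1
        · intro L₁ i' L₂ hLs
          rcases List.eq_nil_or_concat L₂ with rfl | ⟨L₃, b, rfl⟩
          · have h1 : Ls ++ [i] = L₁ ++ [i'] := hLs
            obtain ⟨h2, h3⟩ := List.append_inj' h1 rfl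
            rw [List.cons.injEq] at h3
            obtain ⟨h3, -⟩ := h3
            subst h2
            subst h3
            refine hout V _ (set0 i a) ξ η (st_set0 hSt) ?_ ?_
            · exact val_set0 (val_mono hVal fun x y hxy => ⟨hxy.1, hxy.2.1⟩) i
                fun x y hxy => hxy.2.2
            · have h4 := wt_set0 N i a
              have h5 : 2 * h * wt N (set0 i a) (fun _ => True) + wt N a (fun _ => True) ≤
                  2 * h * wt N a (fun _ => True) := by
                calc 2 * h * wt N (set0 i a) (fun _ => True) + wt N a (fun _ => True)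
                    ≤ 2 * h * wt N (set0 i a) (fun _ => True) + 2 * h * wt N a (fun v => i ∈ v) :=
                      Nat.add_le_add_left hi _
                  _ = 2 * h * (wt N (set0 i a) (fun _ => True) + wt N a (fun v => i ∈ v)) := by
                      ring
                  _ ≤ 2 * h * wt N a (fun _ => True) := Nat.mul_le_mul_left _ h4
              have h6 : 2 * h * wt N a (fun _ => True) =
                  (2 * h - 1) * wt N a (fun _ => True) + wt N a (fun _ => True) := by
                conv_lhs => rw [show 2 * h = (2 * h - 1) + 1 by omega]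
                ring
              have h7 : 2 * h * wt N (set0 i a) (fun _ => True) ≤
                  (2 * h - 1) * wt N a (fun _ => True) := by omega
              exact h7.trans (Nat.mul_le_mul_left _ hw0)
          · have h1 : Ls ++ [i] = (L₁ ++ i' :: L₃) ++ [b] := by
              rw [hLs]
              simp
            obtain ⟨h2, h3⟩ := List.append_inj' h1 rfl
            exact hex L₁ i' L₃ h2
        · exact (wt_set1 N i a).trans hw0
        · exact (wt_set1 N i a).trans_lt hwj
        · have h1 : (wt N (set1 i a) (fun _ => True) : ℝ) ≤ wt N a (fun _ => True) := by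
            exact_mod_cast wt_set1 N i a
          have hh' : (1 : ℝ) ≤ h := by exact_mod_cast hh
          have h4 : (0 : ℝ) ≤ 1 - 1 / (4 * h) := by
            have : (1 : ℝ) / (4 * h) ≤ 1 := by
              rw [div_le_one (by linarith)]
              linarith
            linarith
          exact (mul_le_mul_of_nonneg_right h1 (pow_nonneg h4 _)).trans_lt hwt
        · have h1 := card_le_card (act_set1 i a)
          rw [card_erase_of_mem hia] at h1
          omega
    · -- the step in the group
      have hi' : ∀ i, 2 * h * wt N a (fun v => i ∈ v) < wt N a (fun _ => True) := by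
        intro i
        by_contra hc
        exact hi ⟨i, not_lt.1 hc⟩
      have hj : j ≠ 0 := by
        rintro rfl
        rw [pow_zero] at hwj
        omega
      obtain ⟨j', rfl⟩ := Nat.exists_eq_succ_of_ne_zero hj
      have hreach := ccOn_reach (R := R) (F := F)
        (c := c₀ + cB + 2 * Nat.clog 2 (m + 1) + j' * (k * (2 * L)) + t * κ) ξ η (S := Nb a)
        (d := d) (B := r ^ 6) (L := L) (Nat.one_le_pow _ _ (by omega)) (ord_Nb hr hSt) hL
        (P := Hit a h) ?_ k (hV V a hSt)
      · refine hreach.mono (fun _ _ h => h) (le_of_eq ?_)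
        rw [Nat.succ_eq_add_one]
        ring
      · intro T ξ₀ η₀ hHit
        obtain ⟨H, hHc, hH⟩ := hHit
        obtain ⟨W, _, _, _, π, ξ', η', hVal', hne⟩ := val_push hVal T ξ₀ η₀
        have hwt' : 2 * wt N (mpush π a (ξ₀ * η₀)) (fun _ => True) ≤ wt N a (fun _ => True) := by
          have h1 := wt_mpush N π a (ξ₀ * η₀)
          have h2 := wt_hit N a (fun v => mpush π a (ξ₀ * η₀) v ≠ 0) H
            (fun v hv hv' => hH v hv (hne v hv'))
          have h3 : 2 * h * ∑ i ∈ H, wt N a (fun v => i ∈ v) ≤ h * wt N a (fun _ => True) := by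
            rw [Finset.mul_sum]
            calc ∑ i ∈ H, 2 * h * wt N a (fun v => i ∈ v)
                ≤ ∑ _i ∈ H, wt N a (fun _ => True) := sum_le_sum fun i _ => (hi' i).le
              _ = H.card * wt N a (fun _ => True) := by
                  rw [sum_const, smul_eq_mul]
              _ ≤ h * wt N a (fun _ => True) := Nat.mul_le_mul_right _ hHc
          have h4 : h * (2 * wt N (mpush π a (ξ₀ * η₀)) (fun _ => True)) ≤
              h * wt N a (fun _ => True) := by
            calc h * (2 * wt N (mpush π a (ξ₀ * η₀)) (fun _ => True))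
                = 2 * h * wt N (mpush π a (ξ₀ * η₀)) (fun _ => True) := by ring
              _ ≤ 2 * h * ∑ i ∈ H, wt N a (fun v => i ∈ v) :=
                  Nat.mul_le_mul_left _ (h1.trans h2)
              _ ≤ h * wt N a (fun _ => True) := h3
          exact Nat.le_of_mul_le_mul_left h4 (by omega)
        refine ih n t j' (by omega) W (fun x y => R x y ∧ ξ x ∈ Cos T ξ₀ ∧ η y ∈ Cos T η₀)
          (mpush π a (ξ₀ * η₀)) ξ' η' Ls (st_mpush hSt π _) ?_ hnd hLN ?_ ?_ ?_ ?_ ?_ ?_
        · exact val_mono hVal' fun x y hxy => ⟨⟨hxy.1.1, hxy.2⟩, hxy.1.2⟩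
        · intro l hl hl'
          exact hLa l hl (act_mpush π a _ hl')
        · intro L₁ i' L₂ hLs
          exact (hex L₁ i' L₂ hLs).mono (fun x y hxy => ⟨hxy.1.1, hxy.2⟩) le_rfl
        · omega
        · rw [Nat.succ_eq_add_one, pow_succ] at hwj
          omega
        · have h1 : (wt N (mpush π a (ξ₀ * η₀)) (fun _ => True) : ℝ) ≤
              wt N a (fun _ => True) := by
            have : wt N (mpush π a (ξ₀ * η₀)) (fun _ => True) ≤ wt N a (fun _ => True) := by omega
            exact_mod_cast this
          have hh' : (1 : ℝ) ≤ h := by exact_mod_cast hh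
          have h4 : (0 : ℝ) ≤ 1 - 1 / (4 * h) := by
            have : (1 : ℝ) / (4 * h) ≤ 1 := by
              rw [div_le_one (by linarith)]
              linarith
            linarith
          exact (mul_le_mul_of_nonneg_right h1 (pow_nonneg h4 _)).trans_lt hwt
        · exact (card_le_card (act_mpush π a _)).trans hact

end Pool.Agent.AGG
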