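import Mathlib
import Pool.Agent.Lib_helper38.AGG.Defs
import Pool.Agent.Lib_helper58.XA.K2a
import Pool.Agent.Lib_helper58.XA.Main
import Pool.Agent.Lib_helper58.AGG.A3b
import Pool.Agent.Lib_helper58.AGG.E7

set_option autoImplicit false

/-! AGG, block E8: all runs -/

namespace Pool.Agent.AGG

open Finset Filter Pool.Agent.XA Pool.Agent.Lib_helper10.LogRank Pool.Agent.AGG

variable {ι : Type} [Fintype ι] [DecidableEq ι] {V : Type} [AddCommGroup V] [Fintype V]
  [DecidableEq V] {X Y : Type}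

theorem e8_pow {h : ℕ} (hh : 1 ≤ h) {s a w₀ : ℕ} (ha : 2 * h * a ≤ (2 * h - 1) * w₀)
    (hw : (w₀ : ℝ) * (1 - 1 / (2 * h)) ^ (s + 1) < 1) :
    (a : ℝ) * (1 - 1 / (2 * h)) ^ s < 1 := by
  have hh0 : (1 : ℝ) ≤ h := by exact_mod_cast hh
  have hpos : (0 : ℝ) < 2 * h := by linarith
  have hq : (0 : ℝ) ≤ 1 - 1 / (2 * (h : ℝ)) := by
    have : 1 / (2 * (h : ℝ)) ≤ 1 := by
      rw [div_le_one hpos]; linarith
    linarith
  have ha' : (2 * (h : ℝ)) * a ≤ (2 * h - 1) * w₀ := by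
    have h1 : ((2 * h * a : ℕ) : ℝ) ≤ (((2 * h - 1) * w₀ : ℕ) : ℝ) := by exact_mod_cast ha
    rw [Nat.cast_mul, Nat.cast_mul, Nat.cast_mul, Nat.cast_sub (by omega)] at h1
    push_cast at h1
    exact h1
  have ha2 : (a : ℝ) ≤ (1 - 1 / (2 * h)) * w₀ := by
    have h2 : (1 - 1 / (2 * (h : ℝ))) * w₀ = ((2 * h - 1) * w₀) / (2 * h) := by
      field_simp
    rw [h2, le_div_iff₀ hpos]
    linarith
  calc (a : ℝ) * (1 - 1 / (2 * h)) ^ s
      ≤ ((1 - 1 / (2 * h)) * w₀) * (1 - 1 / (2 * h)) ^ s :=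
        mul_le_mul_of_nonneg_right ha2 (pow_nonneg hq s)
    _ = (w₀ : ℝ) * (1 - 1 / (2 * h)) ^ (s + 1) := by ring
    _ < 1 := hw

theorem runs {r d h k κ m cB L w j t : ℕ} (hr : 2 ≤ r) (hh : 1 ≤ h) {N : Finset ι}
    {z : X → Y → Finset ι} (hG : Gad N κ z) (hm : Nᶜ.card ≤ m) {F : X → Y → Bool}
    (hL : (r ^ 6) ^ d ≤ 2 ^ L)
    (hV : ∀ (V : Type) [AddCommGroup V] [Fintype V] [DecidableEq V] (a : Finset ι → V → ℂ),
      St r a → ∀ ξ : AddChar V ℂ, Reach (Nb a) d (Hit a h) k ∅ ξ)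
    (hbase : ∀ (V : Type) [AddCommGroup V] [Fintype V] [DecidableEq V] (R : X → Y → Prop)
      (a : Finset ι → V → ℂ) (ξ : X → AddChar V ℂ) (η : Y → AddChar V ℂ), St r a →
      (∀ v : Finset ι, v.Nonempty → a v = 0) → Val R F z a ξ η → CCOn R F cB)
    (hj : w < 2 ^ j) (ht : (w : ℝ) * (1 - 1 / (4 * h)) ^ t < 1) (s : ℕ) :
    ∀ (V : Type) [AddCommGroup V] [Fintype V] [DecidableEq V] (R : X → Y → Prop)
      (a : Finset ι → V → ℂ) (ξ : X → AddChar V ℂ) (η : Y → AddChar V ℂ), St r a →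
      Val R F z a ξ η → wt N a (fun _ => True) ≤ w →
      (wt N a (fun _ => True) : ℝ) * (1 - 1 / (2 * h)) ^ s < 1 →
      CCOn R F (cB + s * (cB + 2 * Nat.clog 2 (m + 1) + j * (k * (2 * L)) + t * κ)) := by
  induction s with
  | zero =>
    intro V _ _ _ R a ξ η hSt hVal _ hs
    have h0 : wt N a (fun _ => True) = 0 := by
      rw [pow_zero, mul_one] at hs
      have : wt N a (fun _ => True) < 1 := by exact_mod_cast hs
      omega
    have hz := fun v hv => wt_zero (N := N) (a := a) h0 v hv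
    exact CCOn.mono (fun _ _ h => h) (by omega) (hbase V R a ξ η hSt hz hVal)
  | succ s ih =>
    intro V _ _ _ R a ξ η hSt hVal hw hs
    have hh0 : (1 : ℝ) ≤ h := by exact_mod_cast hh
    have hq4 : (0 : ℝ) ≤ 1 - 1 / (4 * (h : ℝ)) := by
      have : 1 / (4 * (h : ℝ)) ≤ 1 := by
        rw [div_le_one (by linarith)]; linarith
      linarith
    have hrun := run (c₀ := cB + s * (cB + 2 * Nat.clog 2 (m + 1) + j * (k * (2 * L)) + t * κ))
      (w₀ := wt N a (fun _ => True)) (cB := cB) (m := m) (k := k) (κ := κ) (d := d) (L := L)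
      hr hh hG hm (F := F) hL hV hbase
      (fun V' _ _ _ R' a' ξ' η' hSt' hVal' hw' => by
        have hle : wt N a' (fun _ => True) ≤ wt N a (fun _ => True) := by
          have h1 : 2 * h * wt N a' (fun _ => True) ≤ 2 * h * wt N a (fun _ => True) :=
            le_trans hw' (Nat.mul_le_mul_right _ (Nat.sub_le _ _))
          exact Nat.le_of_mul_le_mul_left h1 (by omega)
        exact ih V' R' a' ξ' η' hSt' hVal' (hle.trans hw) (e8_pow hh hw' hs))
      ((act a).card + t + j) ((act a).card) t j le_rfl V R a ξ η [] hSt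
      (fun x y hxy => hVal x y hxy.1) List.nodup_nil (by simp) (by simp)
      (by
        intro L₁ i L₂ hL'
        exact absurd hL'.symm (by simp))
      le_rfl (lt_of_le_of_lt hw hj)
      (lt_of_le_of_lt (mul_le_mul_of_nonneg_right (by exact_mod_cast hw) (pow_nonneg hq4 t)) ht)
      le_rfl
    refine CCOn.mono (fun _ _ h => h) (le_of_eq ?_) hrun
    ring

end Pool.Agent.AGG
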