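import Mathlib
import Pool.Agent.Lib_helper38.AGG.Defs
import Pool.Agent.Lib_helper10.LogRank.Cube
import Pool.Agent.Lib_helper58.XA.Main
import Pool.Agent.Lib_helper58.AGG.D9
import Pool.Agent.Lib_helper58.AGG.E5
import Pool.Agent.Lib_helper58.AGG.E8

set_option autoImplicit false

/-! AGG, block E9: the game -/

namespace Pool.Agent.AGG

open Finset Filter Pool.Agent.XA Pool.Agent.AGG Pool.Agent.Lib_helper10.LogRank

/-- `(1 - 1/n)^(n j) < 2^(-j)` up to equality -/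
theorem e9_pow (n j : ℕ) (hn : 1 ≤ n) : (1 - 1 / (n : ℝ)) ^ (n * j) ≤ (1 / 2 : ℝ) ^ j := by
  have hn0 : (0 : ℝ) < n := by exact_mod_cast hn
  have h0 : 0 ≤ 1 - 1 / (n : ℝ) := by
    have h1 : 1 / (n : ℝ) ≤ 1 := by
      rw [div_le_one hn0]
      exact_mod_cast hn
    linarith
  have h1 : 1 - 1 / (n : ℝ) ≤ Real.exp (-(1 / (n : ℝ))) := by
    have := Real.add_one_le_exp (-(1 / (n : ℝ)))
    linarith
  have h2 : (1 - 1 / (n : ℝ)) ^ n ≤ 1 / 2 := by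
    calc (1 - 1 / (n : ℝ)) ^ n ≤ (Real.exp (-(1 / (n : ℝ)))) ^ n := pow_le_pow_left₀ h0 h1 n
      _ = Real.exp (-1) := by
          rw [← Real.exp_nat_mul]
          congr 1
          field_simp
      _ ≤ 1 / 2 := by
          rw [Real.exp_neg, ← one_div]
          refine one_div_le_one_div_of_le (by norm_num) ?_
          have := Real.add_one_le_exp (1 : ℝ)
          linarith
  rw [pow_mul]
  exact pow_le_pow_left₀ (pow_nonneg h0 n) h2 j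

/-- a weight below `2^j` is below `1` after `n j` steps -/
theorem e9_lt {w n j : ℕ} (hn : 1 ≤ n) (hw : w < 2 ^ j) {x : ℝ} (hx : x = (n : ℝ)) :
    (w : ℝ) * (1 - 1 / x) ^ (n * j) < 1 := by
  rw [hx]
  have h1 := e9_pow n j hn
  have h2 : (w : ℝ) < 2 ^ j := by exact_mod_cast hw
  have h3 : (0 : ℝ) < (1 / 2 : ℝ) ^ j := by positivity
  calc (w : ℝ) * (1 - 1 / (n : ℝ)) ^ (n * j) ≤ (w : ℝ) * (1 / 2 : ℝ) ^ j :=
        mul_le_mul_of_nonneg_left h1 (Nat.cast_nonneg w)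
    _ < 2 ^ j * (1 / 2 : ℝ) ^ j := mul_lt_mul_of_pos_right h2 h3
    _ = 1 := by
        rw [← mul_pow]
        norm_num

/-- `log r <= C r^δ` for the ceiling logarithm -/
theorem e9_clog {δ : ℝ} (hδ : 0 < δ) {r : ℕ} (hr : 2 ≤ r) :
    (Nat.clog 2 r : ℝ) ≤ (2 / δ + 1) * (r : ℝ) ^ δ := by
  have hr1 : (1 : ℝ) ≤ r := by
    have : 1 ≤ r := by omega
    exact_mod_cast this
  have h1 : 2 ^ (Nat.clog 2 r).pred < r := Nat.pow_pred_clog_lt_self (by norm_num) (by omega)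
  have h2 : ((2 : ℝ) ^ (Nat.clog 2 r).pred) ≤ r := by exact_mod_cast h1.le
  have h3 : ((Nat.clog 2 r).pred : ℝ) * Real.log 2 ≤ Real.log r := by
    have h4 := Real.log_le_log (by positivity) h2
    rw [Real.log_pow] at h4
    exact h4
  have h4 : Real.log r ≤ (r : ℝ) ^ δ / δ := Real.log_le_rpow_div (by linarith) hδ
  have h5 : (1 : ℝ) / 2 ≤ Real.log 2 := by
    have := Real.log_two_gt_d9
    linarith
  have h6 : (0 : ℝ) ≤ ((Nat.clog 2 r).pred : ℝ) := Nat.cast_nonneg _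
  have h7 : (Nat.clog 2 r : ℝ) ≤ ((Nat.clog 2 r).pred : ℝ) + 1 := by
    have : Nat.clog 2 r ≤ (Nat.clog 2 r).pred + 1 := by
      rw [Nat.pred_eq_sub_one]
      omega
    exact_mod_cast this
  have h8 : ((Nat.clog 2 r).pred : ℝ) * (1 / 2) ≤ (r : ℝ) ^ δ / δ :=
    (mul_le_mul_of_nonneg_left h5 h6).trans (h3.trans h4)
  have h9 : (1 : ℝ) ≤ (r : ℝ) ^ δ := Real.one_le_rpow hr1 hδ.le
  have h10 : (2 / δ + 1) * (r : ℝ) ^ δ = 2 * ((r : ℝ) ^ δ / δ) + (r : ℝ) ^ δ := by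
    field_simp
  rw [h10]
  linarith

/-- the final arithmetic -/
theorem e9_bound {A K Λ cB s l g t : ℝ} (hA : 1 ≤ A) (hK : 0 ≤ K) (hΛ : 1 ≤ Λ)
    (hcB0 : 0 ≤ cB) (hcB : cB ≤ A) (hs : s ≤ 8 * A ^ 2) (hg0 : 0 ≤ g)
    (hg : g ≤ 48 * A ^ 4) (ht0 : 0 ≤ t) (ht : t ≤ 16 * A ^ 2) (hl0 : 0 ≤ l) (hl : l ≤ Λ) :
    cB + s * (cB + 2 * l + g + t * K) ≤ 409 * A ^ 6 * (K + Λ) := by
  have hA0 : 0 ≤ A := by linarith
  have p2 : (1 : ℝ) ≤ A ^ 2 := one_le_pow₀ hA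
  have p4 : A ^ 2 ≤ A ^ 4 := pow_le_pow_right₀ hA (by norm_num)
  have p1 : A ≤ A ^ 4 := by
    calc A = A ^ 1 := (pow_one A).symm
      _ ≤ A ^ 4 := pow_le_pow_right₀ hA (by norm_num)
  have p6 : A ≤ A ^ 6 := by
    calc A = A ^ 1 := (pow_one A).symm
      _ ≤ A ^ 6 := pow_le_pow_right₀ hA (by norm_num)
  have p40 : (1 : ℝ) ≤ A ^ 4 := one_le_pow₀ hA
  have p60 : (0 : ℝ) ≤ A ^ 6 := by positivity
  have q1 : cB ≤ A ^ 4 * Λ := by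
    calc cB ≤ A := hcB
      _ ≤ A ^ 4 := p1
      _ = A ^ 4 * 1 := (mul_one _).symm
      _ ≤ A ^ 4 * Λ := mul_le_mul_of_nonneg_left hΛ (by positivity)
  have q2 : 2 * l ≤ A ^ 4 * (2 * Λ) := by
    calc 2 * l ≤ 1 * (2 * Λ) := by linarith
      _ ≤ A ^ 4 * (2 * Λ) := mul_le_mul_of_nonneg_right p40 (by linarith)
  have q3 : g ≤ A ^ 4 * (48 * Λ) := by
    calc g ≤ 48 * A ^ 4 := hg
      _ = A ^ 4 * (48 * 1) := by ring
      _ ≤ A ^ 4 * (48 * Λ) := mul_le_mul_of_nonneg_left (by linarith) (by positivity)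
  have q4 : t * K ≤ A ^ 4 * (16 * K) := by
    calc t * K ≤ (16 * A ^ 2) * K := mul_le_mul_of_nonneg_right ht hK
      _ = A ^ 2 * (16 * K) := by ring
      _ ≤ A ^ 4 * (16 * K) := mul_le_mul_of_nonneg_right p4 (by linarith)
  have q5 : cB + 2 * l + g + t * K ≤ A ^ 4 * (51 * Λ + 16 * K) := by
    have : A ^ 4 * (51 * Λ + 16 * K) =
        A ^ 4 * Λ + A ^ 4 * (2 * Λ) + A ^ 4 * (48 * Λ) + A ^ 4 * (16 * K) := by ring
    rw [this]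
    linarith
  have q6 : s * (cB + 2 * l + g + t * K) ≤ (8 * A ^ 2) * (A ^ 4 * (51 * Λ + 16 * K)) := by
    have h1 : 0 ≤ cB + 2 * l + g + t * K := by
      have := mul_nonneg ht0 hK
      linarith
    exact mul_le_mul hs q5 h1 (by positivity)
  have q7 : cB ≤ A ^ 6 * Λ := by
    calc cB ≤ A := hcB
      _ ≤ A ^ 6 := p6
      _ = A ^ 6 * 1 := (mul_one _).symm
      _ ≤ A ^ 6 * Λ := mul_le_mul_of_nonneg_left hΛ p60
  have q8 : (8 * A ^ 2) * (A ^ 4 * (51 * Λ + 16 * K)) = A ^ 6 * (408 * Λ + 128 * K) := by ring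
  have q9 : A ^ 6 * Λ + A ^ 6 * (408 * Λ + 128 * K) ≤ 409 * A ^ 6 * (K + Λ) := by
    have h1 : 0 ≤ A ^ 6 * K := mul_nonneg p60 hK
    have h2 : 409 * A ^ 6 * (K + Λ) =
      A ^ 6 * Λ + A ^ 6 * (408 * Λ + 128 * K) + 281 * (A ^ 6 * K) := by ring
    rw [h2]
    linarith
  linarith

theorem game {ε : ℝ} (hε : 0 < ε) : ∃ C : ℝ, 0 ≤ C ∧ ∀ r : ℕ, 2 ≤ r →
    ∀ (ι : Type) [Fintype ι] [DecidableEq ι] (V : Type) [AddCommGroup V] [Fintype V]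
      [DecidableEq V] (X Y : Type) (N : Finset ι) (κ m : ℕ) (z : X → Y → Finset ι)
      (a : Finset ι → V → ℂ) (ξ : X → AddChar V ℂ) (η : Y → AddChar V ℂ), St r a →
      wt N a (fun _ => True) ≤ r ^ 3 → Gad N κ z → Nᶜ.card ≤ m →
      ∃ π : Protocol X Y,
        (∀ x y, π.eval x y = decide (ev (sl a (z x y)) (ξ x * η y) = -1)) ∧
        (π.cost : ℝ) ≤ C * (r : ℝ) ^ ε * (κ + Nat.clog 2 (m + 2)) := by
  have hδ : 0 < ε / 6 := by positivity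
  obtain ⟨C₁, hC₁, H₁⟩ := hitting hδ
  obtain ⟨C₂, hC₂, H₂⟩ := ccOn_base hδ
  set M : ℝ := C₁ + C₂ + (2 / (ε / 6) + 1) with hM
  have hd0 : 0 < 2 / (ε / 6) := by positivity
  have hM1 : 1 ≤ M := by rw [hM]; linarith
  refine ⟨409 * M ^ 6, by positivity, ?_⟩
  intro r hr ι _ _ V _ _ _ X Y N κ m z a ξ η ha hw hG hm
  obtain ⟨d, h, k, hd, hh, hk, hh1, hV⟩ := H₁ r hr
  have hr0 : (1 : ℝ) ≤ r := by
    have : 1 ≤ r := by omega
    exact_mod_cast this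
  have hR1 : (1 : ℝ) ≤ (r : ℝ) ^ (ε / 6) := Real.one_le_rpow hr0 hδ.le
  have hR6 : ((r : ℝ) ^ (ε / 6)) ^ 6 = (r : ℝ) ^ ε := by
    rw [← Real.rpow_natCast, ← Real.rpow_mul (by linarith)]
    congr 1
    push_cast
    ring
  have hlg := e9_clog hδ hr
  generalize hRdef : (r : ℝ) ^ (ε / 6) = R at *
  have hA1 : 1 ≤ M * R := by
    calc (1 : ℝ) = 1 * 1 := (one_mul 1).symm
      _ ≤ M * R := mul_le_mul hM1 hR1 (by norm_num) (by linarith)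
  have hR0 : 0 ≤ R := by linarith
  have hd' : (d : ℝ) ≤ M * R :=
    hd.trans (mul_le_mul_of_nonneg_right (by rw [hM]; linarith) hR0)
  have hh' : (h : ℝ) ≤ M * R :=
    hh.trans (mul_le_mul_of_nonneg_right (by rw [hM]; linarith) hR0)
  have hk' : (k : ℝ) ≤ M * R :=
    hk.trans (mul_le_mul_of_nonneg_right (by rw [hM]; linarith) hR0)
  have hlg' : (Nat.clog 2 r : ℝ) ≤ M * R :=
    hlg.trans (mul_le_mul_of_nonneg_right (by rw [hM]; linarith) hR0)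
  have hcB' : ((⌊C₂ * R⌋₊ : ℕ) : ℝ) ≤ M * R :=
    (Nat.floor_le (mul_nonneg hC₂ hR0)).trans
      (mul_le_mul_of_nonneg_right (by rw [hM]; linarith) hR0)
  -- the parameters
  have hj : r ^ 3 < 2 ^ (3 * Nat.clog 2 r + 1) := by
    have h1 : r ≤ 2 ^ Nat.clog 2 r := Nat.le_pow_clog (by norm_num) r
    calc r ^ 3 ≤ (2 ^ Nat.clog 2 r) ^ 3 := Nat.pow_le_pow_left h1 3
      _ = 2 ^ (3 * Nat.clog 2 r) := by rw [← pow_mul, mul_comm]
      _ < 2 ^ (3 * Nat.clog 2 r + 1) := Nat.pow_lt_pow_right (by norm_num) (by omega)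
  have hL : (r ^ 6) ^ d ≤ 2 ^ (6 * d * Nat.clog 2 r) := by
    have h1 : r ≤ 2 ^ Nat.clog 2 r := Nat.le_pow_clog (by norm_num) r
    calc (r ^ 6) ^ d = r ^ (6 * d) := by rw [← pow_mul]
      _ ≤ (2 ^ Nat.clog 2 r) ^ (6 * d) := Nat.pow_le_pow_left h1 _
      _ = 2 ^ (6 * d * Nat.clog 2 r) := by rw [← pow_mul, mul_comm]
  have ht : ((r ^ 3 : ℕ) : ℝ) * (1 - 1 / (4 * (h : ℝ))) ^ (4 * h * (3 * Nat.clog 2 r + 1)) < 1 :=
    e9_lt (n := 4 * h) (by omega) hj (by push_cast; ring)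
  have hs : (wt N a (fun _ => True) : ℝ) *
      (1 - 1 / (2 * (h : ℝ))) ^ (2 * h * (3 * Nat.clog 2 r + 1)) < 1 :=
    e9_lt (n := 2 * h) (by omega) (lt_of_le_of_lt hw hj) (by push_cast; ring)
  have key := runs (r := r) (d := d) (h := h) (k := k) (κ := κ) (m := m)
    (cB := ⌊C₂ * R⌋₊) (L := 6 * d * Nat.clog 2 r) (w := r ^ 3) (j := 3 * Nat.clog 2 r + 1)
    (t := 4 * h * (3 * Nat.clog 2 r + 1)) hr hh1 hG hm
    (F := fun x y => decide (ev (sl a (z x y)) (ξ x * η y) = -1)) hL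
    (fun V _ _ _ a ha ξ => hV ι V a ha ξ)
    (fun V _ _ _ R' a ξ η ha h0 hval => by
      have := H₂ r hr ι V X Y R' _ z a ξ η ha h0 hval
      rw [hRdef] at this
      exact this)
    hj ht (2 * h * (3 * Nat.clog 2 r + 1)) V (fun _ _ => True) a ξ η ha (fun x y _ => rfl) hw hs
  obtain ⟨π, hπ1, hπ2⟩ := key
  refine ⟨π, fun x y => hπ2 x y trivial, ?_⟩
  -- the bound
  have hjR : ((3 * Nat.clog 2 r + 1 : ℕ) : ℝ) ≤ 4 * (M * R) := by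
    push_cast
    linarith
  have hj0 : (0 : ℝ) ≤ ((3 * Nat.clog 2 r + 1 : ℕ) : ℝ) := Nat.cast_nonneg _
  have hA0 : 0 ≤ M * R := by linarith
  have hd00 : (0 : ℝ) ≤ d := Nat.cast_nonneg _
  have hh00 : (0 : ℝ) ≤ h := Nat.cast_nonneg _
  have hk00 : (0 : ℝ) ≤ k := Nat.cast_nonneg _
  have hl00 : (0 : ℝ) ≤ (Nat.clog 2 r : ℝ) := Nat.cast_nonneg _
  have e1 : ((2 * h * (3 * Nat.clog 2 r + 1) : ℕ) : ℝ) ≤ 8 * (M * R) ^ 2 := by
    rw [Nat.cast_mul, Nat.cast_mul]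
    calc ((2 : ℕ) : ℝ) * (h : ℝ) * ((3 * Nat.clog 2 r + 1 : ℕ) : ℝ)
        ≤ (2 * (M * R)) * (4 * (M * R)) := by
          refine mul_le_mul ?_ hjR hj0 (by positivity)
          push_cast
          linarith
      _ = 8 * (M * R) ^ 2 := by ring
  have e2 : ((4 * h * (3 * Nat.clog 2 r + 1) : ℕ) : ℝ) ≤ 16 * (M * R) ^ 2 := by
    rw [Nat.cast_mul, Nat.cast_mul]
    calc ((4 : ℕ) : ℝ) * (h : ℝ) * ((3 * Nat.clog 2 r + 1 : ℕ) : ℝ)
        ≤ (4 * (M * R)) * (4 * (M * R)) := by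
          refine mul_le_mul ?_ hjR hj0 (by positivity)
          push_cast
          linarith
      _ = 16 * (M * R) ^ 2 := by ring
  have e3 : (((3 * Nat.clog 2 r + 1) * (k * (2 * (6 * d * Nat.clog 2 r))) : ℕ) : ℝ) ≤
      48 * (M * R) ^ 4 := by
    rw [Nat.cast_mul]
    have h1 : ((k * (2 * (6 * d * Nat.clog 2 r)) : ℕ) : ℝ) ≤ 12 * (M * R) ^ 3 := by
      push_cast
      have h2 : (d : ℝ) * (Nat.clog 2 r : ℝ) ≤ (M * R) * (M * R) := mul_le_mul hd' hlg' hl00 hA0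
      have h3 : (k : ℝ) * ((d : ℝ) * (Nat.clog 2 r : ℝ)) ≤ (M * R) * ((M * R) * (M * R)) :=
        mul_le_mul hk' h2 (mul_nonneg hd00 hl00) hA0
      calc (k : ℝ) * (2 * (6 * (d : ℝ) * (Nat.clog 2 r : ℝ)))
          = 12 * ((k : ℝ) * ((d : ℝ) * (Nat.clog 2 r : ℝ))) := by ring
        _ ≤ 12 * ((M * R) * ((M * R) * (M * R))) := by linarith
        _ = 12 * (M * R) ^ 3 := by ring
    calc ((3 * Nat.clog 2 r + 1 : ℕ) : ℝ) * ((k * (2 * (6 * d * Nat.clog 2 r)) : ℕ) : ℝ)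
        ≤ (4 * (M * R)) * (12 * (M * R) ^ 3) :=
          mul_le_mul hjR h1 (Nat.cast_nonneg _) (by positivity)
      _ = 48 * (M * R) ^ 4 := by ring
  have e4 : ((Nat.clog 2 (m + 1) : ℕ) : ℝ) ≤ (Nat.clog 2 (m + 2) : ℝ) := by
    exact_mod_cast Nat.clog_mono_right 2 (by omega)
  have e5 : (1 : ℝ) ≤ (Nat.clog 2 (m + 2) : ℝ) := by
    have : 0 < Nat.clog 2 (m + 2) := Nat.clog_pos (by norm_num) (by omega)
    exact_mod_cast this
  have hfin := e9_bound (A := M * R) (K := (κ : ℝ)) (Λ := (Nat.clog 2 (m + 2) : ℝ))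
    (cB := ((⌊C₂ * R⌋₊ : ℕ) : ℝ)) (s := ((2 * h * (3 * Nat.clog 2 r + 1) : ℕ) : ℝ))
    (l := ((Nat.clog 2 (m + 1) : ℕ) : ℝ))
    (g := (((3 * Nat.clog 2 r + 1) * (k * (2 * (6 * d * Nat.clog 2 r))) : ℕ) : ℝ))
    (t := ((4 * h * (3 * Nat.clog 2 r + 1) : ℕ) : ℝ)) hA1 (Nat.cast_nonneg _) e5
    (Nat.cast_nonneg _) hcB' e1 (Nat.cast_nonneg _) e3 (Nat.cast_nonneg _) e2
    (Nat.cast_nonneg _) e4
  have hcost : (π.cost : ℝ) ≤ ((⌊C₂ * R⌋₊ + 2 * h * (3 * Nat.clog 2 r + 1) *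
      (⌊C₂ * R⌋₊ + 2 * Nat.clog 2 (m + 1) +
        (3 * Nat.clog 2 r + 1) * (k * (2 * (6 * d * Nat.clog 2 r))) +
        4 * h * (3 * Nat.clog 2 r + 1) * κ) : ℕ) : ℝ) := by
    exact_mod_cast hπ1
  refine hcost.trans ?_
  rw [Nat.cast_add, Nat.cast_mul, Nat.cast_add, Nat.cast_add, Nat.cast_add, Nat.cast_mul 2,
    Nat.cast_mul (4 * h * (3 * Nat.clog 2 r + 1)), Nat.cast_ofNat]
  refine hfin.trans (le_of_eq ?_)
  rw [← hR6, mul_pow]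
  ring

end Pool.Agent.AGG
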