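import Mathlib
import Pool.Agent.Lib_helper38.AGG.Defs

set_option autoImplicit false

/-! AGG, block G1: patterns in gadgets -/

namespace Pool.Agent.AGG

open Finset Filter Pool.Agent.XA Pool.Agent.Lib_helper10.LogRank Pool.Agent.AGG

section one

variable {A B : Type}

theorem and_pattern {g : A → B → Bool} (hg : ¬ XorLike g) : ∃ (c : Bool) (a a' : A) (b b' : B),
    g a b = c ∧ g a' b = c ∧ g a b' = c ∧ g a' b' = !c := by
  by_contra hc
  push Not at hc
  apply hg
  by_cases hA : Nonempty A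
  · by_cases hB : Nonempty B
    · obtain ⟨a₀⟩ := hA
      obtain ⟨b₀⟩ := hB
      refine ⟨fun a => g a b₀, fun b => (g a₀ b ^^ g a₀ b₀), fun a b => ?_⟩
      have key : ∀ w x y z : Bool, (x = w → y = w → z ≠ !w) → (w = x → z = x → y ≠ !x) →
          (z = y → w = y → x ≠ !y) → (y = z → x = z → w ≠ !z) → w = (y ^^ (x ^^ z)) := by
        decide
      exact key _ _ _ _ (hc (g a b) a a₀ b b₀ rfl) (hc (g a₀ b) a₀ a b b₀ rfl)
        (hc (g a b₀) a a₀ b₀ b rfl) (hc (g a₀ b₀) a₀ a b₀ b rfl)
    · exact ⟨fun _ => true, fun _ => true, fun _ b => absurd ⟨b⟩ hB⟩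
  · exact ⟨fun _ => true, fun _ => true, fun a => absurd ⟨a⟩ hA⟩

theorem or_pattern {g : A → B → Bool} {c : Bool}
    (hg : ¬ ∃ (p : A → Bool) (q : B → Bool), ∀ a b, (g a b ^^ c) = (p a && q b)) :
    ∃ (a a' : A) (b b' : B), g a b = (!c) ∧ g a' b' = (!c) ∧ g a b' = c := by
  classical
  by_contra hc
  push Not at hc
  apply hg
  refine ⟨fun a => decide (∃ b, g a b = !c), fun b => decide (∃ a, g a b = !c), fun a b => ?_⟩
  show (g a b ^^ c) = (decide (∃ b, g a b = !c) && decide (∃ a, g a b = !c))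
  by_cases h1 : ∃ b, g a b = !c
  · by_cases h2 : ∃ a, g a b = !c
    · obtain ⟨b', hb'⟩ := h1
      obtain ⟨a', ha'⟩ := h2
      have h3 := hc a a' b' b hb' ha'
      have h4 : g a b = !c := by
        revert h3
        cases g a b <;> cases c <;> simp
      have h5 : decide (∃ b, g a b = !c) = true := decide_eq_true ⟨b', hb'⟩
      have h6 : decide (∃ a, g a b = !c) = true := decide_eq_true ⟨a', ha'⟩
      rw [h5, h6, h4]
      cases c <;> rfl
    · have h4 : g a b = c := by
        by_contra h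
        apply h2
        refine ⟨a, ?_⟩
        revert h
        cases g a b <;> cases c <;> simp
      rw [decide_eq_false h2, h4, Bool.and_false]
      cases c <;> rfl
  · have h4 : g a b = c := by
      by_contra h
      apply h1
      refine ⟨b, ?_⟩
      revert h
      cases g a b <;> cases c <;> simp
    rw [decide_eq_false h1, h4, Bool.false_and]
    cases c <;> rfl

theorem g1_onto {A : Type} {p : A → Bool} {a a' : A} (h : p a ≠ p a') : ∀ s, ∃ a, p a = s := by
  intro s
  by_cases h1 : p a = s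
  · exact ⟨a, h1⟩
  · refine ⟨a', ?_⟩
    revert h h1
    cases p a <;> cases p a' <;> cases s <;> simp

theorem xor_onto {p : A → Bool} {q : B → Bool} (h : DepBoth fun a b => (p a ^^ q b)) :
    (∀ s, ∃ a, p a = s) ∧ ∀ s, ∃ b, q b = s := by
  obtain ⟨⟨a, a', b, h1⟩, a₁, b₁, b₁', h2⟩ := h
  refine ⟨g1_onto (a := a) (a' := a') fun h => h1 ?_, g1_onto (a := b₁) (a' := b₁') fun h => h2 ?_⟩
  · simp only [h]
  · simp only [h]

end one

end Pool.Agent.AGG
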