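import Mathlib
import Pool.Agent.Lib_helper38.AGG.Defs
import Pool.Agent.Lib_helper35.XA.G1
import Pool.Agent.Lib_helper16.XA.G4
import Pool.Agent.Lib_helper58.AGG.G1

/-! AGG, block G2: the weight vectors of a gadget -/

set_option autoImplicit false

namespace Pool.Agent.AGG

open Finset Filter Pool.Agent.XA Pool.Agent.Lib_helper10.LogRank Pool.Agent.AGG

section one

variable {A B : Type}

open Classical in
theorem g2_sum [Fintype A] [Fintype B] (a a' : A) (b b' : B) (x y z w : ℝ) (M : A → B → ℝ) :
    ∑ s, ∑ t, (x * (if s = a then 1 else 0) + y * (if s = a' then 1 else 0)) *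
      (z * (if t = b then 1 else 0) + w * (if t = b' then 1 else 0)) * M s t =
      x * z * M a b + x * w * M a b' + y * z * M a' b + y * w * M a' b' := by
  have h1 : ∀ s, ∑ t, (x * (if s = a then 1 else 0) + y * (if s = a' then 1 else 0)) *
      (z * (if t = b then 1 else 0) + w * (if t = b' then 1 else 0)) * M s t =
      (x * (if s = a then 1 else 0) + y * (if s = a' then 1 else 0)) *
        (z * M s b + w * M s b') := by
    intro s
    generalize (x * (if s = a then (1 : ℝ) else 0) + y * (if s = a' then 1 else 0)) = P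
    have h2 : ∑ t, (if t = b then (1 : ℝ) else 0) * M s t = M s b := by
      simp
    have h3 : ∑ t, (if t = b' then (1 : ℝ) else 0) * M s t = M s b' := by
      simp
    calc ∑ t, P * (z * (if t = b then 1 else 0) + w * (if t = b' then 1 else 0)) * M s t
        = ∑ t, (P * z * ((if t = b then 1 else 0) * M s t) +
            P * w * ((if t = b' then 1 else 0) * M s t)) :=
          Finset.sum_congr rfl fun t _ => by ring
      _ = P * z * M s b + P * w * M s b' := by
          rw [Finset.sum_add_distrib, ← Finset.mul_sum, ← Finset.mul_sum, h2, h3]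
      _ = _ := by ring
  rw [Finset.sum_congr rfl fun s _ => h1 s]
  have h4 : ∑ s, (if s = a then (1 : ℝ) else 0) * (z * M s b + w * M s b') =
      z * M a b + w * M a b' := by
    simp
  have h5 : ∑ s, (if s = a' then (1 : ℝ) else 0) * (z * M s b + w * M s b') =
      z * M a' b + w * M a' b' := by
    simp
  calc ∑ s, (x * (if s = a then 1 else 0) + y * (if s = a' then 1 else 0)) *
        (z * M s b + w * M s b')
      = ∑ s, (x * ((if s = a then 1 else 0) * (z * M s b + w * M s b')) +
          y * ((if s = a' then 1 else 0) * (z * M s b + w * M s b'))) :=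
        Finset.sum_congr rfl fun t _ => by ring
    _ = x * (z * M a b + w * M a b') + y * (z * M a' b + w * M a' b') := by
        rw [Finset.sum_add_distrib, ← Finset.mul_sum, ← Finset.mul_sum, h4, h5]
    _ = _ := by ring

/-- weight vectors on two rows and two columns -/
theorem g2_diag [Fintype A] [Fintype B] {g : A → B → Bool} (a a' : A) (b b' : B)
    (P Q : Bool → ℝ × ℝ) (l m : Bool → ℝ)
    (h1 : ∀ s t, ((P s).1 + (P s).2) * ((Q t).1 + (Q t).2) = if s = t then l s else 0)
    (h2 : ∀ s t, (P s).1 * (Q t).1 * (if g a b then 1 else 0) +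
      (P s).1 * (Q t).2 * (if g a b' then 1 else 0) +
      (P s).2 * (Q t).1 * (if g a' b then 1 else 0) +
      (P s).2 * (Q t).2 * (if g a' b' then 1 else 0) = if s = t then m s else 0) :
    Diag g l m := by
  classical
  refine ⟨fun s c => (P s).1 * (if c = a then 1 else 0) + (P s).2 * (if c = a' then 1 else 0),
    fun t c => (Q t).1 * (if c = b then 1 else 0) + (Q t).2 * (if c = b' then 1 else 0),
    fun s t => ⟨?_, ?_⟩⟩
  · have h := g2_sum a a' b b' (P s).1 (P s).2 (Q t).1 (Q t).2 (fun _ _ => 1)
    simp only [mul_one] at h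
    rw [← h1 s t]
    refine Eq.trans ?_ (h.trans (by ring))
    refine Finset.sum_congr rfl fun x _ => Finset.sum_congr rfl fun y _ => ?_
    rfl
  · have h := g2_sum a a' b b' (P s).1 (P s).2 (Q t).1 (Q t).2 (fun x y => if g x y then 1 else 0)
    rw [← h2 s t, ← h]

theorem diag_and [Fintype A] [Fintype B] {g : A → B → Bool} {a a' : A} {b b' : B}
    (h1 : g a b = false) (h2 : g a' b = false) (h3 : g a b' = false) (h4 : g a' b' = true) :
    Diag g (fun s => if s then 0 else 1) (fun s => if s then 1 else 0) := by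
  refine g2_diag a a' b b' (fun s => if s then (-1, 1) else (1, 0))
    (fun s => if s then (-1, 1) else (1, 0)) _ _ ?_ ?_
  · intro s t
    cases s <;> cases t <;> norm_num
  · intro s t
    rw [h1, h2, h3, h4]
    cases s <;> cases t <;> norm_num

theorem diag_or [Fintype A] [Fintype B] {g : A → B → Bool} {a a' : A} {b b' : B}
    (h1 : g a b = true) (h2 : g a' b' = true) (h3 : g a b' = false) :
    ∃ e : ℝ, e ≠ 0 ∧ Diag g (fun s => if s then 0 else e) (fun _ => 1) := by
  cases h4 : g a' b
  · refine ⟨2, two_ne_zero, ?_⟩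
    refine g2_diag a a' b b' (fun s => if s then (-1, 1) else (1, 1))
      (fun s => if s then (-1 / 2, 1 / 2) else (1 / 2, 1 / 2)) _ _ ?_ ?_
    · intro s t
      cases s <;> cases t <;> norm_num
    · intro s t
      rw [h1, h2, h3, h4]
      cases s <;> cases t <;> norm_num
  · refine ⟨1, one_ne_zero, ?_⟩
    refine g2_diag a a' b b' (fun s => if s then (-1, 1) else (0, 1))
      (fun s => if s then (-1, 1) else (1, 0)) _ _ ?_ ?_
    · intro s t
      cases s <;> cases t <;> norm_num
    · intro s t
      rw [h1, h2, h3, h4]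
      cases s <;> cases t <;> norm_num

theorem gadget_cases [Fintype A] [Fintype B] {g : A → B → Bool} (hg : ¬ XorLike g) :
    ∃ c : Bool, Diag (fun a b => (g a b ^^ c)) (fun s => if s then 0 else 1)
        (fun s => if s then 1 else 0) ∧
      ((AndLike g ∧ ∃ (p : A → Bool) (q : B → Bool), ∀ a b, (g a b ^^ c) = (p a && q b)) ∨
        ∃ e : ℝ, e ≠ 0 ∧ Diag (fun a b => (g a b ^^ c)) (fun s => if s then 0 else e)
          (fun _ => 1)) := by
  obtain ⟨c, a, a', b, b', h1, h2, h3, h4⟩ := and_pattern hg
  refine ⟨c, diag_and (a := a) (a' := a') (b := b) (b' := b') (by rw [h1, Bool.xor_self])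
    (by rw [h2, Bool.xor_self]) (by rw [h3, Bool.xor_self]) (by rw [h4]; cases c <;> rfl), ?_⟩
  by_cases hr : ∃ (p : A → Bool) (q : B → Bool), ∀ a b, (g a b ^^ c) = (p a && q b)
  · refine Or.inl ⟨?_, hr⟩
    obtain ⟨p, q, h⟩ := hr
    refine ⟨c, p, q, fun x y => ?_⟩
    rw [← h x y]
    cases g x y <;> cases c <;> rfl
  · right
    obtain ⟨x, x', y, y', k1, k2, k3⟩ := or_pattern hr
    exact diag_or (a := x) (a' := x') (b := y) (b' := y') (by rw [k1]; cases c <;> rfl)
      (by rw [k2]; cases c <;> rfl) (by rw [k3, Bool.xor_self])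

end one

end Pool.Agent.AGG
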