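import Mathlib
import Pool.Agent.Lib_helper38.AGG.Defs
import Pool.Agent.Lib_helper58.XA.G5

set_option autoImplicit false

/-! AGG, block G3: the rank of a matrix and a diagonal minor -/

namespace Pool.Agent.AGG

open Finset Filter Pool.Agent.XA Pool.Agent.Lib_helper10.LogRank Pool.Agent.AGG

theorem rank_diag {X Y K : Type} [Fintype X] [Fintype Y] [Fintype K] (M : X → Y → ℝ)
    (P : K → X → ℂ) (Q : K → Y → ℂ)
    (hd : ∀ k l, k ≠ l → ∑ x, ∑ y, P k x * (M x y : ℂ) * Q l y = 0) :
    (univ.filter fun k => ∑ x, ∑ y, P k x * (M x y : ℂ) * Q k y ≠ 0).card ≤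
      (Matrix.of M).rank := by
  have hrank : (Matrix.of M).rank = Module.finrank ℝ (Submodule.span ℝ (Set.range M)) := by
    rw [Matrix.rank_eq_finrank_span_row]
    rfl
  rw [hrank]
  refine le_trans ?_ (g5_hull M)
  set F := univ.filter fun k => ∑ x, ∑ y, P k x * (M x y : ℂ) * Q k y ≠ 0 with hF
  set W := Submodule.span ℂ (Set.range fun (x : X) (y : Y) => (M x y : ℂ)) with hW
  have hmem : ∀ k : K, (fun y => ∑ x, P k x * (M x y : ℂ)) ∈ W := by
    intro k
    have h1 : (fun y => ∑ x, P k x * (M x y : ℂ)) =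
        ∑ x, P k x • (fun y => (M x y : ℂ)) := by
      ext y
      rw [Finset.sum_apply]
      rfl
    rw [h1]
    exact Submodule.sum_mem _ fun x _ => Submodule.smul_mem _ _ (Submodule.subset_span ⟨x, rfl⟩)
  have hpair : ∀ k l : K, ∑ y, (∑ x, P k x * (M x y : ℂ)) * Q l y =
      ∑ x, ∑ y, P k x * (M x y : ℂ) * Q l y := by
    intro k l
    rw [Finset.sum_comm]
    refine Finset.sum_congr rfl fun y _ => ?_
    rw [Finset.sum_mul]
  have hli : LinearIndependent ℂ (fun k : F => (⟨_, hmem k⟩ : W)) := by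
    rw [Fintype.linearIndependent_iff]
    intro g hg k
    have h1 := congrArg (fun w : W => ∑ y, (w : Y → ℂ) y * Q k y) hg
    simp only [Submodule.coe_sum, Submodule.coe_smul, Finset.sum_apply, Pi.smul_apply,
      smul_eq_mul, Submodule.coe_zero, Pi.zero_apply, zero_mul, Finset.sum_const_zero] at h1
    have h2 : ∑ y, (∑ c : F, g c * ∑ x, P c x * (M x y : ℂ)) * Q k y =
        ∑ c : F, g c * ∑ x, ∑ y, P c x * (M x y : ℂ) * Q k y := by
      have h3 : ∀ y, (∑ c : F, g c * ∑ x, P c x * (M x y : ℂ)) * Q k y =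
          ∑ c : F, g c * ((∑ x, P c x * (M x y : ℂ)) * Q k y) := by
        intro y
        rw [Finset.sum_mul]
        exact Finset.sum_congr rfl fun c _ => mul_assoc _ _ _
      rw [Finset.sum_congr rfl fun y _ => h3 y, Finset.sum_comm]
      refine Finset.sum_congr rfl fun c _ => ?_
      rw [← Finset.mul_sum, hpair]
    rw [h2, Finset.sum_eq_single k] at h1
    · have hk : ∀ l ∈ F, ∑ x, ∑ y, P l x * (M x y : ℂ) * Q l y ≠ 0 := by
        intro l hl
        rw [hF, mem_filter] at hl
        exact hl.2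
      exact (mul_eq_zero.1 h1).resolve_right (hk k k.2)
    · intro c _ hc
      rw [hd c k fun h => hc (Subtype.ext h), mul_zero]
    · intro h
      exact absurd (mem_univ _) h
  have h := hli.fintype_card_le_finrank
  rwa [Fintype.card_coe] at h

end Pool.Agent.AGG
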