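import Mathlib
import Pool.Agent.Lib_helper38.AGG.Defs
import Pool.Agent.Lib_helper58.XA.G5
import Pool.Agent.Lib_helper35.XA.G1
import Pool.Agent.Lib_helper16.XA.G4
import Pool.Agent.Lib_helper58.AGG.G3

set_option autoImplicit false

/-! AGG, block G4: the rank of a function of gadgets and of a sum -/

namespace Pool.Agent.AGG

open Finset Filter Pool.Agent.XA Pool.Agent.Lib_helper10.LogRank Pool.Agent.AGG

theorem g4_prod {ι : Type} [Fintype ι] [DecidableEq ι] {A B : ι → Type} [∀ i, Fintype (A i)]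
    [∀ i, Fintype (B i)] (f : ∀ i, A i → B i → ℂ) :
    ∑ x : ∀ i, A i, ∑ y : ∀ i, B i, ∏ i, f i (x i) (y i) = ∏ i, ∑ a, ∑ b, f i a b := by
  have h1 : ∀ x : ∀ i, A i, ∑ y : ∀ i, B i, ∏ i, f i (x i) (y i) = ∏ i, ∑ b, f i (x i) b := by
    intro x
    rw [Finset.prod_univ_sum, Fintype.piFinset_univ]
  rw [Finset.sum_congr rfl fun x _ => h1 x, Finset.prod_univ_sum, Fintype.piFinset_univ]

theorem g4_split {A B V : Type} [Fintype A] [Fintype B] [Fintype V] (F : A → B → ℂ)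
    (g h : V → ℂ) : ∑ x : A × V, ∑ y : B × V, F x.1 y.1 * g x.2 * h y.2 =
      (∑ a, ∑ b, F a b) * (∑ v, g v) * ∑ w, h w := by
  have h1 : ∀ x : A × V, ∑ y : B × V, F x.1 y.1 * g x.2 * h y.2 =
      (∑ b, F x.1 b) * g x.2 * ∑ w, h w := by
    intro x
    rw [Fintype.sum_prod_type]
    have h2 : ∀ b : B, ∑ w : V, F x.1 b * g x.2 * h w = F x.1 b * g x.2 * ∑ w, h w := by
      intro b
      rw [Finset.mul_sum]
    rw [Finset.sum_congr rfl fun b _ => h2 b, ← Finset.sum_mul, ← Finset.sum_mul]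
  rw [Finset.sum_congr rfl fun x _ => h1 x, ← Finset.sum_mul]
  congr 1
  rw [Fintype.sum_prod_type]
  have h3 : ∀ a : A, ∑ v : V, (∑ b, F a b) * g v = (∑ b, F a b) * ∑ v, g v := by
    intro a
    rw [Finset.mul_sum]
  rw [Finset.sum_congr rfl fun a _ => h3 a, ← Finset.sum_mul]

theorem g4_orth {V : Type} [AddCommGroup V] [Fintype V] (χ ψ : AddChar V ℂ) :
    ∑ v, (starRingEnd ℂ) (χ v) * ψ v = if χ = ψ then (Fintype.card V : ℂ) else 0 := by
  classical
  have h1 : ∀ v, (starRingEnd ℂ) (χ v) * ψ v = (ψ - χ) v := by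
    intro v
    rw [AddChar.sub_apply', ← AddChar.map_neg_eq_conj, mul_comm, AddChar.map_neg_eq_inv,
      div_eq_mul_inv]
  rw [Finset.sum_congr rfl fun v _ => h1 v, AddChar.sum_eq_ite]
  by_cases h : χ = ψ
  · rw [if_pos h, if_pos (sub_eq_zero.2 h.symm)]
  · rw [if_neg h, if_neg fun h' => h (sub_eq_zero.1 h').symm]

theorem rank_tensor {ι : Type} [Fintype ι] [DecidableEq ι] {A B : ι → Type} [∀ i, Fintype (A i)]
    [∀ i, Fintype (B i)] {V : Type} [AddCommGroup V] [Fintype V] {G : ∀ i, A i → B i → Bool}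
    {l m : ι → Bool → ℝ} (hG : ∀ i, Diag (G i) (l i) (m i)) (a : Finset ι → AddChar V ℂ → ℂ)
    (M : (∀ i, A i) × V → (∀ i, B i) × V → ℝ)
    (hM : ∀ x y, (M x y : ℂ) = ∑ u : Finset ι, ∑ χ : AddChar V ℂ,
      a u χ * (∏ i ∈ u, if G i (x.1 i) (y.1 i) then 1 else 0) * χ (x.2 + y.2)) :
    (univ.filter fun p : Finset ι × AddChar V ℂ => ∑ u : Finset ι, a u p.2 *
      ∏ i, (if i ∈ u then (m i (decide (i ∈ p.1)) : ℂ) else (l i (decide (i ∈ p.1)) : ℂ)) ≠
        0).card ≤ (Matrix.of M).rank := by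
  classical
  choose p q hpq using hG
  -- the sums over a gadget
  have hgad : ∀ (i : ι) (s t : Bool) (c : Bool), ∑ x, ∑ y, (p i s x : ℂ) * (q i t y : ℂ) *
      (if c then (if G i x y then 1 else 0) else 1) =
      if s = t then (if c then (m i s : ℂ) else (l i s : ℂ)) else 0 := by
    intro i s t c
    obtain ⟨h1, h2⟩ := hpq i s t
    cases c with
    | false =>
      have h3 := congrArg (fun x : ℝ => (x : ℂ)) h1
      simp only [Complex.ofReal_sum, Complex.ofReal_mul, apply_ite (fun x : ℝ => (x : ℂ)),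
        Complex.ofReal_zero] at h3
      simpa using h3
    | true =>
      have h3 := congrArg (fun x : ℝ => (x : ℂ)) h2
      simp only [Complex.ofReal_sum, Complex.ofReal_mul, apply_ite (fun x : ℝ => (x : ℂ)),
        Complex.ofReal_zero, Complex.ofReal_one] at h3
      simpa using h3
  set P : Finset ι × AddChar V ℂ → (∀ i, A i) × V → ℂ := fun k x =>
    (∏ i, (p i (decide (i ∈ k.1)) (x.1 i) : ℂ)) * (starRingEnd ℂ) (k.2 x.2) with hP
  set Q : Finset ι × AddChar V ℂ → (∀ i, B i) × V → ℂ := fun k y =>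
    (∏ i, (q i (decide (i ∈ k.1)) (y.1 i) : ℂ)) * (starRingEnd ℂ) (k.2 y.2) with hQ
  -- the main computation
  have hmain : ∀ k k' : Finset ι × AddChar V ℂ, ∑ x, ∑ y, P k x * (M x y : ℂ) * Q k' y =
      ∑ u : Finset ι, ∑ ψ : AddChar V ℂ, a u ψ *
        ((∏ i, if decide (i ∈ k.1) = decide (i ∈ k'.1) then
            (if i ∈ u then (m i (decide (i ∈ k.1)) : ℂ) else (l i (decide (i ∈ k.1)) : ℂ)) else 0) *
        (if k.2 = ψ then (Fintype.card V : ℂ) else 0) *
        (if k'.2 = ψ then (Fintype.card V : ℂ) else 0)) := by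
    intro k k'
    have h1 : ∀ x y, P k x * (M x y : ℂ) * Q k' y = ∑ u : Finset ι, ∑ ψ : AddChar V ℂ, a u ψ *
        ((∏ i, ((p i (decide (i ∈ k.1)) (x.1 i) : ℂ) * (q i (decide (i ∈ k'.1)) (y.1 i) : ℂ) *
          (if i ∈ u then (if G i (x.1 i) (y.1 i) then 1 else 0) else 1))) *
        ((starRingEnd ℂ) (k.2 x.2) * ψ x.2) * ((starRingEnd ℂ) (k'.2 y.2) * ψ y.2)) := by
      intro x y
      rw [hM, hP, hQ]
      simp only
      rw [Finset.mul_sum, Finset.sum_mul]
      refine Finset.sum_congr rfl fun u _ => ?_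
      rw [Finset.mul_sum, Finset.sum_mul]
      refine Finset.sum_congr rfl fun ψ _ => ?_
      rw [AddChar.map_add_eq_mul, Finset.prod_mul_distrib, Finset.prod_mul_distrib]
      have h2 : ∏ i, (if i ∈ u then (if G i (x.1 i) (y.1 i) then (1 : ℂ) else 0) else 1) =
          ∏ i ∈ u, if G i (x.1 i) (y.1 i) then 1 else 0 := by
        rw [Finset.prod_ite_mem, Finset.univ_inter]
      rw [h2]
      ring
    have h3 : ∀ x, ∑ y, P k x * (M x y : ℂ) * Q k' y = ∑ u : Finset ι, ∑ ψ : AddChar V ℂ,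
        ∑ y : (∀ i, B i) × V, a u ψ *
        ((∏ i, ((p i (decide (i ∈ k.1)) (x.1 i) : ℂ) * (q i (decide (i ∈ k'.1)) (y.1 i) : ℂ) *
          (if i ∈ u then (if G i (x.1 i) (y.1 i) then 1 else 0) else 1))) *
        ((starRingEnd ℂ) (k.2 x.2) * ψ x.2) * ((starRingEnd ℂ) (k'.2 y.2) * ψ y.2)) := by
      intro x
      rw [Finset.sum_congr rfl fun y _ => h1 x y, Finset.sum_comm]
      refine Finset.sum_congr rfl fun u _ => ?_
      rw [Finset.sum_comm]
    rw [Finset.sum_congr rfl fun x _ => h3 x, Finset.sum_comm]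
    refine Finset.sum_congr rfl fun u _ => ?_
    rw [Finset.sum_comm]
    refine Finset.sum_congr rfl fun ψ _ => ?_
    have h4 : ∀ x : (∀ i, A i) × V, ∑ y : (∀ i, B i) × V, a u ψ *
        ((∏ i, ((p i (decide (i ∈ k.1)) (x.1 i) : ℂ) * (q i (decide (i ∈ k'.1)) (y.1 i) : ℂ) *
          (if i ∈ u then (if G i (x.1 i) (y.1 i) then 1 else 0) else 1))) *
        ((starRingEnd ℂ) (k.2 x.2) * ψ x.2) * ((starRingEnd ℂ) (k'.2 y.2) * ψ y.2)) =
        a u ψ * ∑ y : (∀ i, B i) × V,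
        ((∏ i, ((p i (decide (i ∈ k.1)) (x.1 i) : ℂ) * (q i (decide (i ∈ k'.1)) (y.1 i) : ℂ) *
          (if i ∈ u then (if G i (x.1 i) (y.1 i) then 1 else 0) else 1))) *
        ((starRingEnd ℂ) (k.2 x.2) * ψ x.2) * ((starRingEnd ℂ) (k'.2 y.2) * ψ y.2)) := by
      intro x
      rw [Finset.mul_sum]
    rw [Finset.sum_congr rfl fun x _ => h4 x, ← Finset.mul_sum]
    congr 1
    have h5 := g4_split (fun (x : ∀ i, A i) (y : ∀ i, B i) =>
      ∏ i, ((p i (decide (i ∈ k.1)) (x i) : ℂ) * (q i (decide (i ∈ k'.1)) (y i) : ℂ) *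
          (if i ∈ u then (if G i (x i) (y i) then 1 else 0) else 1)))
      (fun v => (starRingEnd ℂ) (k.2 v) * ψ v) (fun v => (starRingEnd ℂ) (k'.2 v) * ψ v)
    rw [h5, g4_orth, g4_orth]
    have h6 := g4_prod (fun i (x : A i) (y : B i) =>
      (p i (decide (i ∈ k.1)) x : ℂ) * (q i (decide (i ∈ k'.1)) y : ℂ) *
          (if i ∈ u then (if G i x y then 1 else 0) else 1))
    rw [h6]
    have h7 : ∀ i, ∑ x, ∑ y, (p i (decide (i ∈ k.1)) x : ℂ) * (q i (decide (i ∈ k'.1)) y : ℂ) *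
          (if i ∈ u then (if G i x y then (1 : ℂ) else 0) else 1) =
        if decide (i ∈ k.1) = decide (i ∈ k'.1) then
            (if i ∈ u then (m i (decide (i ∈ k.1)) : ℂ) else (l i (decide (i ∈ k.1)) : ℂ)) else 0 := by
      intro i
      have h8 := hgad i (decide (i ∈ k.1)) (decide (i ∈ k'.1)) (decide (i ∈ u))
      simpa using h8
    rw [Finset.prod_congr rfl fun i _ => h7 i]
  -- off the diagonal
  have hd : ∀ k k' : Finset ι × AddChar V ℂ, k ≠ k' →
      ∑ x, ∑ y, P k x * (M x y : ℂ) * Q k' y = 0 := by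
    intro k k' hkk
    rw [hmain]
    refine Finset.sum_eq_zero fun u _ => Finset.sum_eq_zero fun ψ _ => ?_
    by_cases h1 : k.1 = k'.1
    · have h2 : k.2 ≠ k'.2 := fun h => hkk (Prod.ext h1 h)
      by_cases h3 : k.2 = ψ
      · rw [if_neg (fun h4 : k'.2 = ψ => h2 (h3.trans h4.symm)), mul_zero, mul_zero]
      · rw [if_neg h3, mul_zero, zero_mul, mul_zero]
    · obtain ⟨i, hi⟩ : ∃ i, ¬ (i ∈ k.1 ↔ i ∈ k'.1) := by
        by_contra hc
        push Not at hc
        exact h1 (Finset.ext hc)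
      have h2 : (∏ i, if decide (i ∈ k.1) = decide (i ∈ k'.1) then
            (if i ∈ u then (m i (decide (i ∈ k.1)) : ℂ) else (l i (decide (i ∈ k.1)) : ℂ)) else 0) =
          0 := by
        refine Finset.prod_eq_zero (mem_univ i) ?_
        rw [if_neg]
        rw [decide_eq_decide]
        exact hi
      rw [h2, zero_mul, zero_mul, mul_zero]
  -- the diagonal
  have hdiag : ∀ k : Finset ι × AddChar V ℂ, ∑ x, ∑ y, P k x * (M x y : ℂ) * Q k y =
      (Fintype.card V : ℂ) ^ 2 * ∑ u : Finset ι, a u k.2 *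
      ∏ i, (if i ∈ u then (m i (decide (i ∈ k.1)) : ℂ) else (l i (decide (i ∈ k.1)) : ℂ)) := by
    intro k
    rw [hmain, Finset.mul_sum]
    refine Finset.sum_congr rfl fun u _ => ?_
    rw [Finset.sum_eq_single k.2]
    · rw [if_pos rfl]
      have h1 : (∏ i, if decide (i ∈ k.1) = decide (i ∈ k.1) then
            (if i ∈ u then (m i (decide (i ∈ k.1)) : ℂ) else (l i (decide (i ∈ k.1)) : ℂ)) else 0) =
          ∏ i, (if i ∈ u then (m i (decide (i ∈ k.1)) : ℂ) else (l i (decide (i ∈ k.1)) : ℂ)) :=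
        Finset.prod_congr rfl fun i _ => if_pos rfl
      rw [h1]
      ring
    · intro ψ _ hψ
      rw [if_neg (fun h => hψ h.symm), mul_zero, mul_zero]
    · intro h
      exact absurd (mem_univ _) h
  have hV : (Fintype.card V : ℂ) ≠ 0 := g1_card_ne
  refine le_trans (card_le_card ?_) (rank_diag M P Q hd)
  intro k hk
  rw [mem_filter] at hk ⊢
  refine ⟨mem_univ _, ?_⟩
  rw [hdiag]
  exact mul_ne_zero (pow_ne_zero 2 hV) hk.2

end Pool.Agent.AGG
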