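import Mathlib
import Pool.Agent.Lib_helper38.AGG.Defs

set_option autoImplicit false

/-! AGG, G5: a combination of patterns with many nonzero functionals -/

namespace Pool.Agent.AGG

open Finset

section g5

variable {ι : Type} [DecidableEq ι]

/-- the factor of the coordinate `i` -/
noncomputable def g5c (e : ι → ℝ) (σ T w : Finset ι) (i : ι) : ℂ :=
  if i ∈ w then (((if i ∈ σ then 1 else if i ∈ T then 1 else 0 : ℝ)) : ℂ) else
    (((if i ∈ T then 0 else if i ∈ σ then e i else 1 : ℝ)) : ℂ)

/-- the functional -/
noncomputable def g5B (e : ι → ℝ) (I σ T : Finset ι) (α : Finset ι → ℂ) : ℂ :=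
  ∑ w ∈ I.powerset, α w * ∏ i ∈ I, g5c e σ T w i

theorem g5c_congr {e : ι → ℝ} {σ T w σ' T' w' : Finset ι} {i : ι} (h1 : i ∈ σ ↔ i ∈ σ')
    (h2 : i ∈ T ↔ i ∈ T') (h3 : i ∈ w ↔ i ∈ w') : g5c e σ T w i = g5c e σ' T' w' i := by
  unfold g5c
  simp only [h1, h2, h3]

theorem g5B_insert {e : ι → ℝ} {I : Finset ι} {i : ι} (hi : i ∉ I) (σ T σ' T' : Finset ι)
    (hσ : ∀ j ∈ I, j ∈ σ ↔ j ∈ σ') (hT : ∀ j ∈ I, j ∈ T ↔ j ∈ T') (α : Finset ι → ℂ) :
    g5B e (insert i I) σ T α = g5B e I σ' T'
      (fun w => α w * g5c e σ T ∅ i + α (insert i w) * g5c e σ T {i} i) := by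
  unfold g5B
  rw [Finset.sum_powerset_insert hi, ← Finset.sum_add_distrib]
  apply Finset.sum_congr rfl
  intro w hw
  rw [Finset.mem_powerset] at hw
  have hiw : i ∉ w := fun h => hi (hw h)
  rw [Finset.prod_insert hi, Finset.prod_insert hi]
  have h1 : ∏ j ∈ I, g5c e σ T w j = ∏ j ∈ I, g5c e σ' T' w j :=
    Finset.prod_congr rfl fun j hj => g5c_congr (hσ j hj) (hT j hj) Iff.rfl
  have h2 : ∏ j ∈ I, g5c e σ T (insert i w) j = ∏ j ∈ I, g5c e σ' T' w j :=
    Finset.prod_congr rfl fun j hj => g5c_congr (hσ j hj) (hT j hj) (by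
      rw [Finset.mem_insert]
      constructor
      · rintro (rfl | h)
        · exact absurd hj hi
        · exact h
      · exact Or.inr)
  have h3 : g5c e σ T w i = g5c e σ T ∅ i := g5c_congr Iff.rfl Iff.rfl (by simp [hiw])
  have h4 : g5c e σ T (insert i w) i = g5c e σ T {i} i := g5c_congr Iff.rfl Iff.rfl (by simp)
  rw [h1, h2, h3, h4]
  ring

open Classical in
/-- the number of nonzero functionals -/
noncomputable def g5n (e : ι → ℝ) (I σ : Finset ι) (α : Finset ι → ℂ) : ℕ :=
  (I.powerset.filter fun T => g5B e I σ T α ≠ 0).card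

/-- the sum over all choices -/
noncomputable def g5M (N : Finset ι) (e : ι → ℝ) (I : Finset ι) (α : Finset ι → ℂ) : ℕ :=
  ∑ σ ∈ (N ∩ I).powerset, g5n e I σ α

theorem g5n_insert {e : ι → ℝ} {I : Finset ι} {i : ι} (hi : i ∉ I) (σ σ' : Finset ι)
    (hσ : ∀ j ∈ I, j ∈ σ ↔ j ∈ σ') (α : Finset ι → ℂ) :
    g5n e (insert i I) σ α = g5n e I σ' (fun w => if i ∈ σ then (e i : ℂ) * α w + α (insert i w) else α w) +
      g5n e I σ' (fun w => α (insert i w)) := by
  classical
  unfold g5n
  rw [Finset.powerset_insert, Finset.filter_union, Finset.card_union_of_disjoint]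
  · congr 1
    · congr 1
      apply Finset.filter_congr
      intro T hT
      rw [Finset.mem_powerset] at hT
      have hiT : i ∉ T := fun h => hi (hT h)
      rw [g5B_insert hi σ T σ' T hσ (fun _ _ => Iff.rfl)]
      have : (fun w => α w * g5c e σ T ∅ i + α (insert i w) * g5c e σ T {i} i) =
          (fun w => if i ∈ σ then (e i : ℂ) * α w + α (insert i w) else α w) := by
        funext w
        unfold g5c
        by_cases h : i ∈ σ
        · simp [h, hiT]; ring
        · simp [h, hiT]
      rw [this]
    · rw [Finset.filter_image, Finset.card_image_of_injOn]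
      · congr 1
        apply Finset.filter_congr
        intro T hT
        rw [Finset.mem_powerset] at hT
        have hiT : i ∉ T := fun h => hi (hT h)
        rw [g5B_insert hi σ (insert i T) σ' T hσ (fun j hj => by
          rw [Finset.mem_insert]
          constructor
          · rintro (rfl | h)
            · exact absurd hj hi
            · exact h
          · exact Or.inr)]
        have : (fun w => α w * g5c e σ (insert i T) ∅ i +
            α (insert i w) * g5c e σ (insert i T) {i} i) = (fun w => α (insert i w)) := by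
          funext w
          unfold g5c
          simp
        rw [this]
      · intro T hT T' hT' h
        rw [Finset.mem_coe, Finset.mem_filter, Finset.mem_powerset] at hT hT'
        have h1 : i ∉ T := fun h => hi (hT.1 h)
        have h2 : i ∉ T' := fun h => hi (hT'.1 h)
        have h3 := congrArg (fun s => s.erase i) h
        simpa [Finset.erase_insert h1, Finset.erase_insert h2] using h3
  · rw [Finset.disjoint_left]
    intro T hT hT'
    rw [Finset.mem_filter, Finset.mem_powerset] at hT
    rw [Finset.mem_filter, Finset.mem_image] at hT'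
    obtain ⟨⟨T'', _, rfl⟩, _⟩ := hT'
    exact hi (hT.1 (Finset.mem_insert_self _ _))

theorem g5M_insert_mem {N : Finset ι} {e : ι → ℝ} {I : Finset ι} {i : ι} (hi : i ∉ I) (hN : i ∈ N)
    (α : Finset ι → ℂ) :
    g5M N e (insert i I) α = 2 * g5M N e I (fun w => α (insert i w)) + g5M N e I α +
      g5M N e I (fun w => (e i : ℂ) * α w + α (insert i w)) := by
  unfold g5M
  have h1 : N ∩ insert i I = insert i (N ∩ I) := by
    ext j
    simp only [Finset.mem_inter, Finset.mem_insert]
    constructor
    · rintro ⟨a, rfl | b⟩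
      · exact Or.inl rfl
      · exact Or.inr ⟨a, b⟩
    · rintro (rfl | ⟨a, b⟩)
      · exact ⟨hN, Or.inl rfl⟩
      · exact ⟨a, Or.inr b⟩
  have hiN : i ∉ N ∩ I := fun h => hi (Finset.mem_inter.1 h).2
  rw [h1, Finset.sum_powerset_insert hiN, Finset.mul_sum, ← Finset.sum_add_distrib,
    ← Finset.sum_add_distrib, ← Finset.sum_add_distrib]
  apply Finset.sum_congr rfl
  intro σ hσ
  rw [Finset.mem_powerset] at hσ
  have hiσ : i ∉ σ := fun h => hiN (hσ h)
  rw [g5n_insert hi σ σ (fun _ _ => Iff.rfl), g5n_insert hi (insert i σ) σ (fun j hj => by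
    rw [Finset.mem_insert]
    constructor
    · rintro (rfl | h)
      · exact absurd hj hi
      · exact h
    · exact Or.inr)]
  simp only [hiσ, Finset.mem_insert_self, if_true, if_false]
  ring

theorem g5M_insert_not {N : Finset ι} {e : ι → ℝ} {I : Finset ι} {i : ι} (hi : i ∉ I) (hN : i ∉ N)
    (α : Finset ι → ℂ) :
    g5M N e (insert i I) α = g5M N e I α + g5M N e I (fun w => α (insert i w)) := by
  unfold g5M
  rw [Finset.inter_insert_of_notMem hN, ← Finset.sum_add_distrib]
  apply Finset.sum_congr rfl
  intro σ hσ
  rw [Finset.mem_powerset] at hσ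
  have hiσ : i ∉ σ := fun h => hN (Finset.mem_inter.1 (hσ h)).1
  rw [g5n_insert hi σ σ (fun _ _ => Iff.rfl)]
  simp only [hiσ, if_false]

theorem g5_main (N : Finset ι) {e : ι → ℝ} (he : ∀ i, e i ≠ 0) (I : Finset ι) :
    ∀ (α : Finset ι → ℂ) (u : Finset ι), u ⊆ I → α u ≠ 0 →
      (2 : ℝ) ^ (N ∩ I).card * (3 / 2 : ℝ) ^ (u ∩ N).card ≤ g5M N e I α := by
  classical
  induction I using Finset.induction_on with
  | empty =>
    intro α u hu hα
    rw [Finset.subset_empty] at hu
    subst hu
    have : g5M N e ∅ α = 1 := by
      unfold g5M g5n g5B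
      simp [hα]
    rw [this]
    simp
  | insert i I hi ih =>
    intro α u hu hα
    by_cases hN : i ∈ N
    · have hc : (N ∩ insert i I).card = (N ∩ I).card + 1 := by
        rw [Finset.inter_insert_of_mem hN, Finset.card_insert_of_notMem]
        exact fun h => hi (Finset.mem_inter.1 h).2
      rw [g5M_insert_mem hi hN, hc]
      push_cast
      have hg0 : (0 : ℝ) ≤ g5M N e I (fun w => α (insert i w)) := Nat.cast_nonneg _
      have hg1 : (0 : ℝ) ≤ g5M N e I α := Nat.cast_nonneg _
      have hg2 : (0 : ℝ) ≤ g5M N e I (fun w => (e i : ℂ) * α w + α (insert i w)) :=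
        Nat.cast_nonneg _
      by_cases hiu : i ∈ u
      · -- `i` is in the monomial
        obtain ⟨u', hu'⟩ : ∃ u', u' = u.erase i := ⟨_, rfl⟩
        have hins : insert i u' = u := by rw [hu']; exact Finset.insert_erase hiu
        have hsub : u' ⊆ I := by
          rw [hu']
          intro j hj
          rw [Finset.mem_erase] at hj
          have := hu hj.2
          rw [Finset.mem_insert] at this
          exact this.resolve_left hj.1
        have hcu : (u ∩ N).card = (u' ∩ N).card + 1 := by
          rw [← hins, Finset.insert_inter_of_mem hN, Finset.card_insert_of_notMem]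
          intro h
          have := (Finset.mem_inter.1 h).1
          rw [hu'] at this
          exact Finset.notMem_erase _ _ this
        have h1 := ih (fun w => α (insert i w)) u' hsub (by rw [hins]; exact hα)
        rw [hcu, pow_succ, pow_succ]
        by_cases h0 : α u' = 0
        · have h2 := ih (fun w => (e i : ℂ) * α w + α (insert i w)) u' hsub (by
            rw [hins, h0, mul_zero, zero_add]; exact hα)
          nlinarith
        · have h2 := ih α u' hsub h0
          nlinarith
      · have hsub : u ⊆ I := by
          intro j hj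
          have := hu hj
          rw [Finset.mem_insert] at this
          rcases this with rfl | h
          · exact absurd hj hiu
          · exact h
        have h1 := ih α u hsub hα
        rw [pow_succ]
        by_cases h0 : (e i : ℂ) * α u + α (insert i u) = 0
        · have h3 : α (insert i u) ≠ 0 := by
            intro h
            rw [h, add_zero, mul_eq_zero] at h0
            rcases h0 with h0 | h0
            · exact he i (by exact_mod_cast h0)
            · exact hα h0
          have h2 := ih (fun w => α (insert i w)) u hsub h3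
          nlinarith
        · have h2 := ih (fun w => (e i : ℂ) * α w + α (insert i w)) u hsub h0
          nlinarith
    · rw [g5M_insert_not hi hN, Finset.inter_insert_of_notMem hN]
      push_cast
      have hg0 : (0 : ℝ) ≤ g5M N e I (fun w => α (insert i w)) := Nat.cast_nonneg _
      have hg1 : (0 : ℝ) ≤ g5M N e I α := Nat.cast_nonneg _
      by_cases hiu : i ∈ u
      · obtain ⟨u', hu'⟩ : ∃ u', u' = u.erase i := ⟨_, rfl⟩
        have hins : insert i u' = u := by rw [hu']; exact Finset.insert_erase hiu
        have hsub : u' ⊆ I := by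
          rw [hu']
          intro j hj
          rw [Finset.mem_erase] at hj
          have := hu hj.2
          rw [Finset.mem_insert] at this
          exact this.resolve_left hj.1
        have hcu : (u ∩ N).card = (u' ∩ N).card := by
          rw [← hins, Finset.insert_inter_of_notMem hN]
        have h1 := ih (fun w => α (insert i w)) u' hsub (by rw [hins]; exact hα)
        rw [hcu]
        linarith
      · have hsub : u ⊆ I := by
          intro j hj
          have := hu hj
          rw [Finset.mem_insert] at this
          rcases this with rfl | h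
          · exact absurd hj hiu
          · exact h
        have h1 := ih α u hsub hα
        linarith

end g5

theorem three_half {ι : Type} [Fintype ι] [DecidableEq ι] (N : Finset ι) {e : ι → ℝ}
    (he : ∀ i, e i ≠ 0) (α : Finset ι → ℂ) {u : Finset ι} (hu : α u ≠ 0) :
    ∃ σ ⊆ N, (3 / 2 : ℝ) ^ (u ∩ N).card ≤ ((univ.filter fun T : Finset ι => ∑ w : Finset ι, α w *
      ∏ i, (if i ∈ w then (((if i ∈ σ then 1 else if i ∈ T then 1 else 0 : ℝ)) : ℂ) else
        (((if i ∈ T then 0 else if i ∈ σ then e i else 1 : ℝ)) : ℂ)) ≠ 0).card : ℝ) := by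
  classical
  have h := g5_main N he univ α u (Finset.subset_univ _) hu
  rw [Finset.inter_univ] at h
  by_contra hcon
  push Not at hcon
  have h1 : (g5M N e univ α : ℝ) < (2 : ℝ) ^ N.card * (3 / 2 : ℝ) ^ (u ∩ N).card := by
    unfold g5M
    rw [Finset.inter_univ]
    push_cast
    calc ∑ σ ∈ N.powerset, (g5n e univ σ α : ℝ)
        < ∑ σ ∈ N.powerset, (3 / 2 : ℝ) ^ (u ∩ N).card := by
          apply Finset.sum_lt_sum_of_nonempty ⟨∅, Finset.empty_mem_powerset _⟩
          intro σ hσ
          rw [Finset.mem_powerset] at hσ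
          refine lt_of_le_of_lt (le_of_eq ?_) (hcon σ hσ)
          unfold g5n g5B
          rw [Finset.powerset_univ]
          congr 1
      _ = (2 : ℝ) ^ N.card * (3 / 2 : ℝ) ^ (u ∩ N).card := by
          rw [Finset.sum_const, Finset.card_powerset, nsmul_eq_mul]
          push_cast
          ring
  linarith

end Pool.Agent.AGG
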