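import Mathlib
import Pool.Agent.Lib_helper38.AGG.Defs
import Pool.Agent.Lib_helper35.XA.G1

set_option autoImplicit false

/-! AGG, block G6: the coefficients of a mixture function -/

namespace Pool.Agent.AGG

open Finset Filter Pool.Agent.XA Pool.Agent.Lib_helper10.LogRank Pool.Agent.AGG

section coef

variable {ι : Type} [Fintype ι] [DecidableEq ι] {V : Type} [AddCommGroup V] [Fintype V]

theorem g6_sum {w z : Finset ι} (h : w ⊆ z) :
    ∑ u ∈ z.powerset, (if w ⊆ u then ((-1) ^ (u \ w).card : ℂ) else 0) =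
      if w = z then 1 else 0 := by
  have h1 : ∑ u ∈ z.powerset, (if w ⊆ u then ((-1) ^ (u \ w).card : ℂ) else 0) =
      ∑ v ∈ (z \ w).powerset, ((-1) ^ v.card : ℂ) := by
    rw [← Finset.sum_filter]
    refine Finset.sum_bij' (fun u _ => u \ w) (fun v _ => v ∪ w) ?_ ?_ ?_ ?_ ?_
    · intro u hu
      rw [mem_filter, mem_powerset] at hu
      rw [mem_powerset]
      exact sdiff_subset_sdiff hu.1 (Subset.refl w)
    · intro v hv
      rw [mem_powerset] at hv
      rw [mem_filter, mem_powerset]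
      exact ⟨union_subset (hv.trans sdiff_subset) h, subset_union_right⟩
    · intro u hu
      rw [mem_filter, mem_powerset] at hu
      exact sdiff_union_of_subset hu.2
    · intro v hv
      rw [mem_powerset] at hv
      have hd : Disjoint v w := by
        rw [Finset.disjoint_left]
        intro x hx hw
        exact (mem_sdiff.1 (hv hx)).2 hw
      exact union_sdiff_cancel_right hd
    · intro u _
      rfl
  have h2 := Finset.sum_powerset_neg_one_pow_card (x := z \ w)
  have h3 : ∑ v ∈ (z \ w).powerset, ((-1) ^ v.card : ℂ) =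
      ((∑ v ∈ (z \ w).powerset, ((-1) ^ v.card : ℤ) : ℤ) : ℂ) := by
    push_cast
    rfl
  rw [h1, h3, h2]
  by_cases hz : w = z
  · rw [if_pos hz, if_pos (by rw [hz, sdiff_self]; rfl)]
    norm_num
  · rw [if_neg hz, if_neg (fun h4 => hz (Subset.antisymm h (sdiff_eq_empty_iff_subset.1 h4)))]
    norm_num

theorem sl_coef (φ : Finset ι → V → ℝ) (z : Finset ι) : sl (coef φ) z = ft (φ z) := by
  funext χ
  unfold sl coef
  have h1 : ∀ u ∈ z.powerset, ∑ w ∈ u.powerset, (-1) ^ (u \ w).card * ft (φ w) χ =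
      ∑ w ∈ z.powerset, (if w ⊆ u then ((-1) ^ (u \ w).card : ℂ) else 0) * ft (φ w) χ := by
    intro u hu
    have h2 : u.powerset = z.powerset.filter fun w => w ⊆ u := by
      ext w
      rw [mem_filter, mem_powerset, mem_powerset]
      exact ⟨fun h => ⟨h.trans (mem_powerset.1 hu), h⟩, fun h => h.2⟩
    rw [h2, Finset.sum_filter]
    refine Finset.sum_congr rfl fun w _ => ?_
    by_cases h : w ⊆ u
    · rw [if_pos h, if_pos h]
    · rw [if_neg h, if_neg h, zero_mul]
  rw [Finset.sum_congr rfl h1, Finset.sum_comm]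
  have h3 : ∀ w ∈ z.powerset,
      ∑ u ∈ z.powerset, (if w ⊆ u then ((-1) ^ (u \ w).card : ℂ) else 0) * ft (φ w) χ =
        if w = z then ft (φ w) χ else 0 := by
    intro w hw
    rw [← Finset.sum_mul, g6_sum (mem_powerset.1 hw)]
    by_cases h : w = z
    · rw [if_pos h, if_pos h, one_mul]
    · rw [if_neg h, if_neg h, zero_mul]
  rw [Finset.sum_congr rfl h3, Finset.sum_ite_eq', if_pos (mem_powerset_self z)]

theorem mix_coef {φ : Finset ι → V → ℝ} (h : ∀ z v, φ z v = 1 ∨ φ z v = -1) :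
    Mix (coef φ) := by
  intro z
  rw [sl_coef]
  exact ft_bf (h z)

theorem coef_expand (φ : Finset ι → V → ℝ) (z : Finset ι) (v : V) :
    (φ z v : ℂ) = ∑ u : Finset ι, ∑ χ : AddChar V ℂ,
      coef φ u χ * (∏ i ∈ u, if i ∈ z then 1 else 0) * χ v := by
  have h1 : ∀ u : Finset ι, (∏ i ∈ u, if i ∈ z then (1 : ℂ) else 0) = if u ⊆ z then 1 else 0 := by
    intro u
    by_cases h : u ⊆ z
    · rw [if_pos h]
      exact Finset.prod_eq_one fun i hi => if_pos (h hi)
    · rw [if_neg h]
      obtain ⟨i, hi, hz⟩ := Finset.not_subset.1 h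
      exact Finset.prod_eq_zero hi (if_neg hz)
  rw [← ft_inv (φ z) v, ← sl_coef]
  unfold ev sl
  rw [Finset.sum_comm]
  refine Finset.sum_congr rfl fun χ _ => ?_
  rw [AddChar.doubleDualEmb_apply, Finset.sum_mul, ← Finset.sum_subset (Finset.subset_univ _)]
  · refine Finset.sum_congr rfl fun u hu => ?_
    rw [h1, if_pos (mem_powerset.1 hu), mul_one]
  · intro u _ hu
    rw [h1, if_neg (fun h => hu (mem_powerset.2 h)), mul_zero, zero_mul]

theorem ev_coef (φ : Finset ι → V → ℝ) (z : Finset ι) (v w : V) :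
    ev (sl (coef φ) z) ((AddChar.doubleDualEmb v : AddChar (AddChar V ℂ) ℂ) *
      (AddChar.doubleDualEmb w : AddChar (AddChar V ℂ) ℂ)) = (φ z (v + w) : ℂ) := by
  have h1 : (AddChar.doubleDualEmb v : AddChar (AddChar V ℂ) ℂ) *
      (AddChar.doubleDualEmb w : AddChar (AddChar V ℂ) ℂ) = AddChar.doubleDualEmb (v + w) := by
    ext χ
    rw [AddChar.mul_apply, AddChar.doubleDualEmb_apply, AddChar.doubleDualEmb_apply,
      AddChar.doubleDualEmb_apply, AddChar.map_add_eq_mul]
  rw [h1, sl_coef, ft_inv]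

end coef

end Pool.Agent.AGG
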