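import Mathlib
import Pool.Agent.Lib_helper38.AGG.Defs
import Pool.Agent.Lib_helper58.XA.K2a
import Pool.Agent.Lib_helper35.XA.G1
import Pool.Agent.Lib_helper16.XA.G4
import Pool.Agent.Lib_helper58.AGG.A2a
import Pool.Agent.Lib_helper58.AGG.G6

set_option autoImplicit false

namespace Pool.Agent.AGG

open Finset Filter Pool.Agent.XA Pool.Agent.Lib_helper10.LogRank Pool.Agent.AGG

section coef

variable {ι : Type} [Fintype ι] [DecidableEq ι] {V : Type} [AddCommGroup V] [Fintype V]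

theorem ord_coef {φ : Finset ι → V → ℝ} (h : ∀ z v, φ z v = 1 ∨ φ z v = -1) {r : ℕ} (hr : 2 ≤ r)
    (hn : nnz (coef φ) ≤ r) (u : Finset ι) (χ : AddChar V ℂ) (hχ : coef φ u χ ≠ 0) :
    addOrderOf χ ≤ r ^ 3 := by
  classical
  unfold coef at hχ
  obtain ⟨w, _, hw⟩ := Finset.exists_ne_zero_of_sum_ne_zero hχ
  have h1 : ft (φ w) χ ≠ 0 := right_ne_zero_of_mul hw
  have h2 := ft_ord (h w) h1
  have h3 : (spt (ft (φ w))).card ≤ r := by
    rw [← sl_coef φ w]
    refine ((Finset.card_le_card (spt_sl_sub (coef φ) w)).trans (card_chs (coef φ))).trans ?_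
    exact hn
  calc addOrderOf χ ≤ 2 * (spt (ft (φ w))).card ^ 2 := h2
    _ ≤ 2 * r ^ 2 := Nat.mul_le_mul_left 2 (Nat.pow_le_pow_left h3 2)
    _ ≤ r * r ^ 2 := Nat.mul_le_mul_right _ hr
    _ = r ^ 3 := by ring

end coef

end Pool.Agent.AGG
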