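import Mathlib
import Pool.Agent.Lib_helper38.AGG.Defs
import Pool.Agent.Lib_helper58.XA.E1g
import Pool.Agent.Lib_helper59.XA.H1
import Pool.Agent.Lib_helper35.XA.G1
import Pool.Agent.Lib_helper16.XA.G4
import Pool.Agent.Lib_helper58.AGG.A2a
import Pool.Agent.Lib_helper58.AGG.A2b
import Pool.Agent.Lib_helper58.AGG.E9
import Pool.Agent.Lib_helper58.AGG.G2
import Pool.Agent.Lib_helper58.AGG.G4
import Pool.Agent.Lib_helper58.AGG.G5
import Pool.Agent.Lib_helper58.AGG.G6
import Pool.Agent.Lib_helper58.AGG.G7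

set_option autoImplicit false

/-! AGG, H1: no gadget is an exclusive or -/

namespace Pool.Agent.AGG

open Finset Filter Pool.Agent.XA Pool.Agent.Lib_helper10.LogRank Pool.Agent.AGG

/-- the product which selects `u = T` -/
theorem h1_prod {ι : Type} [Fintype ι] [DecidableEq ι] (u T : Finset ι) :
    (∏ i, (if i ∈ u then (((if decide (i ∈ T) = true then 1 else 0 : ℝ)) : ℂ) else
      (((if decide (i ∈ T) = true then 0 else 1 : ℝ)) : ℂ))) = if u = T then 1 else 0 := by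
  by_cases h : u = T
  · subst h
    rw [if_pos rfl]
    apply Finset.prod_eq_one
    intro i _
    by_cases hi : i ∈ u <;> simp [hi]
  · rw [if_neg h]
    have h1 : ∃ i, ¬ (i ∈ u ↔ i ∈ T) := by
      by_contra hc
      push Not at hc
      exact h (Finset.ext hc)
    obtain ⟨i, hi⟩ := h1
    apply Finset.prod_eq_zero (Finset.mem_univ i)
    by_cases hu : i ∈ u
    · have hT : i ∉ T := fun hT => hi ⟨fun _ => hT, fun _ => hu⟩
      simp [hu, hT]
    · have hT : i ∈ T := by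
        by_contra hT
        exact hi ⟨fun h => absurd h hu, fun h => absurd h hT⟩
      simp [hu, hT]

theorem h1_sum {ι : Type} [Fintype ι] [DecidableEq ι] (α : Finset ι → ℂ) (T : Finset ι) :
    (∑ u : Finset ι, α u *
      ∏ i, (if i ∈ u then (((if decide (i ∈ T) = true then 1 else 0 : ℝ)) : ℂ) else
      (((if decide (i ∈ T) = true then 0 else 1 : ℝ)) : ℂ))) = α T := by
  rw [Finset.sum_eq_single T]
  · rw [h1_prod, if_pos rfl, mul_one]
  · intro u _ hu
    rw [h1_prod, if_neg hu, mul_zero]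
  · intro h
    exact absurd (Finset.mem_univ T) h

theorem h1_two {k r : ℕ} (h : (3 / 2 : ℝ) ^ k ≤ r) : 2 ^ k ≤ r ^ 2 := by
  have h1 : (2 : ℝ) ^ k ≤ (r : ℝ) ^ 2 := by
    calc (2 : ℝ) ^ k ≤ (9 / 4 : ℝ) ^ k := pow_le_pow_left₀ (by norm_num) (by norm_num) k
      _ = ((3 / 2 : ℝ) ^ k) ^ 2 := by rw [← pow_mul, mul_comm, pow_mul]; norm_num
      _ ≤ (r : ℝ) ^ 2 := pow_le_pow_left₀ (by positivity) h 2
  exact_mod_cast h1

theorem h1_mem {α : Type} {p : α → Prop} (I : DecidablePred p) {s : Finset α} {a : α} :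
    a ∈ @Finset.filter α p I s ↔ a ∈ s ∧ p a := Finset.mem_filter

theorem h1_wt {ι : Type} [Fintype ι] [DecidableEq ι] {V : Type} [AddCommGroup V] [Fintype V]
    [DecidableEq V] (N : Finset ι) (a : Finset ι → V → ℂ) {r : ℕ} (hn : nnz a ≤ r)
    (h : ∀ u χ, a u χ ≠ 0 → 2 ^ (u ∩ N).card ≤ r ^ 2) : wt N a (fun _ => True) ≤ r ^ 3 := by
  classical
  unfold wt
  unfold nnz at hn
  refine (Finset.sum_le_card_nsmul _ _ (r ^ 2) ?_).trans ?_
  · intro p hp
    have hp1 := (h1_mem _).1 hp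
    exact h p.1 p.2 hp1.2.1
  · have h1 : (r • r ^ 2 : ℕ) = r ^ 3 := by rw [smul_eq_mul]; ring
    rw [← h1]
    apply Nat.mul_le_mul_right
    refine le_trans (card_le_card ?_) hn
    intro p hp
    have hp1 := (h1_mem _).1 hp
    exact (h1_mem _).2 ⟨hp1.1, hp1.2.1⟩

theorem no_xor {ε : ℝ} (hε : 0 < ε) : ∃ C : ℝ, 0 ≤ C ∧ ∀ (ι : Type) [Fintype ι] [DecidableEq ι]
    (A B : ι → Type) [∀ i, Fintype (A i)] [∀ i, Fintype (B i)] (V : Type) [AddCommGroup V]
    [Fintype V] (g : ∀ i, A i → B i → Bool) (f : (ι → Bool) → V → Bool) (κ m r : ℕ), 2 ≤ r →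
    (∀ i, ¬ XorLike (g i)) →
    (∀ i, ∃ π : Protocol (A i) (B i), (∀ a b, π.eval a b = g i a b) ∧ π.cost ≤ κ) →
    Nat.card {i // AndLike (g i)} ≤ m →
    (Matrix.of fun (x : (∀ i, A i) × V) (y : (∀ i, B i) × V) =>
      (if f (fun i => g i (x.1 i) (y.1 i)) (x.2 + y.2) then -1 else 1 : ℝ)).rank ≤ r →
    ∃ π : Protocol ((∀ i, A i) × V) ((∀ i, B i) × V),
      (∀ x y, π.eval x y = f (fun i => g i (x.1 i) (y.1 i)) (x.2 + y.2)) ∧
      (π.cost : ℝ) ≤ C * (r : ℝ) ^ ε * (κ + Nat.clog 2 (m + 2)) := by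
  classical
  obtain ⟨C, hC, hgame⟩ := game hε
  refine ⟨C, hC, ?_⟩
  intro ι _ _ A B _ _ V _ _ g f κ m r hr hg hπ hm hrank
  choose c hc1 hc2 using fun i => gadget_cases (hg i)
  obtain ⟨G, hG⟩ : ∃ G : ∀ i, A i → B i → Bool, ∀ i a b, G i a b = (g i a b ^^ c i) :=
    ⟨fun i a b => (g i a b ^^ c i), fun i a b => rfl⟩
  have hG1 : ∀ i, Diag (G i) (fun s => if s then 0 else 1) (fun s => if s then 1 else 0) := by
    intro i
    have h1 : G i = fun a b => (g i a b ^^ c i) := by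
      funext a b
      exact hG i a b
    rw [h1]
    exact hc1 i
  obtain ⟨N, hN⟩ : ∃ N : Finset ι, N = univ.filter fun i =>
      ∃ e : ℝ, e ≠ 0 ∧ Diag (G i) (fun s => if s then 0 else e) (fun _ => 1) := ⟨_, rfl⟩
  have hNmem : ∀ i, i ∈ N ↔
      ∃ e : ℝ, e ≠ 0 ∧ Diag (G i) (fun s => if s then 0 else e) (fun _ => 1) := by
    intro i
    rw [hN, mem_filter]
    exact ⟨fun h => h.2, fun h => ⟨mem_univ _, h⟩⟩
  have hNnot : ∀ i, i ∉ N → AndLike (g i) ∧ ∃ (p : A i → Bool) (q : B i → Bool),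
      ∀ a b, G i a b = (p a && q b) := by
    intro i hi
    rcases hc2 i with h | h
    · refine ⟨h.1, ?_⟩
      obtain ⟨p, q, hpq⟩ := h.2
      exact ⟨p, q, fun a b => by rw [hG]; exact hpq a b⟩
    · exfalso
      apply hi
      rw [hNmem]
      obtain ⟨e, he, hd⟩ := h
      refine ⟨e, he, ?_⟩
      have h1 : G i = fun a b => (g i a b ^^ c i) := by
        funext a b
        exact hG i a b
      rw [h1]
      exact hd
  obtain ⟨e, he0, heD⟩ : ∃ e : ι → ℝ, (∀ i, e i ≠ 0) ∧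
      ∀ i ∈ N, Diag (G i) (fun s => if s then 0 else e i) (fun _ => 1) := by
    have h1 : ∀ i, ∃ e : ℝ, e ≠ 0 ∧ (i ∈ N → Diag (G i) (fun s => if s then 0 else e) (fun _ => 1)) := by
      intro i
      by_cases hi : i ∈ N
      · obtain ⟨e, he, hd⟩ := (hNmem i).1 hi
        exact ⟨e, he, fun _ => hd⟩
      · exact ⟨1, one_ne_zero, fun h => absurd h hi⟩
    choose e he hd using h1
    exact ⟨e, he, hd⟩
  obtain ⟨φ, hφ⟩ : ∃ φ : Finset ι → V → ℝ, ∀ w v, φ w v =
      if f (fun i => (decide (i ∈ w) ^^ c i)) v then -1 else 1 := ⟨_, fun _ _ => rfl⟩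
  have hφ1 : ∀ w v, φ w v = 1 ∨ φ w v = -1 := by
    intro w v
    rw [hφ]
    cases f (fun i => (decide (i ∈ w) ^^ c i)) v
    · left; simp
    · right; simp
  obtain ⟨z, hz⟩ : ∃ z : ((∀ i, A i) × V) → ((∀ i, B i) × V) → Finset ι,
      ∀ x y, z x y = univ.filter fun i => G i (x.1 i) (y.1 i) = true := ⟨_, fun _ _ => rfl⟩
  have hzmem : ∀ x y i, i ∈ z x y ↔ G i (x.1 i) (y.1 i) = true := by
    intro x y i
    rw [hz, mem_filter]
    exact ⟨fun h => h.2, fun h => ⟨mem_univ _, h⟩⟩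
  have hzdec : ∀ x y i, decide (i ∈ z x y) = G i (x.1 i) (y.1 i) := by
    intro x y i
    rw [Bool.decide_congr (hzmem x y i)]
    exact Bool.decide_eq_true
  have hφz : ∀ (x : (∀ i, A i) × V) (y : (∀ i, B i) × V), φ (z x y) (x.2 + y.2) =
      if f (fun i => g i (x.1 i) (y.1 i)) (x.2 + y.2) then -1 else 1 := by
    intro x y
    rw [hφ]
    have h1 : (fun i => (decide (i ∈ z x y) ^^ c i)) = fun i => g i (x.1 i) (y.1 i) := by
      funext i
      rw [hzdec, hG]
      cases g i (x.1 i) (y.1 i) <;> cases c i <;> rfl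
    rw [h1]
  obtain ⟨a, ha⟩ : ∃ a : Finset ι → AddChar V ℂ → ℂ, a = coef φ := ⟨_, rfl⟩
  obtain ⟨M, hM⟩ : ∃ M : (∀ i, A i) × V → (∀ i, B i) × V → ℝ, M = fun x y =>
      (if f (fun i => g i (x.1 i) (y.1 i)) (x.2 + y.2) then -1 else 1 : ℝ) := ⟨_, rfl⟩
  have hrank' : (Matrix.of M).rank ≤ r := by
    rw [hM]
    exact hrank
  have hMexp : ∀ x y, (M x y : ℂ) = ∑ u : Finset ι, ∑ χ : AddChar V ℂ,
      a u χ * (∏ i ∈ u, if G i (x.1 i) (y.1 i) then 1 else 0) * χ (x.2 + y.2) := by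
    intro x y
    have h1 : M x y = φ (z x y) (x.2 + y.2) := by rw [hφz, hM]
    rw [h1, coef_expand, ha]
    refine Finset.sum_congr rfl fun u _ => Finset.sum_congr rfl fun χ _ => ?_
    congr 2
    refine Finset.prod_congr rfl fun i _ => ?_
    by_cases h2 : i ∈ z x y
    · rw [if_pos h2, if_pos ((hzmem x y i).1 h2)]
    · rw [if_neg h2, if_neg (fun h3 => h2 ((hzmem x y i).2 h3))]
  -- the number of monomials
  have hnz : nnz a ≤ r := by
    have h1 := rank_tensor hG1 a M hMexp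
    refine le_trans ?_ (h1.trans hrank')
    unfold nnz
    apply card_le_card
    intro p hp
    rw [mem_filter] at hp ⊢
    refine ⟨mem_univ _, ?_⟩
    have h2 := h1_sum (fun u => a u p.2) p.1
    rw [h2]
    exact hp.2
  have hst : St r a := by
    refine ⟨?_, hnz, ?_⟩
    · rw [ha]; exact mix_coef hφ1
    · rw [ha] at hnz ⊢
      exact ord_coef hφ1 hr hnz
  -- the weights
  have hw : wt N a (fun _ => True) ≤ r ^ 3 := by
    apply h1_wt N a hnz
    intro u χ hu
    obtain ⟨σ, hσ, hcount⟩ := three_half N he0 (fun w => a w χ) hu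
    apply h1_two
    refine hcount.trans ?_
    have hD : ∀ i, Diag (G i) ((fun i s => if s then 0 else if i ∈ σ then e i else 1) i)
        ((fun i s => if i ∈ σ then 1 else if s then 1 else 0) i) := by
      intro i
      by_cases hi : i ∈ σ
      · have h3 := heD i (hσ hi)
        simpa only [if_pos hi] using h3
      · simpa only [if_neg hi] using hG1 i
    have h4 := rank_tensor hD a M hMexp
    have h5 : (univ.filter fun T : Finset ι => ∑ w : Finset ι, a w χ *
      ∏ i, (if i ∈ w then (((if i ∈ σ then 1 else if i ∈ T then 1 else 0 : ℝ)) : ℂ) else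
        (((if i ∈ T then 0 else if i ∈ σ then e i else 1 : ℝ)) : ℂ)) ≠ 0).card ≤
        (Matrix.of M).rank := by
      refine le_trans ?_ h4
      refine card_le_card_of_injOn (fun T => (T, χ)) ?_ ?_
      · intro T hT
        rw [mem_coe, mem_filter] at hT
        rw [mem_coe, mem_filter]
        refine ⟨mem_univ _, ?_⟩
        simpa only [decide_eq_true_eq] using hT.2
      · intro T _ T' _ h
        exact (Prod.mk.injEq _ _ _ _ ▸ h).1
    exact_mod_cast h5.trans hrank'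
  -- the gadgets
  have hgad : Gad N κ z := by
    refine ⟨?_, ?_⟩
    · intro i _
      obtain ⟨π0, h0, hc0⟩ := hπ i
      obtain ⟨π1, h1, hc1⟩ := h1_flip (e1_comap (fun x : (∀ i, A i) × V => x.1 i)
        (fun y : (∀ i, B i) × V => y.1 i) π0) (c i)
      refine ⟨π1, ?_, ?_⟩
      · rw [hc1, e1_comap_cost]
        exact hc0
      · intro x y
        rw [h1, e1_comap_eval, h0, hzdec, hG]
    · intro i hi
      obtain ⟨_, p, q, hpq⟩ := hNnot i hi
      refine ⟨fun x => p (x.1 i), fun y => q (y.1 i), fun x y => ?_⟩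
      rw [hzmem, hpq, Bool.and_eq_true]
  have hNc : Nᶜ.card ≤ m := by
    refine le_trans ?_ hm
    rw [Nat.card_eq_fintype_card, Fintype.card_subtype]
    apply card_le_card
    intro i hi
    rw [mem_compl] at hi
    rw [mem_filter]
    exact ⟨mem_univ _, (hNnot i hi).1⟩
  obtain ⟨π, h1, h2⟩ := hgame r hr ι (AddChar V ℂ) ((∀ i, A i) × V) ((∀ i, B i) × V) N κ m z a
    (fun x => (AddChar.doubleDualEmb x.2 : AddChar (AddChar V ℂ) ℂ))
    (fun y => (AddChar.doubleDualEmb y.2 : AddChar (AddChar V ℂ) ℂ)) hst hw hgad hNc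
  refine ⟨π, fun x y => ?_, h2⟩
  rw [h1, ha, ev_coef, hφz]
  by_cases hf : f (fun i => g i (x.1 i) (y.1 i)) (x.2 + y.2) = true
  · rw [hf]; simp
  · rw [Bool.not_eq_true] at hf
    rw [hf]
    norm_num

end Pool.Agent.AGG
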