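import Mathlib
import Pool.Agent.Lib_helper38.AGG.Defs
import Pool.Agent.Lib_helper58.XA.E1g
import Pool.Agent.Lib_helper59.XA.H1
import Pool.Agent.Lib_helper35.XA.G1
import Pool.Agent.Lib_helper16.XA.G4
import Pool.Agent.Lib_helper58.AGG.G1
import Pool.Agent.Lib_helper58.AGG.H1

/-! AGG, block H2: the final theorem -/

set_option autoImplicit false

namespace Pool.Agent.AGG

open Finset Filter Pool.Agent.XA Pool.Agent.Lib_helper10.LogRank Pool.Agent.AGG

/-- the rank of a matrix made of rows and columns of another matrix -/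
theorem h2_sub {X X' Y Y' : Type} [Fintype X] [Fintype Y] [Fintype X'] [Fintype Y'] (α : X' → X)
    (β : Y' → Y) (M : Matrix X Y ℝ) :
    (Matrix.of fun (x : X') (y : Y') => M (α x) (β y)).rank ≤ M.rank := by
  classical
  have h1 : (Matrix.of fun (x : X') (y : Y') => M (α x) (β y)) =
      (Matrix.of fun (x' : X') (x : X) => if x = α x' then (1 : ℝ) else 0) * M *
        (Matrix.of fun (y : Y) (y' : Y') => if y = β y' then (1 : ℝ) else 0) := by
    ext x' y'
    rw [Matrix.mul_apply, Finset.sum_eq_single (β y')]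
    · rw [Matrix.mul_apply, Finset.sum_eq_single (α x')]
      · simp
      · intro b _ hb
        simp only [Matrix.of_apply]
        rw [if_neg hb, zero_mul]
      · intro h
        exact absurd (Finset.mem_univ _) h
    · intro b _ hb
      simp only [Matrix.of_apply]
      rw [if_neg hb, mul_zero]
    · intro h
      exact absurd (Finset.mem_univ _) h
  rw [h1]
  exact (Matrix.rank_mul_le_left _ _).trans (Matrix.rank_mul_le_right _ _)

theorem h2_zmod (s t : Bool) :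
    decide (((if s then 1 else 0 : ZMod 2) + (if t then 1 else 0 : ZMod 2)) = 1) = (s ^^ t) := by
  revert s t
  decide

theorem h2_zmod' (s t : ZMod 2) :
    (decide (s = 1) ^^ decide (t = 1)) = decide (s + t = 1) := by
  revert s t
  decide

/-- the final theorem without the row and column functions, for positive rank -/
theorem h2_main {ε : ℝ} (hε : 0 < ε) : ∃ C : ℝ, 0 ≤ C ∧ ∀ (ι : Type) [Fintype ι] [DecidableEq ι]
    (A B : ι → Type) [∀ i, Fintype (A i)] [∀ i, Fintype (B i)] (V : Type) [AddCommGroup V]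
    [Fintype V] (g : ∀ i, A i → B i → Bool) (f : (ι → Bool) → V → Bool) (κ m r : ℕ), 2 ≤ r →
    (∀ i, DepBoth (g i)) →
    (∀ i, ∃ π : Protocol (A i) (B i), (∀ a b, π.eval a b = g i a b) ∧ π.cost ≤ κ) →
    Nat.card {i // AndLike (g i)} ≤ m →
    (Matrix.of fun (x : (∀ i, A i) × V) (y : (∀ i, B i) × V) =>
      (if f (fun i => g i (x.1 i) (y.1 i)) (x.2 + y.2) then -1 else 1 : ℝ)).rank ≤ r →
    ∃ π : Protocol ((∀ i, A i) × V) ((∀ i, B i) × V),
      (∀ x y, π.eval x y = f (fun i => g i (x.1 i) (y.1 i)) (x.2 + y.2)) ∧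
      (π.cost : ℝ) ≤ C * (r : ℝ) ^ ε * (κ + Nat.clog 2 (m + 2)) := by
  classical
  obtain ⟨C, hC, hno⟩ := no_xor hε
  refine ⟨C, hC, ?_⟩
  intro ι _ _ A B _ _ V _ _ g f κ m r hr hdep hprot hm hrank
  -- the exclusive ors
  have hpq : ∀ i, ∃ (p : A i → Bool) (q : B i → Bool), XorLike (g i) →
      (∀ a b, g i a b = (p a ^^ q b)) ∧ (∀ s, ∃ a, p a = s) ∧ ∀ s, ∃ b, q b = s := by
    intro i
    by_cases hi : XorLike (g i)
    · obtain ⟨p, q, h⟩ := hi
      have hd : DepBoth fun a b => (p a ^^ q b) := by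
        have h1 : g i = fun a b => (p a ^^ q b) := funext fun a => funext fun b => h a b
        rw [← h1]
        exact hdep i
      exact ⟨p, q, fun _ => ⟨h, xor_onto hd⟩⟩
    · exact ⟨fun _ => false, fun _ => false, fun h => absurd h hi⟩
  choose p q hpq using hpq
  have hsA : ∀ i, ∃ sa : Bool → A i, XorLike (g i) → ∀ s, p i (sa s) = s := by
    intro i
    by_cases hi : XorLike (g i)
    · choose sa hsa using (hpq i hi).2.1
      exact ⟨sa, fun _ => hsa⟩
    · obtain ⟨a, _, _, _⟩ := (hdep i).1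
      exact ⟨fun _ => a, fun h => absurd h hi⟩
  choose sa hsa using hsA
  have hsB : ∀ i, ∃ sb : Bool → B i, XorLike (g i) → ∀ s, q i (sb s) = s := by
    intro i
    by_cases hi : XorLike (g i)
    · choose sb hsb using (hpq i hi).2.2
      exact ⟨sb, fun _ => hsb⟩
    · obtain ⟨_, b, _, _⟩ := (hdep i).2
      exact ⟨fun _ => b, fun h => absurd h hi⟩
  choose sb hsb using hsB
  obtain ⟨f', hf'⟩ : ∃ f' : ({i // ¬ XorLike (g i)} → Bool) →
      (({i // XorLike (g i)} → ZMod 2) × V) → Bool,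
      f' = fun z w => f (fun i => if h : XorLike (g i) then decide (w.1 ⟨i, h⟩ = 1)
        else z ⟨i, h⟩) w.2 := ⟨_, rfl⟩
  -- the sections
  obtain ⟨α, hα⟩ : ∃ α : (∀ i : {i // ¬ XorLike (g i)}, A i) ×
      (({i // XorLike (g i)} → ZMod 2) × V) → (∀ i, A i) × V,
      α = fun x => (fun i => if h : XorLike (g i) then sa i (decide (x.2.1 ⟨i, h⟩ = 1))
        else x.1 ⟨i, h⟩, x.2.2) := ⟨_, rfl⟩
  obtain ⟨β, hβ⟩ : ∃ β : (∀ i : {i // ¬ XorLike (g i)}, B i) ×
      (({i // XorLike (g i)} → ZMod 2) × V) → (∀ i, B i) × V,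
      β = fun x => (fun i => if h : XorLike (g i) then sb i (decide (x.2.1 ⟨i, h⟩ = 1))
        else x.1 ⟨i, h⟩, x.2.2) := ⟨_, rfl⟩
  have hsec : ∀ x y, f' (fun i => g i (x.1 i) (y.1 i)) (x.2 + y.2) =
      f (fun i => g i ((α x).1 i) ((β y).1 i)) ((α x).2 + (β y).2) := by
    intro x y
    rw [hf', hα, hβ]
    simp only [Prod.fst_add, Prod.snd_add, Pi.add_apply]
    congr 1
    funext i
    by_cases hi : XorLike (g i)
    · rw [dif_pos hi, dif_pos hi, dif_pos hi, (hpq i hi).1, hsa i hi, hsb i hi, h2_zmod']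
    · rw [dif_neg hi, dif_neg hi, dif_neg hi]
  have hrank' : (Matrix.of fun (x : (∀ i : {i // ¬ XorLike (g i)}, A i) ×
      (({i // XorLike (g i)} → ZMod 2) × V)) (y : (∀ i : {i // ¬ XorLike (g i)}, B i) ×
      (({i // XorLike (g i)} → ZMod 2) × V)) =>
      (if f' (fun i => g i (x.1 i) (y.1 i)) (x.2 + y.2) then -1 else 1 : ℝ)).rank ≤ r := by
    refine le_trans (le_of_eq ?_) ((h2_sub α β _).trans hrank)
    congr 1
    ext x y
    simp only [Matrix.of_apply]
    rw [hsec]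
  have hcard : Nat.card {i : {i // ¬ XorLike (g i)} // AndLike (g i)} ≤ m := by
    refine le_trans ?_ hm
    refine Nat.card_le_card_of_injective
      (fun i : {i : {i // ¬ XorLike (g i)} // AndLike (g i)} =>
        (⟨i.1.1, i.2⟩ : {i // AndLike (g i)})) ?_
    intro i j hij
    have h1 : i.1.1 = j.1.1 := congrArg (fun t : {i // AndLike (g i)} => t.1) hij
    exact Subtype.ext (Subtype.ext h1)
  obtain ⟨π, hπ, hc⟩ := hno {i // ¬ XorLike (g i)} (fun i => A i) (fun i => B i)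
    (({i // XorLike (g i)} → ZMod 2) × V) (fun i => g i) f' κ m r hr (fun i => i.2)
    (fun i => hprot i) hcard hrank'
  refine ⟨e1_comap
    (fun x => ((fun i : {i // ¬ XorLike (g i)} => x.1 i),
      (fun i : {i // XorLike (g i)} => if p i (x.1 i) then (1 : ZMod 2) else 0), x.2))
    (fun y => ((fun i : {i // ¬ XorLike (g i)} => y.1 i),
      (fun i : {i // XorLike (g i)} => if q i (y.1 i) then (1 : ZMod 2) else 0), y.2)) π, ?_, ?_⟩
  · intro x y
    rw [e1_comap_eval, hπ, hf']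
    simp only [Prod.fst_add, Prod.snd_add, Pi.add_apply]
    congr 1
    funext i
    by_cases hi : XorLike (g i)
    · rw [dif_pos hi, (hpq i hi).1, h2_zmod]
    · rw [dif_neg hi]
  · rw [e1_comap_cost]
    exact hc

/-! ### H2: the final theorem -/

theorem ag_final {ε : ℝ} (hε : 0 < ε) : ∃ C : ℝ, ∀ (ι : Type) [Fintype ι] [DecidableEq ι] (A B : ι → Type)
    [∀ i, Fintype (A i)] [∀ i, Fintype (B i)] (V : Type) [AddCommGroup V] [Fintype V]
    (g : ∀ i, A i → B i → Bool) (f : (ι → Bool) → V → Bool)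
    (u : (∀ i, A i) × V → Bool) (v : (∀ i, B i) × V → Bool) (κ m : ℕ),
    (∀ i, DepBoth (g i)) →
    (∀ i, ∃ π : Protocol (A i) (B i), (∀ a b, π.eval a b = g i a b) ∧ π.cost ≤ κ) →
    Nat.card {i // AndLike (g i)} ≤ m →
    ∃ π : Protocol ((∀ i, A i) × V) ((∀ i, B i) × V),
      (∀ x y, π.eval x y = (f (fun i => g i (x.1 i) (y.1 i)) (x.2 + y.2) ^^ u x ^^ v y)) ∧
      (π.cost : ℝ) ≤ C * (realRank fun (x : (∀ i, A i) × V) (y : (∀ i, B i) × V) =>
        (f (fun i => g i (x.1 i) (y.1 i)) (x.2 + y.2) ^^ u x ^^ v y) : ℝ) ^ ε *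
          (κ + Nat.clog 2 (m + 2)) := by
  classical
  obtain ⟨C0, hC0, hmain⟩ := h2_main hε
  refine ⟨C0 * 2 ^ ε + 2, ?_⟩
  intro ι _ _ A B _ _ V _ _ g f u v κ m hdep hprot hm
  obtain ⟨ρ, hρ⟩ : ∃ ρ : ℕ, ρ = realRank (fun (x : (∀ i, A i) × V) (y : (∀ i, B i) × V) =>
      (f (fun i => g i (x.1 i) (y.1 i)) (x.2 + y.2) ^^ u x ^^ v y)) := ⟨_, rfl⟩
  rw [← hρ]
  rcases Nat.eq_zero_or_pos ρ with h0 | h0
  · -- rank zero
    have hB : (Matrix.of fun (x : (∀ i, A i) × V) (y : (∀ i, B i) × V) =>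
        if (f (fun i => g i (x.1 i) (y.1 i)) (x.2 + y.2) ^^ u x ^^ v y) then (1 : ℝ) else 0) =
        0 := by
      apply h1_rank_zero
      rw [h0] at hρ
      exact hρ.symm
    refine ⟨Protocol.leaf false, fun x y => ?_, ?_⟩
    · have h1 := congrFun (congrFun hB x) y
      simp only [Matrix.of_apply, Matrix.zero_apply] at h1
      simp only [Protocol.eval]
      by_contra hc
      have h2 : (f (fun i => g i (x.1 i) (y.1 i)) (x.2 + y.2) ^^ u x ^^ v y) = true := by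
        cases h3 : (f (fun i => g i (x.1 i) (y.1 i)) (x.2 + y.2) ^^ u x ^^ v y)
        · exact absurd h3.symm hc
        · rfl
      rw [if_pos h2] at h1
      norm_num at h1
    · simp only [Protocol.cost, Nat.cast_zero]
      positivity
  have hrank : (Matrix.of fun (x : (∀ i, A i) × V) (y : (∀ i, B i) × V) =>
      (if f (fun i => g i (x.1 i) (y.1 i)) (x.2 + y.2) then -1 else 1 : ℝ)).rank ≤ 2 * ρ := by
    have h1 := h1_rank (fun (y : (∀ i, B i) × V) (x : (∀ i, A i) × V) =>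
      f (fun i => g i (x.1 i) (y.1 i)) (x.2 + y.2)) u v
    refine h1.trans ?_
    rw [← hρ]
    omega
  obtain ⟨π, hπ, hc⟩ := hmain ι A B V g f κ m (2 * ρ) (by omega) hdep hprot hm hrank
  obtain ⟨π', hπ', hc'⟩ := h1_xor π u v
  refine ⟨π', fun x y => ?_, ?_⟩
  · rw [hπ' x y, hπ x y]
  · rw [hc']
    have hρ1 : (1 : ℝ) ≤ ρ := by exact_mod_cast h0
    have h2 : ((2 * ρ : ℕ) : ℝ) ^ ε = 2 ^ ε * (ρ : ℝ) ^ ε := by
      push_cast
      exact Real.mul_rpow (by norm_num) (by positivity)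
    have h3 : (1 : ℝ) ≤ (ρ : ℝ) ^ ε := Real.one_le_rpow hρ1 hε.le
    rw [h2] at hc
    have h4 : (1 : ℝ) ≤ κ + Nat.clog 2 (m + 2) := by
      have h5 : 1 ≤ Nat.clog 2 (m + 2) := Nat.clog_pos (by norm_num) (by omega)
      have h6 : (1 : ℝ) ≤ (Nat.clog 2 (m + 2) : ℝ) := by exact_mod_cast h5
      have h7 : (0 : ℝ) ≤ κ := Nat.cast_nonneg _
      linarith
    obtain ⟨K, hK⟩ : ∃ K : ℝ, K = (κ : ℝ) + Nat.clog 2 (m + 2) := ⟨_, rfl⟩
    rw [← hK] at hc h4 ⊢
    push_cast
    have h8 : (1 : ℝ) ≤ (ρ : ℝ) ^ ε * K := by nlinarith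
    calc (π.cost : ℝ) + 2 ≤ C0 * (2 ^ ε * (ρ : ℝ) ^ ε) * K + 2 * ((ρ : ℝ) ^ ε * K) := by
          linarith
      _ = (C0 * 2 ^ ε + 2) * (ρ : ℝ) ^ ε * K := by ring

end Pool.Agent.AGG
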